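import Pool.Agent.Lib.MP_904526_P.A4

/-!
# A5. Limits of curves

Kp is closed jointly in the parameters (kp_lim); |G - un n| ≤ 5/2^n uniformly on Kp, and un n depends
continuously on (c,b,p) (b ≠ 0), uniformly on compact sets. Real points: G = 0 passes to the limit,
then km_of_G.
-/

set_option autoImplicit false

open Set Filter Topology MeasureTheory

namespace HE

/-- locally uniform convergence to a continuous function is continuous convergence -/
theorem A5_iff {α β : Type*} [TopologicalSpace α] [UniformSpace β] {F : ℕ → α → β} {f : α → β}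
    (hf : Continuous f) :
    TendstoLocallyUniformly F f atTop ↔
      ∀ x, Tendsto (fun y : ℕ × α => F y.1 y.2) (atTop ×ˢ 𝓝 x) (𝓝 (f x)) := by
  rw [tendstoLocallyUniformly_iff_forall_tendsto]
  refine forall_congr' fun x => ?_
  have hfx : Tendsto (fun y : ℕ × α => f y.2) (atTop ×ˢ 𝓝 x) (𝓝 (f x)) :=
    (hf.tendsto x).comp tendsto_snd
  constructor
  · intro h
    rw [Uniform.tendsto_nhds_right] at hfx ⊢
    exact hfx.uniformity_trans h
  · intro h
    have h1 := hfx
    rw [Uniform.tendsto_nhds_left] at h1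
    rw [Uniform.tendsto_nhds_right] at h
    exact h1.uniformity_trans h

theorem giter_lim (c b : ℕ → ℝ) {c0 b0 : ℝ} (hb0 : b0 ≠ 0)
    (hc : Tendsto c atTop (𝓝 c0)) (hb : Tendsto b atTop (𝓝 b0)) {A : ℕ → ℂ → P} {A0 : ℂ → P}
    (hc0 : Continuous A0) (hl : TendstoLocallyUniformly A A0 atTop) (n : ℕ) :
    TendstoLocallyUniformly (fun j w => (g (c j) (b j))^[n] (A j w))
      (fun w => (g c0 b0)^[n] (A0 w)) atTop := by
  have hgc : ∀ n : ℕ, Continuous (fun w => (g c0 b0)^[n] (A0 w)) := fun n =>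
    ((g_diff c0 b0).continuous.iterate n).comp hc0
  rw [A5_iff (hgc n)]
  rw [A5_iff hc0] at hl
  intro x
  induction n with
  | zero => exact hl x
  | succ n ih =>
    simp only [Function.iterate_succ_apply']
    have h1 : Tendsto (fun y : ℕ × ℂ => ((c y.1 : ℝ) : ℂ)) (atTop ×ˢ 𝓝 x) (𝓝 ((c0 : ℝ) : ℂ)) :=
      (Complex.continuous_ofReal.tendsto _).comp (hc.comp tendsto_fst)
    have h2 : Tendsto (fun y : ℕ × ℂ => ((b y.1 : ℝ) : ℂ)) (atTop ×ˢ 𝓝 x) (𝓝 ((b0 : ℝ) : ℂ)) :=
      (Complex.continuous_ofReal.tendsto _).comp (hb.comp tendsto_fst)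
    have h3 := (continuous_fst.tendsto _).comp ih
    have h4 := (continuous_snd.tendsto _).comp ih
    have hb0' : (b0 : ℂ) ≠ 0 := by exact_mod_cast hb0
    exact h4.prodMk_nhds (((h4.pow 2).add h1).sub h3 |>.div h2 hb0')

theorem lim_curve {c b : ℕ → ℝ} {c0 b0 : ℝ} (h : ∀ j, Par (c j) (b j))
    (hc : Tendsto c atTop (𝓝 c0)) (hb : Tendsto b atTop (𝓝 b0)) {A : ℕ → ℂ → P} {A0 : ℂ → P}
    (hA : ∀ j, Cv (c j) (b j) (A j)) (hl : TendstoLocallyUniformly A A0 atTop) :
    Cv c0 b0 A0 ∧ TendstoLocallyUniformly (fun j w => G (c j) (b j) (A j w))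
      (fun w => G c0 b0 (A0 w)) atTop := by
  have h0 : Par c0 b0 := Par.lim h hc hb
  have hdiff : Differentiable ℂ A0 := by
    rw [← differentiableOn_univ]
    exact (tendstoLocallyUniformlyOn_univ.2 hl).differentiableOn
      (Eventually.of_forall fun j => (hA j).diff.differentiableOn) isOpen_univ
  have hpt : ∀ w, Tendsto (fun j => A j w) atTop (𝓝 (A0 w)) := fun w =>
    (tendstoLocallyUniformlyOn_univ.2 hl).tendsto_at (mem_univ w)
  have hkp : ∀ w, A0 w ∈ Kp c0 b0 := fun w =>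
    kp_lim h hc hb (fun j => (hA j).kp w) (hpt w)
  have hG : TendstoLocallyUniformly (fun j w => G (c j) (b j) (A j w))
      (fun w => G c0 b0 (A0 w)) atTop := by
    rw [Metric.tendstoLocallyUniformly_iff]
    intro ε hε x
    obtain ⟨n, hn⟩ := ((A4_bd_tendsto 5).eventually (gt_mem_nhds (by linarith : 0 < ε / 3))).exists
    have hcn : Continuous (fun w => (g c0 b0)^[n] (A0 w)) :=
      ((g_diff c0 b0).continuous.iterate n).comp hdiff.continuous
    have h1 := giter_lim c b h0.ne hc hb hdiff.continuous hl n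
    rw [A5_iff hcn] at h1
    have hplc : Continuous (fun p : P => Real.posLog ‖p‖ / 2 ^ n) :=
      (Real.continuous_posLog.comp continuous_norm).div_const _
    have h2 : Tendsto (fun y : ℕ × ℂ => un (c y.1) (b y.1) n (A y.1 y.2)) (atTop ×ˢ 𝓝 x)
        (𝓝 (un c0 b0 n (A0 x))) := (hplc.tendsto _).comp (h1 x)
    have h3 : Tendsto (fun y : ℕ × ℂ => un c0 b0 n (A0 y.2)) (atTop ×ˢ 𝓝 x)
        (𝓝 (un c0 b0 n (A0 x))) :=
      ((hplc.comp hcn).tendsto x).comp tendsto_snd
    have h4 := (h3.sub h2).norm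
    rw [sub_self, norm_zero] at h4
    have h5 := h4.eventually (gt_mem_nhds (by linarith : 0 < ε / 3))
    rw [eventually_prod_iff] at h5
    obtain ⟨pa, hpa, pb, hpb, hp⟩ := h5
    refine ⟨{w | pb w}, hpb, hpa.mono fun j hj w hw => ?_⟩
    have e1 := hp hj hw
    rw [Real.norm_eq_abs] at e1
    have e2 := G_un h0 (hkp w) n
    have e3 := G_un (h j) ((hA j).kp w) n
    rw [Real.dist_eq]
    have e4 : G c0 b0 (A0 w) - G (c j) (b j) (A j w) =
        (G c0 b0 (A0 w) - un c0 b0 n (A0 w)) +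
          (un c0 b0 n (A0 w) - un (c j) (b j) n (A j w)) -
          (G (c j) (b j) (A j w) - un (c j) (b j) n (A j w)) := by ring
    rw [e4]
    refine lt_of_le_of_lt (abs_sub _ _) ?_
    have e5 := abs_add_le (G c0 b0 (A0 w) - un c0 b0 n (A0 w))
      (un c0 b0 n (A0 w) - un (c j) (b j) n (A j w))
    linarith
  refine ⟨⟨hdiff, ?_, hkp, ?_⟩, hG⟩
  · intro w
    refine tendsto_nhds_unique (hpt ((starRingEnd ℂ) w)) ?_
    have hcj : Continuous cj := by
      unfold cj
      fun_prop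
    refine ((hcj.tendsto _).comp (hpt w)).congr fun j => ?_
    exact ((hA j).sym w).symm
  · intro t
    refine km_of_G h0 (hkp _) ?_
    have e1 : Tendsto (fun j => G (c j) (b j) (A j (t : ℂ))) atTop (𝓝 (G c0 b0 (A0 (t : ℂ)))) :=
      (tendstoLocallyUniformlyOn_univ.2 hG).tendsto_at (mem_univ _)
    refine tendsto_nhds_unique e1 ?_
    refine tendsto_const_nhds.congr fun j => ?_
    exact (G_km (h j) ((hA j).kp _) ((hA j).km t)).symm

end HE
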