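import Pool.Agent.Lib.MP_904526_P.Defs

/-!
# A6. Montel's theorem for entire curves

`montel` for uniformly bounded scalar sequences on an open set is proved in
Pool/Agent/Lib/MP_2b3e36_an/Ex/E1a.lean (copy it); use it on the balls of radius 1, 2, 3, ... and a
diagonal sequence, both coordinates.
-/

set_option autoImplicit false

open Set Filter Topology MeasureTheory

namespace HE

theorem A6_lip {f : ℂ → P} (hf : Differentiable ℂ f) {c : ℂ} {B : ℝ} (hB : 0 ≤ B)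
    (hb : ∀ z ∈ Metric.ball c 1, ‖f z‖ ≤ B) {z : ℂ} (hz : z ∈ Metric.ball c 1) :
    ‖f z - f c‖ ≤ 2 * B * ‖z - c‖ := by
  have h := Complex.dist_le_div_mul_dist_of_mapsTo_ball (R₁ := 1) (R₂ := 2 * B)
    (hf.differentiableOn (s := Metric.ball c 1))
    (fun w hw => by
      rw [Metric.mem_closedBall, dist_eq_norm]
      refine (norm_sub_le _ _).trans ?_
      have h1 := hb w hw
      have h2 := hb c (Metric.mem_ball_self one_pos)
      linarith) hz
  rwa [dist_eq_norm, dist_eq_norm, div_one] at h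

theorem A6_diag {A : ℕ → ℂ → P}
    (hb : ∀ R : ℝ, ∃ B : ℝ, ∀ᶠ j in atTop, ∀ w : ℂ, ‖w‖ ≤ R → ‖A j w‖ ≤ B) (d : ℕ → ℂ) :
    ∃ φ : ℕ → ℕ, StrictMono φ ∧ ∀ k, ∃ l : P, Tendsto (fun n => A (φ n) (d k)) atTop (𝓝 l) := by
  classical
  choose B hB using hb
  let G : ℕ → ℕ → P := fun n k => if ‖A n (d k)‖ ≤ B ‖d k‖ then A n (d k) else 0
  have hG : ∀ n, G n ∈ Set.pi univ (fun k : ℕ => Metric.closedBall (0 : P) |B ‖d k‖|) := by
    intro n k _
    simp only [G]
    split_ifs with h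
    · rw [Metric.mem_closedBall, dist_zero_right]
      exact h.trans (le_abs_self _)
    · rw [Metric.mem_closedBall, dist_self]
      exact abs_nonneg _
  have hc : IsCompact (Set.pi univ (fun k : ℕ => Metric.closedBall (0 : P) |B ‖d k‖|)) :=
    isCompact_univ_pi fun _ => isCompact_closedBall 0 _
  obtain ⟨g, _, φ, hφ, hlim⟩ := hc.tendsto_subseq hG
  refine ⟨φ, hφ, fun k => ⟨g k, ?_⟩⟩
  have h1 : Tendsto (fun n => G (φ n) k) atTop (𝓝 (g k)) := (tendsto_pi_nhds.1 hlim) k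
  refine h1.congr' ?_
  have h2 := hφ.tendsto_atTop.eventually (hB ‖d k‖)
  filter_upwards [h2] with n hn
  simp only [G]
  rw [if_pos (hn (d k) le_rfl)]

theorem A6_ev_lip {A : ℕ → ℂ → P} (hd : ∀ j, Differentiable ℂ (A j))
    (hb : ∀ R : ℝ, ∃ B : ℝ, ∀ᶠ j in atTop, ∀ w : ℂ, ‖w‖ ≤ R → ‖A j w‖ ≤ B) (z : ℂ) :
    ∃ L : ℝ, 0 < L ∧ ∀ᶠ j in atTop, ∀ w ∈ Metric.ball z 1, ‖A j w - A j z‖ ≤ L * ‖w - z‖ := by
  obtain ⟨B, hB⟩ := hb (‖z‖ + 1)
  refine ⟨2 * max B 1, by have := le_max_right B 1; linarith, ?_⟩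
  filter_upwards [hB] with j hj w hw
  refine A6_lip (hd j) (le_trans zero_le_one (le_max_right B 1)) (fun u hu => ?_) hw
  refine (hj u ?_).trans (le_max_left _ _)
  have h1 : ‖u - z‖ < 1 := by rwa [Metric.mem_ball, dist_eq_norm] at hu
  have h2 : ‖u‖ ≤ ‖u - z‖ + ‖z‖ := by simpa using norm_add_le (u - z) z
  linarith

theorem montel {A : ℕ → ℂ → P} (hd : ∀ j, Differentiable ℂ (A j))
    (hb : ∀ R : ℝ, ∃ B : ℝ, ∀ᶠ j in atTop, ∀ w : ℂ, ‖w‖ ≤ R → ‖A j w‖ ≤ B) :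
    ∃ φ : ℕ → ℕ, StrictMono φ ∧ ∃ A0 : ℂ → P, Differentiable ℂ A0 ∧
      TendstoLocallyUniformly (fun j => A (φ j)) A0 atTop := by
  obtain ⟨φ, hφ, hdl⟩ := A6_diag hb (TopologicalSpace.denseSeq ℂ)
  refine ⟨φ, hφ, ?_⟩
  have hL := fun z => A6_ev_lip hd hb z
  choose L hL0 hL1 using hL
  have hL2 : ∀ z, ∀ᶠ n in atTop, ∀ w ∈ Metric.ball z 1,
      ‖A (φ n) w - A (φ n) z‖ ≤ L z * ‖w - z‖ := fun z => hφ.tendsto_atTop.eventually (hL1 z)
  -- pointwise convergence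
  have hpt : ∀ z : ℂ, ∃ l : P, Tendsto (fun n => A (φ n) z) atTop (𝓝 l) := by
    intro z
    apply cauchySeq_tendsto_of_complete
    rw [Metric.cauchySeq_iff']
    intro ε hε
    set δ : ℝ := min 1 (ε / (4 * L z)) with hδ
    have hLz := hL0 z
    have hδ0 : 0 < δ := lt_min one_pos (by positivity)
    obtain ⟨k, hk⟩ := (TopologicalSpace.denseRange_denseSeq ℂ).exists_dist_lt z hδ0
    set w := TopologicalSpace.denseSeq ℂ k with hwd
    have hwz : w ∈ Metric.ball z 1 := by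
      rw [Metric.mem_ball, dist_comm]
      exact hk.trans_le (min_le_left _ _)
    have hwδ : L z * ‖w - z‖ ≤ ε / 4 := by
      have h1 : ‖w - z‖ ≤ ε / (4 * L z) := by
        rw [← dist_eq_norm, dist_comm]
        exact (hk.trans_le (min_le_right _ _)).le
      calc L z * ‖w - z‖ ≤ L z * (ε / (4 * L z)) := mul_le_mul_of_nonneg_left h1 hLz.le
        _ = ε / 4 := by field_simp
    obtain ⟨l, hl⟩ := hdl k
    obtain ⟨N1, hN1⟩ := (Metric.cauchySeq_iff'.1 hl.cauchySeq) (ε / 8) (by positivity)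
    obtain ⟨N2, hN2⟩ := eventually_atTop.1 (hL2 z)
    refine ⟨max N1 N2, fun n hn => ?_⟩
    have h1 := hN1 n ((le_max_left _ _).trans hn)
    have h1' := hN1 (max N1 N2) (le_max_left _ _)
    rw [dist_eq_norm] at h1 h1' ⊢
    have h2 := (hN2 n ((le_max_right _ _).trans hn) w hwz).trans hwδ
    have h3 := (hN2 (max N1 N2) (le_max_right _ _) w hwz).trans hwδ
    have e : A (φ n) z - A (φ (max N1 N2)) z =
        ((A (φ n) w - A (φ N1) w) - (A (φ (max N1 N2)) w - A (φ N1) w)) -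
          (A (φ n) w - A (φ n) z) + (A (φ (max N1 N2)) w - A (φ (max N1 N2)) z) := by abel
    rw [e]
    have h4 := norm_sub_le (A (φ n) w - A (φ N1) w) (A (φ (max N1 N2)) w - A (φ N1) w)
    have h5 := norm_sub_le ((A (φ n) w - A (φ N1) w) - (A (φ (max N1 N2)) w - A (φ N1) w))
      (A (φ n) w - A (φ n) z)
    have h6 := norm_add_le (((A (φ n) w - A (φ N1) w) - (A (φ (max N1 N2)) w - A (φ N1) w)) -
      (A (φ n) w - A (φ n) z)) (A (φ (max N1 N2)) w - A (φ (max N1 N2)) z)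
    change ‖A (φ n) w - A (φ N1) w‖ < ε / 8 at h1
    change ‖A (φ (max N1 N2)) w - A (φ N1) w‖ < ε / 8 at h1'
    linarith
  choose A0 hA0 using hpt
  have hloc : TendstoLocallyUniformly (fun n => A (φ n)) A0 atTop := by
    rw [Metric.tendstoLocallyUniformly_iff]
    intro ε hε z
    set δ : ℝ := min 1 (ε / (4 * L z)) with hδ
    have hLz := hL0 z
    have hδ0 : 0 < δ := lt_min one_pos (by positivity)
    refine ⟨Metric.ball z δ, Metric.ball_mem_nhds z hδ0, ?_⟩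
    have hsm : ∀ w ∈ Metric.ball z δ, L z * ‖w - z‖ ≤ ε / 4 := by
      intro w hw
      have h1 : ‖w - z‖ ≤ ε / (4 * L z) := by
        rw [← dist_eq_norm]
        exact (lt_of_lt_of_le hw (min_le_right _ _)).le
      calc L z * ‖w - z‖ ≤ L z * (ε / (4 * L z)) := mul_le_mul_of_nonneg_left h1 hLz.le
        _ = ε / 4 := by field_simp
    have hLip : ∀ᶠ n in atTop, ∀ w ∈ Metric.ball z δ, ‖A (φ n) w - A (φ n) z‖ ≤ ε / 4 := by
      filter_upwards [hL2 z] with n hn w hw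
      exact (hn w (Metric.ball_subset_ball (min_le_left _ _) hw)).trans (hsm w hw)
    have hLipf : ∀ w ∈ Metric.ball z δ, ‖A0 w - A0 z‖ ≤ ε / 4 := by
      intro w hw
      refine le_of_tendsto ((hA0 w).sub (hA0 z)).norm ?_
      filter_upwards [hLip] with n hn
      exact hn w hw
    have h1 : ∀ᶠ n in atTop, dist (A (φ n) z) (A0 z) < ε / 4 :=
      (Metric.tendsto_nhds.1 (hA0 z)) (ε / 4) (by positivity)
    filter_upwards [h1, hLip] with n hn hn2 w hw
    rw [dist_eq_norm] at hn ⊢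
    have h2 := hn2 w hw
    have h3 := hLipf w hw
    have e : A0 w - A (φ n) w = (A0 w - A0 z) - (A (φ n) z - A0 z) - (A (φ n) w - A (φ n) z) := by
      abel
    rw [e]
    calc ‖(A0 w - A0 z) - (A (φ n) z - A0 z) - (A (φ n) w - A (φ n) z)‖
        ≤ ‖A0 w - A0 z‖ + ‖A (φ n) z - A0 z‖ + ‖A (φ n) w - A (φ n) z‖ :=
          (norm_sub_le _ _).trans (add_le_add (norm_sub_le _ _) le_rfl)
      _ < ε := by linarith
  refine ⟨A0, ?_, hloc⟩
  have h7 := (tendstoLocallyUniformlyOn_univ.2 hloc).differentiableOn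
    (Eventually.of_forall fun n => (hd (φ n)).differentiableOn) isOpen_univ
  exact differentiableOn_univ.1 h7

end HE
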