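import Pool.Agent.Lib.MP_904526_P.B1

/-!
# B2. Hopf lemma

Barrier k(w) = α log ‖(w - conj w1)/(w - w1)‖ - η Im w on U = {0 < Im w, ‖w‖ < R1, ρ < ‖w - w1‖}.
Choose α with k ≤ δ on the circle ‖w-w1‖ = ρ (there
‖w - conj w1‖ ≤ ρ + 2 Im w1), R1 = 8 ‖w1‖, η = 8 α Im w1/R1^2 (so k ≤ 0 on ‖w‖ = R1, log x ≤ x - 1), and
near 0: k ≥ (α/2) Im w Im w1/‖w1‖^2 - η Im w ≥ d Im w (log x ≤ x - 1 for the inverse).
t Im w - v is nonnegative and super-mean; apply max_princ to k - (t Im w - v).
-/

set_option autoImplicit false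

open Set Filter Topology MeasureTheory

namespace HE

private theorem B2_im (w : ℂ) (r : ℝ) : Real.circleAverage (fun z : ℂ => z.im) w r = w.im := by
  have h1 : Real.circleAverage (fun z : ℂ => z) w r = w := by
    have h : DiffContOnCl ℂ (fun z : ℂ => z) (Metric.ball w |r|) := differentiable_id.diffContOnCl
    exact h.circleAverage
  have h2 : CircleIntegrable (fun z : ℂ => z) w r := continuous_id.continuousOn.circleIntegrable'
  have h3 := Complex.imCLM.circleAverage_comp_comm h2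
  rw [h1] at h3
  exact h3

private theorem B2_log (a w : ℂ) (r : ℝ) (h : ∀ z ∈ Metric.closedBall w |r|, z ≠ a) :
    Real.circleAverage (fun z => Real.log ‖z - a‖) w r = Real.log ‖w - a‖ := by
  have h1 : AnalyticOnNhd ℂ (fun z : ℂ => z - a) (Metric.closedBall w |r|) :=
    fun z _ => analyticAt_id.sub analyticAt_const
  exact h1.circleAverage_log_norm_of_ne_zero (fun z hz => sub_ne_zero.2 (h z hz))

private theorem B2_logint (a w : ℂ) (r : ℝ) (h : ∀ z ∈ Metric.closedBall w |r|, z ≠ a) :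
    CircleIntegrable (fun z => Real.log ‖z - a‖) w r := by
  apply ContinuousOn.circleIntegrable'
  intro z hz
  have hz' := h z (Metric.sphere_subset_closedBall hz)
  have : ‖z - a‖ ≠ 0 := norm_ne_zero_iff.2 (sub_ne_zero.2 hz')
  exact ((continuous_id.sub continuous_const).norm.continuousAt.log this).continuousWithinAt

/-- the barrier, truncated so that it is continuous everywhere -/
private noncomputable def B2k (w1 : ℂ) (ρ α η : ℝ) (w : ℂ) : ℝ :=
  α * (Real.log (max ‖w - (starRingEnd ℂ) w1‖ ρ) - Real.log (max ‖w - w1‖ ρ)) - η * w.im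

private theorem B2k_cont (w1 : ℂ) (ρ α η : ℝ) (hρ : 0 < ρ) : Continuous (B2k w1 ρ α η) := by
  have h : ∀ a : ℂ, Continuous (fun w : ℂ => Real.log (max ‖w - a‖ ρ)) := by
    intro a
    apply Continuous.log
    · exact ((continuous_id.sub continuous_const).norm).max continuous_const
    · intro w
      have : 0 < max ‖w - a‖ ρ := lt_max_of_lt_right hρ
      exact this.ne'
  exact (continuous_const.mul ((h _).sub (h _))).sub (continuous_const.mul Complex.continuous_im)

/-- squares of the distances -/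
private theorem B2_sq (w w1 : ℂ) :
    ‖w - (starRingEnd ℂ) w1‖ ^ 2 = ‖w - w1‖ ^ 2 + 4 * (w.im * w1.im) := by
  rw [← Complex.normSq_eq_norm_sq, ← Complex.normSq_eq_norm_sq, Complex.normSq_apply,
    Complex.normSq_apply]
  simp only [Complex.sub_re, Complex.sub_im, Complex.conj_re, Complex.conj_im]
  ring

private theorem B2_far (w w1 : ℂ) (ρ : ℝ) (h1 : ρ < w1.im) (hw : 0 ≤ w.im) :
    ρ < ‖w - (starRingEnd ℂ) w1‖ := by
  have h2 := Complex.abs_im_le_norm (w - (starRingEnd ℂ) w1)
  simp only [Complex.sub_im, Complex.conj_im, sub_neg_eq_add] at h2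
  have h3 := le_abs_self (w.im + w1.im)
  linarith

/-- the barrier on the closed region -/
private theorem B2k_eq (w1 : ℂ) (ρ α η : ℝ) (h1 : ρ < w1.im) (w : ℂ) (hw : 0 ≤ w.im)
    (hd : ρ ≤ ‖w - w1‖) :
    B2k w1 ρ α η w = α * (Real.log ‖w - (starRingEnd ℂ) w1‖ - Real.log ‖w - w1‖) - η * w.im := by
  unfold B2k
  rw [max_eq_left (B2_far w w1 ρ h1 hw).le, max_eq_left hd]

private theorem B2_diff (w1 : ℂ) (ρ : ℝ) (hρ : 0 < ρ) (h1 : ρ < w1.im) (w : ℂ) (hw : 0 ≤ w.im)
    (hd : ρ ≤ ‖w - w1‖) :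
    2 * (w.im * w1.im) / ‖w - (starRingEnd ℂ) w1‖ ^ 2 ≤
      Real.log ‖w - (starRingEnd ℂ) w1‖ - Real.log ‖w - w1‖ ∧
    Real.log ‖w - (starRingEnd ℂ) w1‖ - Real.log ‖w - w1‖ ≤
      2 * (w.im * w1.im) / ‖w - w1‖ ^ 2 := by
  have hA : 0 < ‖w - (starRingEnd ℂ) w1‖ := by
    have := B2_far w w1 ρ h1 hw
    linarith
  have hB : 0 < ‖w - w1‖ := by linarith
  have hs := B2_sq w w1
  set A := ‖w - (starRingEnd ℂ) w1‖ with hAd
  set B := ‖w - w1‖ with hBd
  have hA2 : 0 < A ^ 2 := by positivity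
  have hB2 : 0 < B ^ 2 := by positivity
  constructor
  · have e1 := Real.log_le_sub_one_of_pos (show (0 : ℝ) < B ^ 2 / A ^ 2 by positivity)
    rw [Real.log_div hB2.ne' hA2.ne', Real.log_pow, Real.log_pow] at e1
    have e2 : B ^ 2 / A ^ 2 = 1 - 4 * (w.im * w1.im) / A ^ 2 := by
      have e0 : B ^ 2 = A ^ 2 - 4 * (w.im * w1.im) := by linarith
      rw [e0, sub_div, div_self hA2.ne']
    rw [e2] at e1
    push_cast at e1
    have e3 : 2 * (w.im * w1.im) / A ^ 2 = (4 * (w.im * w1.im) / A ^ 2) / 2 := by ring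
    rw [e3]
    linarith
  · have e1 := Real.log_le_sub_one_of_pos (show (0 : ℝ) < A ^ 2 / B ^ 2 by positivity)
    rw [Real.log_div hA2.ne' hB2.ne', Real.log_pow, Real.log_pow] at e1
    have e2 : A ^ 2 / B ^ 2 = 1 + 4 * (w.im * w1.im) / B ^ 2 := by
      rw [hs]
      field_simp
    rw [e2] at e1
    push_cast at e1
    have e3 : 2 * (w.im * w1.im) / B ^ 2 = (4 * (w.im * w1.im) / B ^ 2) / 2 := by ring
    rw [e3]
    linarith

theorem hopf (w1 : ℂ) (ρ δ : ℝ) (hρ : 0 < ρ) (hρ1 : ρ < w1.im) (hδ : 0 < δ) :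
    ∃ d R0 R1 : ℝ, 0 < d ∧ 0 < R0 ∧ R0 < R1 ∧ ∀ v : ℂ → ℝ, Pot v → ∀ t : ℝ,
      (∀ w : ℂ, ‖w‖ ≤ R1 → 0 ≤ w.im → v w ≤ t * w.im) →
      (∀ w : ℂ, ‖w - w1‖ ≤ ρ → v w ≤ t * w.im - δ) →
      ∀ w : ℂ, ‖w‖ ≤ R0 → 0 ≤ w.im → v w ≤ (t - d) * w.im := by
  have hy : 0 < w1.im := by linarith
  have hn : w1.im ≤ ‖w1‖ := (le_abs_self _).trans (Complex.abs_im_le_norm w1)
  have hn0 : 0 < ‖w1‖ := by linarith
  set Λ : ℝ := Real.log ((ρ + 2 * w1.im) / ρ) with hΛ
  have hΛ0 : 0 < Λ := by
    apply Real.log_pos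
    rw [lt_div_iff₀ hρ]; linarith
  set α : ℝ := δ / Λ with hα
  have hα0 : 0 < α := by positivity
  set R1 : ℝ := 8 * ‖w1‖ with hR1
  set η : ℝ := 8 * α * w1.im / R1 ^ 2 with hη
  have hR1p : 0 < R1 := by positivity
  have hη0 : 0 < η := by positivity
  set d : ℝ := α * w1.im / (4 * ‖w1‖ ^ 2) with hd
  have hd0 : 0 < d := by positivity
  set R0 : ℝ := min ‖w1‖ ((w1.im - ρ) / 2) with hR0
  have hR00 : 0 < R0 := lt_min hn0 (by linarith)
  have hR0a : R0 ≤ ‖w1‖ := min_le_left _ _
  have hR0b : R0 ≤ (w1.im - ρ) / 2 := min_le_right _ _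
  refine ⟨d, R0, R1, hd0, hR00, by linarith, ?_⟩
  intro v hv t h1 h2
  set U : Set ℂ := {w | 0 < w.im ∧ ‖w‖ < R1 ∧ ρ < ‖w - w1‖} with hU
  have hUo : IsOpen U :=
    (isOpen_lt continuous_const Complex.continuous_im).inter
      ((isOpen_lt continuous_norm continuous_const).inter
        (isOpen_lt continuous_const ((continuous_id.sub continuous_const).norm)))
  have hUb : Bornology.IsBounded U := by
    apply (Metric.isBounded_ball (x := (0 : ℂ)) (r := R1)).subset
    intro w hw
    rw [mem_ball_zero_iff]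
    exact hw.2.1
  have hUc : closure U ⊆ {w | 0 ≤ w.im ∧ ‖w‖ ≤ R1 ∧ ρ ≤ ‖w - w1‖} := by
    have hcl : IsClosed {w : ℂ | 0 ≤ w.im ∧ ‖w‖ ≤ R1 ∧ ρ ≤ ‖w - w1‖} :=
      (isClosed_le continuous_const Complex.continuous_im).inter
        ((isClosed_le continuous_norm continuous_const).inter
          (isClosed_le continuous_const ((continuous_id.sub continuous_const).norm)))
    apply closure_minimal _ hcl
    intro w hw
    exact ⟨hw.1.le, hw.2.1.le, hw.2.2.le⟩
  set φ : ℂ → ℝ := fun w => v w + B2k w1 ρ α (η + t) w with hφ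
  have hφc : Continuous φ := hv.cont.add (B2k_cont w1 ρ α (η + t) hρ)
  have hφs : ∀ w ∈ U, ∃ r0 : ℝ, 0 < r0 ∧ ∀ r : ℝ, 0 < r → r < r0 →
      φ w ≤ Real.circleAverage φ w r := by
    intro w hw
    obtain ⟨r0, hr0, hb⟩ := Metric.isOpen_iff.1 hUo w hw
    refine ⟨r0, hr0, fun r hr hrr => ?_⟩
    have habs : |r| = r := abs_of_pos hr
    have hcb : ∀ z ∈ Metric.closedBall w |r|, z ∈ U := by
      intro z hz
      apply hb
      rw [Metric.mem_closedBall, habs] at hz
      rw [Metric.mem_ball]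
      linarith
    have hne1 : ∀ z ∈ Metric.closedBall w |r|, z ≠ w1 := by
      intro z hz he
      have := (hcb z hz).2.2
      rw [he, sub_self, norm_zero] at this
      linarith
    have hne2 : ∀ z ∈ Metric.closedBall w |r|, z ≠ (starRingEnd ℂ) w1 := by
      intro z hz he
      have := (hcb z hz).1
      rw [he, Complex.conj_im] at this
      linarith
    set ψ : ℂ → ℝ := fun z => α * (Real.log ‖z - (starRingEnd ℂ) w1‖ - Real.log ‖z - w1‖) -
      (η + t) * z.im with hψ
    have hψi : CircleIntegrable ψ w r := by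
      have i1 := (B2_logint _ w r hne2).sub (B2_logint _ w r hne1)
      have i2 : CircleIntegrable (fun z : ℂ => (η + t) * z.im) w r :=
        (continuous_const.mul Complex.continuous_im).continuousOn.circleIntegrable'
      exact (i1.const_fun_smul (a := α)).sub i2
    have hψa : Real.circleAverage ψ w r = ψ w := by
      have i1 := (B2_logint _ w r hne2).sub (B2_logint _ w r hne1)
      have i2 : CircleIntegrable (fun z : ℂ => (η + t) * z.im) w r :=
        (continuous_const.mul Complex.continuous_im).continuousOn.circleIntegrable'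
      have e1 := Real.circleAverage_fun_sub (i1.const_fun_smul (a := α)) i2
      have e2 : Real.circleAverage (fun z : ℂ => (η + t) * z.im) w r = (η + t) * w.im := by
        have := Real.circleAverage_fun_smul (f := fun z : ℂ => z.im) (c := w) (R := r) (a := η + t)
        simp only [smul_eq_mul] at this
        rw [this, B2_im]
      have e3 : Real.circleAverage (fun z : ℂ => α • ((fun z => Real.log ‖z - (starRingEnd ℂ) w1‖) -
          (fun z => Real.log ‖z - w1‖)) z) w r =
          α * (Real.log ‖w - (starRingEnd ℂ) w1‖ - Real.log ‖w - w1‖) := by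
        rw [Real.circleAverage_fun_smul, Real.circleAverage_sub (B2_logint _ w r hne2)
          (B2_logint _ w r hne1), B2_log _ w r hne2, B2_log _ w r hne1]
        rfl
      rw [e2, e3] at e1
      exact e1
    have hsp : Set.EqOn φ (fun z => v z + ψ z) (Metric.sphere w |r|) := by
      intro z hz
      have hz' := hcb z (Metric.sphere_subset_closedBall hz)
      simp only [hφ, hψ]
      rw [B2k_eq w1 ρ α (η + t) hρ1 z hz'.1.le hz'.2.2.le]
    rw [Real.circleAverage_congr_sphere hsp, Real.circleAverage_fun_add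
      hv.cont.continuousOn.circleIntegrable' hψi, hψa]
    have hφw : φ w = v w + ψ w := by
      simp only [hφ, hψ]
      rw [B2k_eq w1 ρ α (η + t) hρ1 w hw.1.le hw.2.2.le]
    rw [hφw]
    have := hv.sub w r hr
    linarith
  have hφf : ∀ w ∈ frontier U, φ w ≤ 0 := by
    intro w hw
    rw [hUo.frontier_eq] at hw
    obtain ⟨hwc, hwn⟩ := hw
    obtain ⟨c1, c2, c3⟩ := hUc hwc
    simp only [hφ]
    rw [B2k_eq w1 ρ α (η + t) hρ1 w c1 c3]
    obtain ⟨b1, b2⟩ := B2_diff w1 ρ hρ hρ1 w c1 c3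
    rcases c1.eq_or_lt with h0 | h0
    · -- real points
      have hw0 : w = ((w.re : ℝ) : ℂ) := by
        apply Complex.ext <;> simp [← h0]
      have hvw : v w = 0 := by rw [hw0]; exact hv.real _
      rw [← h0] at b2
      rw [hvw, ← h0]
      simp only [zero_mul, mul_zero, zero_div] at b2
      nlinarith
    · rcases c3.eq_or_lt with h3 | h3
      · -- the circle around w1
        have g1 := h2 w h3.symm.le
        have g2 : Real.log ‖w - (starRingEnd ℂ) w1‖ - Real.log ‖w - w1‖ ≤ Λ := by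
          rw [hΛ, Real.log_div (by positivity) hρ.ne', ← h3]
          have : ‖w - (starRingEnd ℂ) w1‖ ≤ ρ + 2 * w1.im := by
            have e : w - (starRingEnd ℂ) w1 = (w - w1) + (w1 - (starRingEnd ℂ) w1) := by ring
            rw [e]
            refine (norm_add_le _ _).trans ?_
            rw [← h3, Complex.sub_conj]
            simp [abs_of_pos hy]
          have h5 : 0 < ‖w - (starRingEnd ℂ) w1‖ := by
            have := B2_far w w1 ρ hρ1 c1
            linarith
          have := Real.log_le_log h5 this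
          linarith
        have g3 : α * (Real.log ‖w - (starRingEnd ℂ) w1‖ - Real.log ‖w - w1‖) ≤ δ := by
          calc _ ≤ α * Λ := mul_le_mul_of_nonneg_left g2 hα0.le
            _ = δ := by rw [hα]; field_simp
        have g4 : 0 ≤ η * w.im := by positivity
        nlinarith
      · -- the big circle
        have h4 : ‖w‖ = R1 := by
          rcases c2.eq_or_lt with h5 | h5
          · exact h5
          · exact absurd ⟨h0, h5, h3⟩ hwn
        have g1 := h1 w h4.le c1
        have g2 : R1 / 2 ≤ ‖w - w1‖ := by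
          have := norm_sub_norm_le w w1
          rw [h4] at this
          linarith
        have g3 : 2 * (w.im * w1.im) / ‖w - w1‖ ^ 2 ≤ 2 * (w.im * w1.im) / (R1 / 2) ^ 2 := by
          apply div_le_div_of_nonneg_left (by positivity) (by positivity)
          exact pow_le_pow_left₀ (by positivity) g2 2
        have g4 : α * (Real.log ‖w - (starRingEnd ℂ) w1‖ - Real.log ‖w - w1‖) ≤ η * w.im := by
          calc _ ≤ α * (2 * (w.im * w1.im) / (R1 / 2) ^ 2) :=
                mul_le_mul_of_nonneg_left (b2.trans g3) hα0.le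
            _ = η * w.im := by rw [hη]; field_simp; ring
        nlinarith
  intro w hw0 hw1
  rcases hw1.eq_or_lt with h0 | h0
  · have hwr : w = ((w.re : ℝ) : ℂ) := by
      apply Complex.ext <;> simp [← h0]
    have hvw : v w = 0 := by rw [hwr]; exact hv.real _
    rw [hvw, ← h0, mul_zero]
  · have hwd : ρ < ‖w - w1‖ := by
      have e1 := Complex.abs_im_le_norm (w - w1)
      rw [Complex.sub_im] at e1
      have e2 := neg_le_abs (w.im - w1.im)
      have e3 : w.im ≤ ‖w‖ := (le_abs_self _).trans (Complex.abs_im_le_norm w)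
      linarith
    have hwU : w ∈ U := ⟨h0, by linarith, hwd⟩
    have key := max_princ hUo hUb hφc hφs hφf w (subset_closure hwU)
    simp only [hφ] at key
    rw [B2k_eq w1 ρ α (η + t) hρ1 w hw1 hwd.le] at key
    obtain ⟨b1, b2⟩ := B2_diff w1 ρ hρ hρ1 w hw1 hwd.le
    have g1 : ‖w - (starRingEnd ℂ) w1‖ ≤ 2 * ‖w1‖ := by
      refine (norm_sub_le _ _).trans ?_
      rw [RCLike.norm_conj]
      linarith
    have g0 : 0 < ‖w - (starRingEnd ℂ) w1‖ := by
      have := B2_far w w1 ρ hρ1 hw1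
      linarith
    have g2 : 2 * (w.im * w1.im) / (2 * ‖w1‖) ^ 2 ≤ 2 * (w.im * w1.im) / ‖w - (starRingEnd ℂ) w1‖ ^ 2 := by
      apply div_le_div_of_nonneg_left (by positivity) (by positivity)
      exact pow_le_pow_left₀ g0.le g1 2
    have g3 : α * (2 * (w.im * w1.im) / (2 * ‖w1‖) ^ 2) ≤
        α * (Real.log ‖w - (starRingEnd ℂ) w1‖ - Real.log ‖w - w1‖) :=
      mul_le_mul_of_nonneg_left (g2.trans b1) hα0.le
    have g4 : α * (2 * (w.im * w1.im) / (2 * ‖w1‖) ^ 2) - η * w.im ≥ d * w.im := by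
      have : α * (2 * (w.im * w1.im) / (2 * ‖w1‖) ^ 2) - η * w.im - d * w.im =
          (α * w1.im * w.im / ‖w1‖ ^ 2) * (1 / 2 - 1 / 8 - 1 / 4) := by
        rw [hη, hd, hR1]
        field_simp
      have h8 : 0 ≤ (α * w1.im * w.im / ‖w1‖ ^ 2) * (1 / 2 - 1 / 8 - 1 / 4) := by
        apply mul_nonneg (by positivity) (by norm_num)
      linarith
    nlinarith

end HE
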