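import Pool.Agent.Lib.MP_904526_P.B1

/-!
# B3. The function TT

All from the barrier and the symmetry. In TT_bd a point w with ‖w‖ < R is compared with the disc of radius R about
Re w, contained in the disc of radius 2R about 0.
-/

set_option autoImplicit false

open Set Filter Topology MeasureTheory

namespace HE

theorem B3_bound {v : ℂ → ℝ} (hv : Pot v) (R : ℝ) (hR : 0 < R) (M : ℝ)
    (hM : ∀ z : ℂ, ‖z‖ ≤ 2 * R → v z ≤ M) (w : ℂ) (hw : ‖w‖ < R) :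
    v w ≤ 3 * M / R * |w.im| := by
  have him : |w.im| ≤ R := (Complex.abs_im_le_norm w).trans hw.le
  have hre : |w.re| ≤ R := (Complex.abs_re_le_norm w).trans hw.le
  have hMb : ∀ z : ℂ, ‖z - ((w.re : ℝ) : ℂ)‖ ≤ R → v z ≤ M := by
    intro z hz
    refine hM z ?_
    have h1 : ‖z‖ ≤ ‖z - ((w.re : ℝ) : ℂ)‖ + ‖((w.re : ℝ) : ℂ)‖ := by
      have := norm_add_le (z - ((w.re : ℝ) : ℂ)) ((w.re : ℝ) : ℂ)
      rwa [sub_add_cancel] at this
    rw [Complex.norm_real, Real.norm_eq_abs] at h1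
    linarith
  have key := hv.bar w.re R |w.im| M hR (abs_nonneg _) him hMb
  have hvw : v ((w.re : ℂ) + ((|w.im| : ℝ) : ℂ) * Complex.I) = v w := by
    rcases abs_choice w.im with h | h
    · rw [h, Complex.re_add_im]
    · rw [h, ← hv.sym w]
      congr 1
      apply Complex.ext <;> simp
  rw [hvw] at key
  refine key.trans (le_of_eq ?_)
  ring

theorem B3_exM {v : ℂ → ℝ} (hv : Pot v) (R : ℝ) : ∃ M : ℝ, ∀ z : ℂ, ‖z‖ ≤ 2 * R → v z ≤ M := by
  have hc : IsCompact (Metric.closedBall (0 : ℂ) (2 * R)) := isCompact_closedBall _ _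
  obtain ⟨M, hM⟩ := hc.bddAbove_image hv.cont.continuousOn
  refine ⟨M, fun z hz => hM ⟨z, ?_, rfl⟩⟩
  rwa [Metric.mem_closedBall, dist_zero_right]

theorem TT_bdd {v : ℂ → ℝ} (hv : Pot v) (R : ℝ) :
    BddAbove {x : ℝ | ∃ w : ℂ, ‖w‖ < R ∧ w.im ≠ 0 ∧ x = v w / |w.im|} := by
  obtain ⟨M, hM⟩ := B3_exM hv R
  refine ⟨3 * M / R, ?_⟩
  rintro x ⟨w, hw, him, rfl⟩
  have hR : 0 < R := (norm_nonneg w).trans_lt hw
  rw [div_le_iff₀ (abs_pos.mpr him)]
  exact B3_bound hv R hR M hM w hw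

theorem TT_le {v : ℂ → ℝ} (hv : Pot v) {R : ℝ} {w : ℂ} (hw : ‖w‖ < R) :
    v w ≤ TT v R * |w.im| := by
  by_cases him : w.im = 0
  · have h1 : w = ((w.re : ℝ) : ℂ) := by
      apply Complex.ext <;> simp [him]
    have h2 : v w = 0 := by
      rw [h1]
      exact hv.real _
    rw [h2, him]
    simp
  · have h1 : v w / |w.im| ≤ TT v R := le_csSup (TT_bdd hv R) ⟨w, hw, him, rfl⟩
    rwa [div_le_iff₀ (abs_pos.mpr him)] at h1

theorem TT_nn {v : ℂ → ℝ} (hv : Pot v) (R : ℝ) : 0 ≤ TT v R := by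
  refine Real.sSup_nonneg ?_
  rintro x ⟨w, _, _, rfl⟩
  exact div_nonneg (hv.nn w) (abs_nonneg _)

theorem TT_mono {v : ℂ → ℝ} (hv : Pot v) {R S : ℝ} (hR : 0 < R) (h : R ≤ S) :
    TT v R ≤ TT v S := by
  refine csSup_le_csSup (TT_bdd hv S) ?_ ?_
  · refine ⟨_, (((R / 2 : ℝ) : ℂ) * Complex.I), ?_, ?_, rfl⟩
    · rw [norm_mul, Complex.norm_I, mul_one, Complex.norm_real, Real.norm_eq_abs,
        abs_of_pos (by linarith)]
      linarith
    · simp only [Complex.mul_im, Complex.ofReal_re, Complex.I_im, Complex.ofReal_im, Complex.I_re]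
      intro h0
      have : R / 2 = 0 := by linarith
      linarith
  · rintro x ⟨w, hw, him, rfl⟩
    exact ⟨w, hw.trans_le h, him, rfl⟩

theorem TT_le_of {v : ℂ → ℝ} {R τ : ℝ} (hR : 0 < R) (hτ : 0 ≤ τ)
    (h : ∀ w : ℂ, ‖w‖ < R → v w ≤ τ * |w.im|) : TT v R ≤ τ := by
  refine Real.sSup_le ?_ hτ
  rintro x ⟨w, hw, him, rfl⟩
  rw [div_le_iff₀ (abs_pos.mpr him)]
  exact h w hw

theorem TT_bd {v : ℂ → ℝ} (hv : Pot v) {R M : ℝ} (hR : 0 < R)
    (h : ∀ w : ℂ, ‖w‖ ≤ 2 * R → v w ≤ M) : TT v R ≤ 3 * M / R := by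
  have hM : 0 ≤ M := (hv.nn 0).trans (h 0 (by simp; linarith))
  exact TT_le_of hR (by positivity) fun w hw => B3_bound hv R hR M h w hw

open scoped Pointwise in
theorem TT_scale {v : ℂ → ℝ} (hv : Pot v) {a r : ℝ} (ha : 0 < a) (hr : 0 < r) (R : ℝ) :
    TT (fun w => a * v ((r : ℂ) * w)) R = a * r * TT v (r * R) := by
  have hr0 : (r : ℂ) ≠ 0 := by exact_mod_cast hr.ne'
  have him : ∀ w : ℂ, ((r : ℂ) * w).im = r * w.im := by
    intro w
    simp
  have e : {x : ℝ | ∃ w : ℂ, ‖w‖ < R ∧ w.im ≠ 0 ∧ x = (a * v ((r : ℂ) * w)) / |w.im|} =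
      (a * r) • {x : ℝ | ∃ w : ℂ, ‖w‖ < r * R ∧ w.im ≠ 0 ∧ x = v w / |w.im|} := by
    ext x
    rw [Set.mem_smul_set]
    constructor
    · rintro ⟨w, hw, hi, rfl⟩
      refine ⟨v ((r : ℂ) * w) / |((r : ℂ) * w).im|, ⟨(r : ℂ) * w, ?_, ?_, rfl⟩, ?_⟩
      · rw [norm_mul, Complex.norm_real, Real.norm_eq_abs, abs_of_pos hr]
        exact mul_lt_mul_of_pos_left hw hr
      · rw [him]
        exact mul_ne_zero hr.ne' hi
      · rw [him, abs_mul, abs_of_pos hr, smul_eq_mul]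
        have : |w.im| ≠ 0 := abs_ne_zero.mpr hi
        field_simp
    · rintro ⟨y, ⟨w, hw, hi, rfl⟩, rfl⟩
      refine ⟨(r : ℂ)⁻¹ * w, ?_, ?_, ?_⟩
      · rw [norm_mul, norm_inv, Complex.norm_real, Real.norm_eq_abs, abs_of_pos hr,
          inv_mul_lt_iff₀ hr]
        exact hw
      · have h1 : w.im = r * ((r : ℂ)⁻¹ * w).im := by
          rw [← him, mul_inv_cancel_left₀ hr0]
        intro h2
        rw [h2, mul_zero] at h1
        exact hi h1
      · have h1 : w.im = r * ((r : ℂ)⁻¹ * w).im := by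
          rw [← him, mul_inv_cancel_left₀ hr0]
        have h3 : ((r : ℂ)⁻¹ * w).im ≠ 0 := by
          intro h2
          rw [h2, mul_zero] at h1
          exact hi h1
        rw [mul_inv_cancel_left₀ hr0, smul_eq_mul, h1, abs_mul, abs_of_pos hr]
        have : |((r : ℂ)⁻¹ * w).im| ≠ 0 := abs_ne_zero.mpr h3
        field_simp
  unfold TT
  rw [e, Real.sSup_smul_of_nonneg (by positivity), smul_eq_mul]

theorem TT_pos {v : ℂ → ℝ} (hv : Pot v) {w : ℂ} (hw : 0 < v w) {R : ℝ} (hR : ‖w‖ < R) :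
    0 < TT v R := by
  have h1 := TT_le hv hR
  have h2 : 0 < TT v R * |w.im| := hw.trans_le h1
  exact (pos_iff_pos_of_mul_pos h2).mpr (lt_of_le_of_ne (abs_nonneg _) fun h0 => by
    rw [← h0, mul_zero] at h2
    exact lt_irrefl _ h2)

end HE
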