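import Pool.Agent.Lib.MP_904526_P.A4
import Pool.Agent.Lib.MP_904526_P.A5
import Pool.Agent.Lib.MP_904526_P.A6
import Pool.Agent.Lib.MP_904526_P.B2
import Pool.Agent.Lib.MP_904526_P.B3

/-!
# C2. Compactness: a sequence of curves with T almost constant on larger and larger windows has a limit on
which the Green function is exactly linear
-/

set_option autoImplicit false

open Set Filter Topology MeasureTheory

namespace HE

/-- on the window the potential is bounded by exp η * T(1) * |Im w| -/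
theorem c2_window {v : ℂ → ℝ} (hv : Pot v) {L η : ℝ} (hL : 0 ≤ L)
    (h3 : TT v (Real.exp L) ≤ Real.exp η * TT v (Real.exp (-L))) {w : ℂ}
    (hw : ‖w‖ < Real.exp L) : v w ≤ Real.exp η * TT v 1 * |w.im| := by
  have h4 : TT v (Real.exp (-L)) ≤ TT v 1 :=
    TT_mono hv (Real.exp_pos _) (Real.exp_le_one_iff.2 (by linarith))
  have h5 : TT v (Real.exp L) ≤ Real.exp η * TT v 1 :=
    h3.trans (mul_le_mul_of_nonneg_left h4 (Real.exp_pos _).le)
  exact (TT_le hv hw).trans (mul_le_mul_of_nonneg_right h5 (abs_nonneg _))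

theorem c2_conv (c b : ℕ → ℝ) (A : ℕ → ℂ → P) (L η : ℕ → ℝ) (c0 b0 t : ℝ) (A0 : ℂ → P)
    (h : ∀ j, Par (c j) (b j))
    (hA : ∀ j, Cv (c j) (b j) (A j)) (hL : Tendsto L atTop atTop) (hη : Tendsto η atTop (𝓝 0))
    (h3 : ∀ j, TT (fun w => G (c j) (b j) (A j w)) (Real.exp (L j)) ≤
        Real.exp (η j) * TT (fun w => G (c j) (b j) (A j w)) (Real.exp (-(L j))))
    (hc : Tendsto c atTop (𝓝 c0)) (hb : Tendsto b atTop (𝓝 b0))
    (ht : Tendsto (fun j => TT (fun w => G (c j) (b j) (A j w)) 1) atTop (𝓝 t))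
    (hl : TendstoLocallyUniformly A A0 atTop) : Lin c0 b0 t A0 := by
  have hp0 : Par c0 b0 := Par.lim h hc hb
  obtain ⟨hC, hlv⟩ := lim_curve h hc hb hA hl
  set v : ℕ → ℂ → ℝ := fun j w => G (c j) (b j) (A j w) with hvdef
  set v0 : ℂ → ℝ := fun w => G c0 b0 (A0 w) with hv0def
  have hv : ∀ j, Pot (v j) := fun j => (hA j).pot (h j)
  have hv0 : Pot v0 := hC.pot hp0
  have hpt : ∀ w, Tendsto (fun j => v j w) atTop (𝓝 (v0 w)) := fun w =>
    (tendstoLocallyUniformlyOn_univ.2 hlv).tendsto_at (mem_univ w)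
  have hexp : Tendsto (fun j => Real.exp (η j)) atTop (𝓝 1) := by
    have := (Real.continuous_exp.tendsto 0).comp hη
    simpa [Function.comp_def] using this
  have hτ : Tendsto (fun j => Real.exp (η j) * TT (v j) 1) atTop (𝓝 t) := by
    have := hexp.mul ht
    simpa using this
  have hLexp : Tendsto (fun j => Real.exp (L j)) atTop atTop := Real.tendsto_exp_atTop.comp hL
  have hwin : ∀ R : ℝ, ∀ᶠ j in atTop, ∀ w : ℂ, ‖w‖ ≤ R →
      v j w ≤ Real.exp (η j) * TT (v j) 1 * |w.im| := by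
    intro R
    filter_upwards [hL.eventually_ge_atTop 0, hLexp.eventually_gt_atTop R] with j hj1 hj2 w hw
    exact c2_window (hv j) hj1 (h3 j) (lt_of_le_of_lt hw hj2)
  have hup : ∀ w, v0 w ≤ t * |w.im| := by
    intro w
    refine le_of_tendsto_of_tendsto (hpt w) (hτ.mul_const |w.im|) ?_
    filter_upwards [hwin ‖w‖] with j hj
    exact hj w le_rfl
  -- the lower bound in the upper half plane
  have hlow : ∀ w : ℂ, 0 < w.im → t * w.im ≤ v0 w := by
    intro w1 hw1
    by_contra hcon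
    push Not at hcon
    set δ : ℝ := (t * w1.im - v0 w1) / 4 with hδ
    have hδ0 : 0 < δ := by
      rw [hδ]
      linarith
    have hcont : Continuous (fun w : ℂ => t * w.im - v0 w) :=
      (continuous_const.mul Complex.continuous_im).sub hv0.cont
    have hnear : ∀ᶠ w in 𝓝 w1, 3 * δ < t * w.im - v0 w := by
      refine hcont.continuousAt.eventually (lt_mem_nhds ?_)
      rw [hδ]
      linarith
    obtain ⟨ρ', hρ', hball⟩ := Metric.eventually_nhds_iff.1 hnear
    set ρ : ℝ := min (ρ' / 2) (w1.im / 2) with hρ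
    have hρ0 : 0 < ρ := lt_min (by positivity) (by positivity)
    have hρ1 : ρ < w1.im := lt_of_le_of_lt (min_le_right _ _) (by linarith)
    have hρ2 : ρ < ρ' := lt_of_le_of_lt (min_le_left _ _) (by linarith)
    have hball' : ∀ w : ℂ, ‖w - w1‖ ≤ ρ → v0 w ≤ t * w.im - 3 * δ := by
      intro w hw
      have := hball (y := w) (by rw [dist_eq_norm]; linarith)
      linarith
    obtain ⟨d, R0, R1, hd, hR0, hR01, H⟩ := hopf w1 ρ δ hρ0 hρ1 hδ0
    set Q : ℝ := ‖w1‖ + ρ + 1 with hQ
    have hQ0 : 0 < Q := by positivity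
    have hunif : ∀ᶠ j in atTop, ∀ w : ℂ, ‖w - w1‖ ≤ ρ → |v j w - v0 w| < δ := by
      have hk : IsCompact (Metric.closedBall w1 ρ) := isCompact_closedBall _ _
      have h5 : TendstoUniformlyOn v v0 atTop (Metric.closedBall w1 ρ) :=
        (tendstoLocallyUniformlyOn_iff_tendstoUniformlyOn_of_compact hk).1
          (tendstoLocallyUniformlyOn_univ.2 hlv |>.mono (subset_univ _))
      have h6 := Metric.tendstoUniformlyOn_iff.1 h5 δ hδ0
      filter_upwards [h6] with j hj w hw
      have := hj w (by rw [Metric.mem_closedBall, dist_eq_norm]; exact hw)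
      rwa [dist_comm, Real.dist_eq] at this
    have hτ' : ∀ᶠ j in atTop, |Real.exp (η j) * TT (v j) 1 - t| < δ / Q := by
      have := Metric.tendsto_nhds.1 hτ (δ / Q) (by positivity)
      filter_upwards [this] with j hj
      rwa [Real.dist_eq] at hj
    have hmain : ∀ᶠ j in atTop, TT (v j) 1 ≤
        Real.exp (η j) * (Real.exp (η j) * TT (v j) 1 - d) := by
      filter_upwards [hunif, hτ', hwin R1, hL.eventually_ge_atTop 0,
        hLexp.eventually_gt_atTop (1 / R0)] with j hj1 hj2 hj3 hj4 hj5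
      set τ : ℝ := Real.exp (η j) * TT (v j) 1 with hτdef
      have hH := H (v j) (hv j) τ (by
        intro w hw hw0
        have := hj3 w hw
        rwa [abs_of_nonneg hw0] at this) (by
        intro w hw
        have h7 := hball' w hw
        have h8 := (abs_lt.1 (hj1 w hw)).2
        have h9 : |w.im| ≤ Q := by
          refine (Complex.abs_im_le_norm w).trans ?_
          have : ‖w‖ ≤ ‖w - w1‖ + ‖w1‖ := by
            have := norm_add_le (w - w1) w1
            simpa using this
          linarith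
        have h10 : |(t - τ) * w.im| ≤ δ := by
          rw [abs_mul, abs_sub_comm]
          calc |τ - t| * |w.im| ≤ δ / Q * Q :=
                mul_le_mul hj2.le h9 (abs_nonneg _) (by positivity)
            _ = δ := by field_simp
        have h11 := (abs_le.1 h10).2
        have h12 : (t - τ) * w.im = t * w.im - τ * w.im := by ring
        rw [h12] at h11
        linarith)
      have hall : ∀ w : ℂ, ‖w‖ < R0 → v j w ≤ (τ - d) * |w.im| := by
        intro w hw
        rcases le_total 0 w.im with h0 | h0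
        · rw [abs_of_nonneg h0]
          exact hH w hw.le h0
        · have h7 := hH ((starRingEnd ℂ) w) (by rw [Complex.norm_conj]; exact hw.le) (by
            rw [Complex.conj_im]
            linarith)
          rw [(hv j).sym w, Complex.conj_im] at h7
          rw [abs_of_nonpos h0]
          exact h7
      have hτd : 0 ≤ τ - d := by
        have h7 := hH (((R0 / 2 : ℝ) : ℂ) * Complex.I) (by
          rw [norm_mul, Complex.norm_I, mul_one, Complex.norm_real, Real.norm_eq_abs,
            abs_of_pos (by positivity)]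
          linarith) (by simp; positivity)
        have h8 := (hv j).nn (((R0 / 2 : ℝ) : ℂ) * Complex.I)
        have h9 : ((((R0 / 2 : ℝ) : ℂ)) * Complex.I).im = R0 / 2 := by simp
        rw [h9] at h7
        by_contra hneg
        push Not at hneg
        have : (τ - d) * (R0 / 2) < 0 := mul_neg_of_neg_of_pos hneg (by positivity)
        linarith
      have hTR0 : TT (v j) R0 ≤ τ - d := TT_le_of hR0 hτd hall
      have h13 : TT (v j) (Real.exp (-(L j))) ≤ TT (v j) R0 := by
        refine TT_mono (hv j) (Real.exp_pos _) ?_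
        rw [Real.exp_neg, ← one_div, div_le_iff₀ (Real.exp_pos _)]
        rw [div_lt_iff₀ hR0] at hj5
        linarith
      have h14 : TT (v j) 1 ≤ TT (v j) (Real.exp (L j)) :=
        TT_mono (hv j) one_pos (Real.one_le_exp hj4)
      refine h14.trans ((h3 j).trans ?_)
      exact mul_le_mul_of_nonneg_left (h13.trans hTR0) (Real.exp_pos _).le
    have hlim : Tendsto (fun j => Real.exp (η j) * (Real.exp (η j) * TT (v j) 1 - d)) atTop
        (𝓝 (1 * (t - d))) := hexp.mul (hτ.sub_const d)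
    have := le_of_tendsto_of_tendsto ht hlim hmain
    linarith
  refine ⟨hC, ?_⟩
  intro w
  rcases lt_trichotomy w.im 0 with h0 | h0 | h0
  · refine le_antisymm (hup w) ?_
    have h7 := hlow ((starRingEnd ℂ) w) (by rw [Complex.conj_im]; linarith)
    rw [hv0.sym w, Complex.conj_im] at h7
    rw [abs_of_neg h0]
    exact h7
  · refine le_antisymm (hup w) ?_
    rw [h0, abs_zero, mul_zero]
    exact hv0.nn w
  · refine le_antisymm (hup w) ?_
    rw [abs_of_pos h0]
    exact hlow w h0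

theorem lim_lin (c b : ℕ → ℝ) (A : ℕ → ℂ → P) (L η : ℕ → ℝ) (h : ∀ j, Par (c j) (b j))
    (hA : ∀ j, Cv (c j) (b j) (A j)) (hL : Tendsto L atTop atTop) (hη : Tendsto η atTop (𝓝 0))
    (h1 : ∀ j, 1 ≤ TT (fun w => G (c j) (b j) (A j w)) 1)
    (h2 : ∀ j, TT (fun w => G (c j) (b j) (A j w)) 1 < 2)
    (h3 : ∀ j, TT (fun w => G (c j) (b j) (A j w)) (Real.exp (L j)) ≤
        Real.exp (η j) * TT (fun w => G (c j) (b j) (A j w)) (Real.exp (-(L j)))) :
    ∃ (c0 b0 t : ℝ) (A0 : ℂ → P), Par c0 b0 ∧ 0 < t ∧ Lin c0 b0 t A0 := by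
  -- parameters
  have hK : IsCompact ((Icc (-14 : ℝ) 1) ×ˢ ((Icc (-(2 / 5) : ℝ) (2 / 5)) ×ˢ (Icc (1 : ℝ) 2))) :=
    isCompact_Icc.prod (isCompact_Icc.prod isCompact_Icc)
  obtain ⟨⟨c0, b0, t⟩, hmem, φ, hφ, hlim⟩ := hK.tendsto_subseq
    (x := fun j => (c j, b j, TT (fun w => G (c j) (b j) (A j w)) 1)) (by
      intro j
      exact ⟨⟨(h j).c0, (h j).c1⟩, ⟨(abs_le.1 (h j).b1).1, (abs_le.1 (h j).b1).2⟩,
        ⟨h1 j, (h2 j).le⟩⟩)
  have hlc : Tendsto (fun j => c (φ j)) atTop (𝓝 c0) := (continuous_fst.tendsto _).comp hlim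
  have hlb : Tendsto (fun j => b (φ j)) atTop (𝓝 b0) :=
    ((continuous_fst.comp continuous_snd).tendsto _).comp hlim
  have hlt : Tendsto (fun j => TT (fun w => G (c (φ j)) (b (φ j)) (A (φ j) w)) 1) atTop (𝓝 t) :=
    ((continuous_snd.comp continuous_snd).tendsto _).comp hlim
  have hφt : Tendsto φ atTop atTop := hφ.tendsto_atTop
  -- local bounds
  have hbd : ∀ R : ℝ, ∃ B : ℝ, ∀ᶠ j in atTop, ∀ w : ℂ, ‖w‖ ≤ R → ‖A (φ j) w‖ ≤ B := by
    intro R
    refine ⟨Real.exp (6 * R + 5), ?_⟩
    have hη1 : ∀ᶠ j in atTop, η j < 1 := hη.eventually (gt_mem_nhds one_pos)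
    filter_upwards [hφt.eventually hη1, hφt.eventually (hL.eventually_ge_atTop 0),
      hφt.eventually ((Real.tendsto_exp_atTop.comp hL).eventually_gt_atTop R)] with j hj1 hj2 hj3
    intro w hw
    have hv := (hA (φ j)).pot (h (φ j))
    have h4 := c2_window hv hj2 (h3 (φ j)) (lt_of_le_of_lt hw hj3)
    have h5 := norm_le_of_G (h (φ j)) ((hA (φ j)).kp w)
    refine h5.trans (Real.exp_le_exp.2 ?_)
    have h6 : Real.exp (η (φ j)) ≤ 3 := by
      have h7 : Real.exp (η (φ j)) ≤ Real.exp 1 := Real.exp_le_exp.2 hj1.le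
      have h8 := Real.exp_one_lt_d9
      linarith
    have h9 : |w.im| ≤ R := (Complex.abs_im_le_norm w).trans hw
    have h10 := h2 (φ j)
    have h11 := h1 (φ j)
    have h12 : Real.exp (η (φ j)) * TT (fun w => G (c (φ j)) (b (φ j)) (A (φ j) w)) 1 ≤ 3 * 2 :=
      mul_le_mul h6 h10.le (by linarith) (by norm_num)
    have h13 : Real.exp (η (φ j)) * TT (fun w => G (c (φ j)) (b (φ j)) (A (φ j) w)) 1 * |w.im| ≤
        3 * 2 * R := mul_le_mul h12 h9 (abs_nonneg _) (by norm_num)
    linarith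
  obtain ⟨ψ, hψ, A0, hA0, hlA⟩ := montel (A := fun j => A (φ j)) (fun j => (hA (φ j)).diff) hbd
  have hψt : Tendsto ψ atTop atTop := hψ.tendsto_atTop
  refine ⟨c0, b0, t, A0, ?_, ?_, ?_⟩
  · exact Par.lim (fun j => h (φ j)) hlc hlb
  · have : (1 : ℝ) ≤ t := hmem.2.2.1
    linarith
  · exact c2_conv (fun j => c (φ (ψ j))) (fun j => b (φ (ψ j))) (fun j => A (φ (ψ j)))
      (fun j => L (φ (ψ j))) (fun j => η (φ (ψ j))) c0 b0 t A0 (fun j => h _) (fun j => hA _)
      (hL.comp (hφt.comp hψt)) (hη.comp (hφt.comp hψt)) (fun j => h3 _) (hlc.comp hψt)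
      (hlb.comp hψt) (hlt.comp hψt) hlA

end HE
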