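import Pool.Agent.Lib.MP_904526_P.D1

/-!
# D2. Bad sets at time n

up_all: Lin.resc at w0 = w, derivative at s = 0 of s ↦ g^[n] (A (w + s/2^n)) is 2^-n deriv (g^[n] ∘ A) w.
bad_meas: the interval [x, x + 2^-m] is the union of 2^(n-m) intervals [x + i/2^n, x + (i+1)/2^n], each is the image of [0,1]
under s ↦ w0 + s/2^n.
-/

set_option autoImplicit false

open Set Filter Topology MeasureTheory

namespace HE

theorem D2_deriv {c b t : ℝ} {A : ℂ → P} (h : Par c b) (hA : Lin c b t A) (n : ℕ) (w s : ℝ) :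
    deriv (fun s => (g c b)^[n] (A ((w : ℂ) + (((1 / 2 ^ n : ℝ)) : ℂ) * s))) (s : ℂ) =
      ((1 / 2 ^ n : ℝ) : ℂ) • deriv (fun z : ℂ => (g c b)^[n] (A z))
        ((w + 1 / 2 ^ n * s : ℝ) : ℂ) := by
  have h1 : HasDerivAt (fun z : ℂ => (g c b)^[n] (A z))
      (deriv (fun z : ℂ => (g c b)^[n] (A z)) ((w : ℂ) + (((1 / 2 ^ n : ℝ)) : ℂ) * s))
      ((w : ℂ) + (((1 / 2 ^ n : ℝ)) : ℂ) * s) :=
    ((hA.toCv.giter h.ne n).diff _).hasDerivAt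
  have h2 : HasDerivAt (fun s : ℂ => (w : ℂ) + (((1 / 2 ^ n : ℝ)) : ℂ) * s)
      (((1 / 2 ^ n : ℝ)) : ℂ) (s : ℂ) := by
    simpa using ((hasDerivAt_id (s : ℂ)).const_mul (((1 / 2 ^ n : ℝ)) : ℂ)).const_add (w : ℂ)
  have h3 := (h1.scomp (s : ℂ) h2).deriv
  have h4 : ((w + 1 / 2 ^ n * s : ℝ) : ℂ) = (w : ℂ) + (((1 / 2 ^ n : ℝ)) : ℂ) * s := by
    push_cast
    ring
  rw [h4]
  exact h3

theorem D2_norm {c b t : ℝ} {A : ℂ → P} (h : Par c b) (hA : Lin c b t A) (n : ℕ) (w s : ℝ) :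
    ‖deriv (fun z : ℂ => (g c b)^[n] (A z)) ((w + 1 / 2 ^ n * s : ℝ) : ℂ)‖ =
      2 ^ n * ‖deriv (fun s => (g c b)^[n] (A ((w : ℂ) + (((1 / 2 ^ n : ℝ)) : ℂ) * s))) (s : ℂ)‖ := by
  have hp : (0 : ℝ) < 2 ^ n := by positivity
  rw [D2_deriv h hA, norm_smul, Complex.norm_real, Real.norm_eq_abs, abs_of_pos (by positivity),
    ← mul_assoc, mul_one_div_cancel hp.ne', one_mul]

theorem up_all {c b t C : ℝ} (h : Par c b)
    (hC : ∀ A : ℂ → P, Lin c b t A → ‖deriv A 0‖ ≤ C) {A : ℂ → P} (hA : Lin c b t A) (n : ℕ)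
    (w : ℝ) : ‖deriv (fun z : ℂ => (g c b)^[n] (A z)) (w : ℂ)‖ ≤ C * 2 ^ n := by
  have h1 := hC _ (hA.resc h n w)
  have h2 := D2_norm h hA n w 0
  rw [mul_zero, add_zero, Complex.ofReal_zero] at h2
  rw [h2, mul_comm]
  exact mul_le_mul_of_nonneg_right h1 (by positivity)

theorem D2_piece {c b t d η : ℝ} (h : Par c b)
    (hd : ∀ A : ℂ → P, Lin c b t A →
      volume {s : ℝ | s ∈ Icc (0 : ℝ) 1 ∧ ‖deriv A (s : ℂ)‖ < d} ≤ ENNReal.ofReal η)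
    {A : ℂ → P} (hA : Lin c b t A) (x : ℝ) (n : ℕ) :
    volume {w : ℝ | w ∈ Icc x (x + 1 / 2 ^ n) ∧
      ‖deriv (fun z : ℂ => (g c b)^[n] (A z)) (w : ℂ)‖ < d * 2 ^ n} ≤
        ENNReal.ofReal (η * (1 / 2 ^ n)) := by
  have hp : (0 : ℝ) < 2 ^ n := by positivity
  have h1 := hd _ (hA.resc h n x)
  set B : ℂ → P := fun s => (g c b)^[n] (A ((x : ℂ) + (((1 / 2 ^ n : ℝ)) : ℂ) * s)) with hB
  have h2 : {w : ℝ | w ∈ Icc x (x + 1 / 2 ^ n) ∧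
      ‖deriv (fun z : ℂ => (g c b)^[n] (A z)) (w : ℂ)‖ < d * 2 ^ n} ⊆
      (fun w : ℝ => w + (-x)) ⁻¹' ((fun w : ℝ => 2 ^ n * w) ⁻¹'
        {s : ℝ | s ∈ Icc (0 : ℝ) 1 ∧ ‖deriv B (s : ℂ)‖ < d}) := by
    rintro w ⟨⟨hw1, hw2⟩, hw3⟩
    rw [mem_preimage, mem_preimage]
    have h3 : w = x + 1 / 2 ^ n * (2 ^ n * (w + (-x))) := by
      field_simp
      ring
    refine ⟨⟨?_, ?_⟩, ?_⟩
    · exact mul_nonneg hp.le (by linarith)
    · have h4 : w + (-x) ≤ 1 / 2 ^ n := by linarith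
      have h5 := mul_le_mul_of_nonneg_left h4 hp.le
      rwa [mul_one_div_cancel hp.ne'] at h5
    · have h4 := D2_norm h hA n x (2 ^ n * (w + (-x)))
      rw [← h3] at h4
      rw [h4, mul_comm d] at hw3
      exact lt_of_mul_lt_mul_left hw3 hp.le
  refine (measure_mono h2).trans ?_
  rw [measure_preimage_add_right, Real.volume_preimage_mul_left hp.ne', abs_of_pos (by positivity),
    mul_comm η, one_div, ENNReal.ofReal_mul (by positivity)]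
  exact mul_le_mul_right h1 _

theorem bad_meas {c b t d η : ℝ} (h : Par c b)
    (hd : ∀ A : ℂ → P, Lin c b t A →
      volume {s : ℝ | s ∈ Icc (0 : ℝ) 1 ∧ ‖deriv A (s : ℂ)‖ < d} ≤ ENNReal.ofReal η)
    {A : ℂ → P} (hA : Lin c b t A) (x : ℝ) (m n : ℕ) (hmn : m ≤ n) :
    volume {w : ℝ | w ∈ Icc x (x + 1 / 2 ^ m) ∧
      ‖deriv (fun z : ℂ => (g c b)^[n] (A z)) (w : ℂ)‖ < d * 2 ^ n} ≤
        ENNReal.ofReal (η * (1 / 2 ^ m)) := by
  induction hmn using Nat.decreasingInduction generalizing x with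
  | self => exact D2_piece h hd hA x n
  | of_succ k hk ih =>
    have hsplit : {w : ℝ | w ∈ Icc x (x + 1 / 2 ^ k) ∧
      ‖deriv (fun z : ℂ => (g c b)^[n] (A z)) (w : ℂ)‖ < d * 2 ^ n} ⊆
      {w : ℝ | w ∈ Icc x (x + 1 / 2 ^ (k + 1)) ∧
      ‖deriv (fun z : ℂ => (g c b)^[n] (A z)) (w : ℂ)‖ < d * 2 ^ n} ∪
      {w : ℝ | w ∈ Icc (x + 1 / 2 ^ (k + 1)) (x + 1 / 2 ^ (k + 1) + 1 / 2 ^ (k + 1)) ∧
      ‖deriv (fun z : ℂ => (g c b)^[n] (A z)) (w : ℂ)‖ < d * 2 ^ n} := by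
      rintro w ⟨⟨hw1, hw2⟩, hw3⟩
      have h3 : (1 : ℝ) / 2 ^ k = 1 / 2 ^ (k + 1) + 1 / 2 ^ (k + 1) := by
        rw [pow_succ]
        field_simp
        norm_num
      rcases le_total w (x + 1 / 2 ^ (k + 1)) with h4 | h4
      · exact Or.inl ⟨⟨hw1, h4⟩, hw3⟩
      · exact Or.inr ⟨⟨h4, by linarith⟩, hw3⟩
    refine (measure_mono hsplit).trans ((measure_union_le _ _).trans ?_)
    refine (add_le_add (ih x) (ih _)).trans ?_
    rcases le_or_gt 0 η with hη | hη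
    · rw [← ENNReal.ofReal_add (by positivity) (by positivity)]
      refine ENNReal.ofReal_le_ofReal (le_of_eq ?_)
      rw [pow_succ]
      field_simp
      norm_num
    · rw [ENNReal.ofReal_of_nonpos, ENNReal.ofReal_of_nonpos, add_zero]
      · exact mul_nonpos_of_nonpos_of_nonneg hη.le (by positivity)
      · exact mul_nonpos_of_nonpos_of_nonneg hη.le (by positivity)

end HE
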