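import Mathlib

/-!
# D3. Counting bad times (Markov), and a sequence lemma

count: the integral over I of the number of bad n in [m,N] is at most (N+1) η ℓ ≤ 2 N η ℓ; Markov.
seq_low: if k ≥ m + K then among the K+1 numbers k-K..k one is good, so a k ≥ d 2^n' / 13^(k-n'); otherwise
a k ≥ a 0 / 13^k and 2^k ≤ 2^(m+K).
-/

set_option autoImplicit false

open Set Filter Topology MeasureTheory

namespace HE

open Classical in
theorem count (I : Set ℝ) (hI : MeasurableSet I) (Bad : ℕ → Set ℝ)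
    (hB : ∀ n, MeasurableSet (Bad n)) (m N : ℕ) (ℓ η ζ : ℝ) (hℓ : 0 < ℓ) (hη : 0 ≤ η)
    (hζ : 0 < ζ) (hN : 1 ≤ N) (hvI : volume I = ENNReal.ofReal ℓ)
    (hb : ∀ n, m ≤ n → n ≤ N → volume (I ∩ Bad n) ≤ ENNReal.ofReal (η * ℓ)) (h : 4 * η ≤ ζ) :
    ∃ S : Set ℝ, MeasurableSet S ∧ S ⊆ I ∧ ENNReal.ofReal (ℓ / 2) ≤ volume S ∧
      ∀ w ∈ S, (((Finset.Icc m N).filter (fun n => w ∈ Bad n)).card : ℝ) < ζ * N := by
  set f : ℝ → ENNReal := fun w => ∑ n ∈ Finset.Icc m N, (Bad n).indicator (fun _ => (1 : ENNReal)) w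
    with hf
  have hfm : Measurable f := by
    apply Finset.measurable_fun_sum
    intro n _
    exact measurable_const.indicator (hB n)
  have hfc : ∀ w, f w = ENNReal.ofReal (((Finset.Icc m N).filter (fun n => w ∈ Bad n)).card : ℝ) := by
    intro w
    rw [ENNReal.ofReal_natCast, hf]
    simp only [Set.indicator_apply]
    rw [Finset.sum_ite, Finset.sum_const_zero, add_zero, Finset.sum_const, nsmul_eq_mul, mul_one]
  have hN' : (1 : ℝ) ≤ N := by exact_mod_cast hN
  set c : ENNReal := ENNReal.ofReal (ζ * N) with hc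
  have hc0 : 0 < ζ * N := by positivity
  set Tb : Set ℝ := {w | c ≤ f w} with hTb
  have hTbm : MeasurableSet Tb := measurableSet_le measurable_const hfm
  have hmk : c * volume (I ∩ Tb) ≤ ENNReal.ofReal (ζ * N * (ℓ / 2)) := by
    have h1 : c * (volume.restrict I) Tb ≤ ∫⁻ w in I, f w := mul_meas_ge_le_lintegral hfm c
    rw [Measure.restrict_apply hTbm, Set.inter_comm] at h1
    refine h1.trans ?_
    have h2 : ∫⁻ w in I, f w = ∑ n ∈ Finset.Icc m N, volume (I ∩ Bad n) := by
      rw [hf, lintegral_finsetSum _ (fun n _ => measurable_const.indicator (hB n))]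
      apply Finset.sum_congr rfl
      intro n _
      rw [lintegral_indicator (hB n), lintegral_const, one_mul, Measure.restrict_apply MeasurableSet.univ,
        Set.univ_inter, Measure.restrict_apply (hB n), Set.inter_comm]
    rw [h2]
    calc ∑ n ∈ Finset.Icc m N, volume (I ∩ Bad n)
        ≤ ∑ n ∈ Finset.Icc m N, ENNReal.ofReal (η * ℓ) := by
          apply Finset.sum_le_sum
          intro n hn
          rw [Finset.mem_Icc] at hn
          exact hb n hn.1 hn.2
      _ = ENNReal.ofReal (((Finset.Icc m N).card : ℝ) * (η * ℓ)) := by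
          rw [Finset.sum_const, nsmul_eq_mul,
            ENNReal.ofReal_mul (p := ((Finset.Icc m N).card : ℝ)) (by positivity),
            ENNReal.ofReal_natCast]
      _ ≤ ENNReal.ofReal (ζ * N * (ℓ / 2)) := by
          apply ENNReal.ofReal_le_ofReal
          have h3 : (((Finset.Icc m N).card : ℕ) : ℝ) ≤ N + 1 := by
            rw [Nat.card_Icc]
            have : N + 1 - m ≤ N + 1 := Nat.sub_le _ _
            exact_mod_cast this
          have h4 : 0 ≤ η * ℓ := by positivity
          have h5 : (((Finset.Icc m N).card : ℕ) : ℝ) * (η * ℓ) ≤ (2 * N) * (η * ℓ) :=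
            mul_le_mul_of_nonneg_right (by linarith) h4
          have h6 : (2 * N) * (η * ℓ) = (4 * η) * (N * (ℓ / 2)) := by ring
          have h7 : (4 * η) * (N * (ℓ / 2)) ≤ ζ * (N * (ℓ / 2)) :=
            mul_le_mul_of_nonneg_right h (by positivity)
          linarith
  have hTv : volume (I ∩ Tb) ≤ ENNReal.ofReal (ℓ / 2) := by
    rw [ENNReal.ofReal_mul hc0.le] at hmk
    exact (ENNReal.mul_le_mul_iff_right (by rw [hc]; simpa using hc0)
      (by rw [hc]; exact ENNReal.ofReal_ne_top)).1 hmk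
  refine ⟨I \ Tb, hI.diff hTbm, Set.sdiff_subset, ?_, ?_⟩
  · have h1 : volume I ≤ volume (I ∩ Tb) + volume (I \ Tb) := by
      rw [measure_inter_add_sdiff I hTbm]
    rw [hvI] at h1
    have h2 : ENNReal.ofReal ℓ = ENNReal.ofReal (ℓ / 2) + ENNReal.ofReal (ℓ / 2) := by
      rw [← ENNReal.ofReal_add (by positivity) (by positivity)]
      congr 1
      ring
    rw [h2] at h1
    have h3 : ENNReal.ofReal (ℓ / 2) + ENNReal.ofReal (ℓ / 2) ≤
        ENNReal.ofReal (ℓ / 2) + volume (I \ Tb) := h1.trans (by gcongr)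
    exact (ENNReal.add_le_add_iff_left ENNReal.ofReal_ne_top).1 h3
  · intro w hw
    have h1 : ¬ (c ≤ f w) := hw.2
    rw [not_le, hfc w, hc, ENNReal.ofReal_lt_ofReal_iff hc0] at h1
    exact h1

private theorem seq_low_step (a : ℕ → ℝ) (hs : ∀ n, a n ≤ 13 * a (n + 1)) (n j : ℕ) :
    a n ≤ 13 ^ j * a (n + j) := by
  induction j with
  | zero => simp
  | succ j ih =>
    refine ih.trans ?_
    rw [pow_succ, mul_assoc]
    exact mul_le_mul_of_nonneg_left (hs (n + j)) (by positivity)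

private theorem seq_low_aux (a : ℕ → ℝ) (hs : ∀ n, a n ≤ 13 * a (n + 1)) (n k e : ℕ) (x y : ℝ)
    (hnk : n ≤ k) (he : k - n ≤ e) (hx : 0 < x) (hxy : x ≤ y) (hy : y * 2 ^ n ≤ a n) :
    x / 26 ^ e * 2 ^ k ≤ a k := by
  obtain ⟨j, rfl⟩ := Nat.exists_eq_add_of_le hnk
  have hj : j ≤ e := by omega
  have h1 := seq_low_step a hs n j
  have h2 : (0 : ℝ) < 13 ^ j := by positivity
  have h3 : x * 2 ^ n ≤ 13 ^ j * a (n + j) :=
    (mul_le_mul_of_nonneg_right hxy (by positivity)).trans (hy.trans h1)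
  have h4 : x / 26 ^ e * 2 ^ (n + j) ≤ x / 26 ^ j * 2 ^ (n + j) := by
    apply mul_le_mul_of_nonneg_right _ (by positivity)
    apply div_le_div_of_nonneg_left hx.le (by positivity)
    exact pow_le_pow_right₀ (by norm_num) hj
  have h5 : x / 26 ^ j * 2 ^ (n + j) = x * 2 ^ n / 13 ^ j := by
    rw [show (26 : ℝ) = 13 * 2 by norm_num, mul_pow, pow_add]
    field_simp
  rw [h5] at h4
  refine h4.trans ?_
  rw [div_le_iff₀ h2]
  linarith

open Classical in
theorem seq_low (a : ℕ → ℝ) (m N K : ℕ) (d δ : ℝ) (hd : 0 < d) (hδ : 0 < δ) (h0 : δ ≤ a 0)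
    (hs : ∀ n, a n ≤ 13 * a (n + 1))
    (hK : ((Finset.Icc m N).filter (fun n => a n < d * 2 ^ n)).card ≤ K) :
    ∀ k ≤ N, min d δ / 26 ^ (K + m + 1) * 2 ^ k ≤ a k := by
  intro k hk
  by_cases hkm : m + K ≤ k
  · have hex : ∃ n ∈ Finset.Icc (k - K) k, ¬ (a n < d * 2 ^ n) := by
      by_contra hcon
      push Not at hcon
      have hsub : Finset.Icc (k - K) k ⊆ (Finset.Icc m N).filter (fun n => a n < d * 2 ^ n) := by
        intro n hn
        rw [Finset.mem_filter, Finset.mem_Icc]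
        have hn' := Finset.mem_Icc.1 hn
        exact ⟨⟨by omega, by omega⟩, hcon n hn⟩
      have h1 := (Finset.card_le_card hsub).trans hK
      rw [Nat.card_Icc] at h1
      omega
    obtain ⟨n, hn, hgood⟩ := hex
    rw [Finset.mem_Icc] at hn
    exact seq_low_aux a hs n k (K + m + 1) (min d δ) d hn.2 (by omega) (lt_min hd hδ)
      (min_le_left _ _) (not_lt.1 hgood)
  · exact seq_low_aux a hs 0 k (K + m + 1) (min d δ) δ (by omega) (by omega) (lt_min hd hδ)
      (min_le_right _ _) (by simpa using h0)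

end HE
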