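import Pool.Agent.Lib.MP_904526_an.A2

/-!
# D4. Triangular cocycles and the nonlinear comparison (real plane)

tri: e_k = v k/‖v k‖, n_k = (-e_2, e_1)/(e_1^2+e_2^2): wg e n = 1, ‖n‖ ≤ 1. For a unit vector ξ at time j write
D..D ξ = α_k e_k + τ_k n_k, τ_k = wg e_k ξ_k, |τ_k| = (‖v j‖/‖v k‖) J^(k-j) |τ_j| ≤ 2 (C/q) (J/2)^(k-j), |α_j| ≤ 2,
α_(k+1)/‖v(k+1)‖ = α_k/‖v k‖ + τ_k α'_k/‖v (k+1)‖, |α'_k| ≤ 2 M. Hence |α_k| ≤ 2 (C/q) θ^i + 2 M i (C/q)^2 θ^i.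
nl: variation of constants: d k = Fp D 0 k (d 0) + sum of Fp D (j+1) (k-1-j) e_j, ‖e_j‖ ≤ 5 ‖d j‖^2; induction.
-/

set_option autoImplicit false

open Set Filter Topology MeasureTheory

namespace HE

open MD (E)

private def D4ip (a b : E) : ℝ := a.1 * b.1 + a.2 * b.2

private noncomputable def D4w (v : E) : E := (D4ip v v)⁻¹ • ((-v.2, v.1) : E)

private theorem D4_c1 (a : E) : |a.1| ≤ ‖a‖ := norm_fst_le a

private theorem D4_c2 (a : E) : |a.2| ≤ ‖a‖ := norm_snd_le a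

private theorem D4ip_le (a b : E) : |D4ip a b| ≤ 2 * ‖a‖ * ‖b‖ := by
  unfold D4ip
  have h1 := D4_c1 a
  have h2 := D4_c2 a
  have h3 := D4_c1 b
  have h4 := D4_c2 b
  have e1 : |a.1 * b.1| ≤ ‖a‖ * ‖b‖ := by
    rw [abs_mul]; exact mul_le_mul h1 h3 (abs_nonneg _) (norm_nonneg _)
  have e2 : |a.2 * b.2| ≤ ‖a‖ * ‖b‖ := by
    rw [abs_mul]; exact mul_le_mul h2 h4 (abs_nonneg _) (norm_nonneg _)
  have := abs_add_le (a.1 * b.1) (a.2 * b.2)
  linarith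

private theorem D4ip_self (v : E) : ‖v‖ ^ 2 ≤ D4ip v v := by
  unfold D4ip
  rw [Prod.norm_def]
  rcases max_choice ‖v.1‖ ‖v.2‖ with h | h <;> rw [h, Real.norm_eq_abs, sq_abs] <;> nlinarith [sq_nonneg v.1, sq_nonneg v.2]

private theorem D4_dec (v u : E) (hv : 0 < ‖v‖) :
    u = (D4ip u v / D4ip v v) • v + (MD.wg v u) • D4w v := by
  have h1 := D4ip_self v
  have h2 : 0 < ‖v‖ ^ 2 := by positivity
  have h3 : D4ip v v ≠ 0 := by linarith
  unfold D4w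
  ext
  · simp only [Prod.fst_add, Prod.smul_fst, smul_eq_mul]
    field_simp
    simp only [D4ip, MD.wg]
    ring
  · simp only [Prod.snd_add, Prod.smul_snd, smul_eq_mul]
    field_simp
    simp only [D4ip, MD.wg]
    ring

private theorem D4w_norm (v : E) (hv : 0 < ‖v‖) : ‖D4w v‖ ≤ 1 / ‖v‖ := by
  have h1 := D4ip_self v
  have h2 : 0 < ‖v‖ ^ 2 := by positivity
  have h3 : 0 < D4ip v v := by linarith
  unfold D4w
  rw [norm_smul, norm_inv, Real.norm_eq_abs, abs_of_pos h3]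
  have h4 : ‖((-v.2, v.1) : E)‖ = ‖v‖ := by
    rw [Prod.norm_def, Prod.norm_def, norm_neg, max_comm]
  rw [h4, inv_mul_le_iff₀ h3]
  have : D4ip v v * (1 / ‖v‖) ≥ ‖v‖ ^ 2 * (1 / ‖v‖) := by
    apply mul_le_mul_of_nonneg_right h1 (by positivity)
  have h5 : ‖v‖ ^ 2 * (1 / ‖v‖) = ‖v‖ := by field_simp
  linarith

private theorem D4_step (A : E →L[ℝ] E) (v u : E) (M : ℝ) (hA : ‖A‖ ≤ M) (hM : 0 ≤ M)
    (hv : 0 < ‖v‖) (hv' : 0 < ‖A v‖) :
    |D4ip (A u) (A v) / D4ip (A v) (A v)| ≤ |D4ip u v / D4ip v v| +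
      |MD.wg v u| * (2 * M / (‖v‖ * ‖A v‖)) := by
  have h1 := D4ip_self (A v)
  have h2 : 0 < ‖A v‖ ^ 2 := by positivity
  have h3 : 0 < D4ip (A v) (A v) := by linarith
  set α := D4ip u v / D4ip v v with hα
  set τ := MD.wg v u with hτ
  have hd := D4_dec v u hv
  rw [← hα, ← hτ] at hd
  have e1 : D4ip (A u) (A v) = α * D4ip (A v) (A v) + τ * D4ip (A (D4w v)) (A v) := by
    rw [hd, map_add, map_smul, map_smul]
    simp only [D4ip, Prod.fst_add, Prod.smul_fst, smul_eq_mul, Prod.snd_add, Prod.smul_snd]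
    ring
  have e2 : D4ip (A u) (A v) / D4ip (A v) (A v) = α + τ * (D4ip (A (D4w v)) (A v) / D4ip (A v) (A v)) := by
    rw [e1]; field_simp
  rw [e2]
  refine (abs_add_le _ _).trans ?_
  rw [abs_mul]
  have e3 : |D4ip (A (D4w v)) (A v) / D4ip (A v) (A v)| ≤ 2 * M / (‖v‖ * ‖A v‖) := by
    rw [abs_div, abs_of_pos h3, div_le_div_iff₀ h3 (by positivity)]
    have f1 := D4ip_le (A (D4w v)) (A v)
    have f2 : ‖A (D4w v)‖ ≤ M * (1 / ‖v‖) :=
      (A.le_opNorm _).trans (mul_le_mul hA (D4w_norm v hv) (norm_nonneg _) hM)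
    have f3 : |D4ip (A (D4w v)) (A v)| ≤ 2 * (M * (1 / ‖v‖)) * ‖A v‖ := by
      refine f1.trans ?_
      gcongr
    calc |D4ip (A (D4w v)) (A v)| * (‖v‖ * ‖A v‖) ≤ 2 * (M * (1 / ‖v‖)) * ‖A v‖ * (‖v‖ * ‖A v‖) := by
          gcongr
      _ = 2 * M * ‖A v‖ ^ 2 := by field_simp
      _ ≤ 2 * M * D4ip (A v) (A v) := by gcongr
  exact add_le_add le_rfl (mul_le_mul_of_nonneg_left e3 (abs_nonneg _))

theorem tri (D : ℕ → E →L[ℝ] E) (v : ℕ → E) (N : ℕ) (J M C q θ : ℝ) (hJ : 0 < J) (hM : 0 ≤ M)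
    (hq : 0 < q) (hqC : q ≤ C) (hdt : ∀ k, |MD.dt (D k)| = J) (hDM : ∀ k, ‖D k‖ ≤ M)
    (hv : ∀ k, v (k + 1) = D k (v k)) (hlow : ∀ k ≤ N, q * 2 ^ k ≤ ‖v k‖)
    (hup : ∀ k ≤ N, ‖v k‖ ≤ C * 2 ^ k) (hθ : 2 ≤ θ) (hθJ : J / 2 ≤ θ) :
    ∀ j i : ℕ, j + i ≤ N → ‖MD.Fp D j i‖ ≤ (4 + 2 * M * N) * (C / q) ^ 2 * θ ^ i := by
  intro j i hji
  have hC : 0 < C := by linarith
  have hC1 : 1 ≤ C / q := by rw [le_div_iff₀ hq]; linarith
  have hpos : ∀ k ≤ N, 0 < ‖v k‖ := by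
    intro k hk
    have := hlow k hk
    have : 0 < q * 2 ^ k := by positivity
    linarith
  have hθ0 : 0 < θ := by linarith
  refine ContinuousLinearMap.opNorm_le_bound _ (by positivity) ?_
  intro ξ
  -- the area part
  have hτ : ∀ k : ℕ, |MD.wg (v (j + k)) (MD.Fp D j k ξ)| = J ^ k * |MD.wg (v j) ξ| := by
    intro k
    induction k with
    | zero => simp [MD.Fp]
    | succ k ih =>
      have e1 : v (j + (k + 1)) = D (j + k) (v (j + k)) := hv (j + k)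
      have e2 : MD.Fp D j (k + 1) ξ = D (j + k) (MD.Fp D j k ξ) := rfl
      rw [e1, e2, MD.wg_map, abs_mul, hdt, ih]
      ring
  have hτ0 : |MD.wg (v j) ξ| ≤ 2 * (C * 2 ^ j) * ‖ξ‖ := by
    refine (MD.wg_le _ _).trans ?_
    have := hup j (by omega)
    gcongr
  -- the parallel part
  have hα : ∀ k : ℕ, j + k ≤ N → |D4ip (MD.Fp D j k ξ) (v (j + k)) / D4ip (v (j + k)) (v (j + k))| ≤
      (2 / (q * 2 ^ j) + 2 * M * k * (C / (q ^ 2 * 2 ^ j)) * (θ / 2) ^ k) * ‖ξ‖ := by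
    intro k
    induction k with
    | zero =>
      intro hk
      have hp := hpos j (by omega)
      have h1 := D4ip_self (v j)
      have h2 : 0 < ‖v j‖ ^ 2 := by positivity
      have h3 : 0 < D4ip (v j) (v j) := by linarith
      simp only [add_zero, MD.Fp, ContinuousLinearMap.id_apply, CharP.cast_eq_zero, mul_zero, zero_mul]
      rw [abs_div, abs_of_pos h3, div_le_iff₀ h3]
      have e1 := D4ip_le ξ (v j)
      have e2 := hlow j (by omega)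
      have e3 : 2 * ‖ξ‖ * ‖v j‖ * (q * 2 ^ j) ≤ 2 * ‖ξ‖ * D4ip (v j) (v j) := by
        calc 2 * ‖ξ‖ * ‖v j‖ * (q * 2 ^ j) ≤ 2 * ‖ξ‖ * ‖v j‖ * ‖v j‖ := by gcongr
          _ = 2 * ‖ξ‖ * ‖v j‖ ^ 2 := by ring
          _ ≤ _ := by gcongr
      have e4 : 2 / (q * 2 ^ j) * ‖ξ‖ * D4ip (v j) (v j) = 2 * ‖ξ‖ * D4ip (v j) (v j) / (q * 2 ^ j) := by
        ring
      rw [e4, le_div_iff₀ (by positivity)]
      refine le_trans (mul_le_mul_of_nonneg_right e1 (by positivity)) e3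
    | succ k ih =>
      intro hk
      have ih' := ih (by omega)
      have e1 : v (j + (k + 1)) = D (j + k) (v (j + k)) := hv (j + k)
      have e2 : MD.Fp D j (k + 1) ξ = D (j + k) (MD.Fp D j k ξ) := rfl
      have hp := hpos (j + k) (by omega)
      have hp' : 0 < ‖D (j + k) (v (j + k))‖ := by
        rw [← e1]; exact hpos _ hk
      have hs := D4_step (D (j + k)) (v (j + k)) (MD.Fp D j k ξ) M (hDM _) hM hp hp'
      rw [e1, e2]
      refine hs.trans ?_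
      rw [hτ k]
      have g1 := hlow (j + k) (by omega)
      have g2 := hlow (j + (k + 1)) hk
      rw [e1] at g2
      have g3 : J ^ k * |MD.wg (v j) ξ| * (2 * M / (‖v (j + k)‖ * ‖D (j + k) (v (j + k))‖)) ≤
          J ^ k * (2 * (C * 2 ^ j) * ‖ξ‖) * (2 * M / ((q * 2 ^ (j + k)) * (q * 2 ^ (j + (k + 1))))) := by
        gcongr
      have g4 : J ^ k * (2 * (C * 2 ^ j) * ‖ξ‖) * (2 * M / ((q * 2 ^ (j + k)) * (q * 2 ^ (j + (k + 1))))) =
          2 * M * (C / (q ^ 2 * 2 ^ j)) * (J / 4) ^ k * ‖ξ‖ := by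
        have : (4 : ℝ) = 2 * 2 := by norm_num
        rw [this, div_pow, mul_pow, pow_add, pow_add, pow_add]
        field_simp
      have g5 : (J / 4) ^ k ≤ (θ / 2) ^ (k + 1) := by
        calc (J / 4) ^ k ≤ (θ / 2) ^ k := by
              apply pow_le_pow_left₀ (by positivity)
              linarith
          _ ≤ (θ / 2) ^ (k + 1) := pow_le_pow_right₀ (by linarith) (by omega)
      have g6 : (θ / 2) ^ k ≤ (θ / 2) ^ (k + 1) := pow_le_pow_right₀ (by linarith) (by omega)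
      have g7 : 2 * M * (C / (q ^ 2 * 2 ^ j)) * (J / 4) ^ k * ‖ξ‖ ≤
          2 * M * (C / (q ^ 2 * 2 ^ j)) * (θ / 2) ^ (k + 1) * ‖ξ‖ := by
        gcongr
      have g8 : (2 / (q * 2 ^ j) + 2 * M * k * (C / (q ^ 2 * 2 ^ j)) * (θ / 2) ^ k) * ‖ξ‖ ≤
          (2 / (q * 2 ^ j) + 2 * M * k * (C / (q ^ 2 * 2 ^ j)) * (θ / 2) ^ (k + 1)) * ‖ξ‖ := by
        gcongr
      have g9 : (2 / (q * 2 ^ j) + 2 * M * ((k + 1 : ℕ) : ℝ) * (C / (q ^ 2 * 2 ^ j)) * (θ / 2) ^ (k + 1)) * ‖ξ‖ =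
          (2 / (q * 2 ^ j) + 2 * M * k * (C / (q ^ 2 * 2 ^ j)) * (θ / 2) ^ (k + 1)) * ‖ξ‖ +
          2 * M * (C / (q ^ 2 * 2 ^ j)) * (θ / 2) ^ (k + 1) * ‖ξ‖ := by
        push_cast; ring
      rw [g9]
      linarith
  have hpi := hpos (j + i) hji
  have hd := D4_dec (v (j + i)) (MD.Fp D j i ξ) hpi
  have n1 : ‖MD.Fp D j i ξ‖ ≤
      |D4ip (MD.Fp D j i ξ) (v (j + i)) / D4ip (v (j + i)) (v (j + i))| * ‖v (j + i)‖ +
      |MD.wg (v (j + i)) (MD.Fp D j i ξ)| * ‖D4w (v (j + i))‖ := by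
    conv_lhs => rw [hd]
    refine (norm_add_le _ _).trans ?_
    rw [norm_smul, norm_smul, Real.norm_eq_abs, Real.norm_eq_abs]
  have n2 := hα i hji
  have n3 := hup (j + i) hji
  have n4 := hlow (j + i) hji
  have n5 : ‖D4w (v (j + i))‖ ≤ 1 / (q * 2 ^ (j + i)) := by
    refine (D4w_norm _ hpi).trans ?_
    apply one_div_le_one_div_of_le (by positivity) n4
  rw [hτ i] at n1
  have n6 : |D4ip (MD.Fp D j i ξ) (v (j + i)) / D4ip (v (j + i)) (v (j + i))| * ‖v (j + i)‖ ≤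
      (2 / (q * 2 ^ j) + 2 * M * i * (C / (q ^ 2 * 2 ^ j)) * (θ / 2) ^ i) * ‖ξ‖ * (C * 2 ^ (j + i)) := by
    apply mul_le_mul n2 n3 (norm_nonneg _) (by positivity)
  have n7 : J ^ i * |MD.wg (v j) ξ| * ‖D4w (v (j + i))‖ ≤
      J ^ i * (2 * (C * 2 ^ j) * ‖ξ‖) * (1 / (q * 2 ^ (j + i))) := by
    gcongr
  have n8 : (2 / (q * 2 ^ j) + 2 * M * i * (C / (q ^ 2 * 2 ^ j)) * (θ / 2) ^ i) * ‖ξ‖ * (C * 2 ^ (j + i)) =
      (2 * (C / q) * 2 ^ i + 2 * M * i * (C / q) ^ 2 * θ ^ i) * ‖ξ‖ := by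
    rw [pow_add, div_pow, div_pow]
    field_simp
  have n9 : J ^ i * (2 * (C * 2 ^ j) * ‖ξ‖) * (1 / (q * 2 ^ (j + i))) =
      2 * (C / q) * (J / 2) ^ i * ‖ξ‖ := by
    rw [pow_add, div_pow]
    field_simp
  have n10 : (2 : ℝ) ^ i ≤ θ ^ i := pow_le_pow_left₀ (by norm_num) hθ i
  have n11 : (J / 2) ^ i ≤ θ ^ i := pow_le_pow_left₀ (by positivity) hθJ i
  have n12 : C / q ≤ (C / q) ^ 2 := by nlinarith
  have n13 : (i : ℝ) ≤ N := by
    exact_mod_cast (by omega : i ≤ N)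
  have hCq : 0 < C / q := by positivity
  calc ‖MD.Fp D j i ξ‖ ≤ (2 * (C / q) * 2 ^ i + 2 * M * i * (C / q) ^ 2 * θ ^ i) * ‖ξ‖ +
        2 * (C / q) * (J / 2) ^ i * ‖ξ‖ := by rw [← n8, ← n9]; linarith
    _ ≤ (2 * (C / q) ^ 2 * θ ^ i + 2 * M * N * (C / q) ^ 2 * θ ^ i) * ‖ξ‖ +
        2 * (C / q) ^ 2 * θ ^ i * ‖ξ‖ := by gcongr
    _ = (4 + 2 * M * N) * (C / q) ^ 2 * θ ^ i * ‖ξ‖ := by ring

/-- variation of constants -/
private theorem D4_var (D : ℕ → E →L[ℝ] E) (d : ℕ → E) (k : ℕ) :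
    d k = MD.Fp D 0 k (d 0) +
      ∑ j ∈ Finset.range k, MD.Fp D (j + 1) (k - 1 - j) (d (j + 1) - D j (d j)) := by
  induction k with
  | zero => simp [MD.Fp]
  | succ k ih =>
    have e1 : MD.Fp D 0 (k + 1) (d 0) = D k (MD.Fp D 0 k (d 0)) := by
      change D (0 + k) (MD.Fp D 0 k (d 0)) = _
      rw [zero_add]
    have e2 : ∀ j ∈ Finset.range k, MD.Fp D (j + 1) (k + 1 - 1 - j) (d (j + 1) - D j (d j)) =
        D k (MD.Fp D (j + 1) (k - 1 - j) (d (j + 1) - D j (d j))) := by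
      intro j hj
      have hj' := Finset.mem_range.mp hj
      have : k + 1 - 1 - j = (k - 1 - j) + 1 := by omega
      rw [this]
      change D (j + 1 + (k - 1 - j)) _ = _
      have : j + 1 + (k - 1 - j) = k := by omega
      rw [this]
      rfl
    rw [Finset.sum_range_succ, Finset.sum_congr rfl e2, e1, ← map_sum]
    have e3 : k + 1 - 1 - k = 0 := by omega
    rw [e3]
    simp only [MD.Fp, ContinuousLinearMap.id_apply]
    rw [← add_assoc, ← map_add, ← ih]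
    abel

theorem nl (D : ℕ → E →L[ℝ] E) (d : ℕ → E) (N : ℕ) (S θ β : ℝ) (hS : 1 ≤ S) (hθ : 2 ≤ θ)
    (hβ0 : 0 ≤ β) (hF : ∀ j i : ℕ, j + i ≤ N → ‖MD.Fp D j i‖ ≤ S * θ ^ i)
    (hrec : ∀ k, k < N → ‖d (k + 1) - D k (d k)‖ ≤ 5 * ‖d k‖ ^ 2) (h0 : ‖d 0‖ ≤ β)
    (hβ : 20 * S ^ 2 * β * θ ^ N ≤ 1) : ∀ k ≤ N, ‖d k‖ ≤ 2 * S * θ ^ k * β := by
  have hθ0 : 0 < θ := by linarith
  intro k
  induction k using Nat.strong_induction_on with
  | _ k ih =>
    intro hk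
    rw [D4_var D d k]
    refine (norm_add_le _ _).trans ?_
    have t1 : ‖MD.Fp D 0 k (d 0)‖ ≤ S * θ ^ k * β := by
      refine ((MD.Fp D 0 k).le_opNorm _).trans ?_
      exact mul_le_mul (hF 0 k (by omega)) h0 (norm_nonneg _) (by positivity)
    have t2 : ∀ j ∈ Finset.range k, ‖MD.Fp D (j + 1) (k - 1 - j) (d (j + 1) - D j (d j))‖ ≤
        20 * S ^ 3 * β ^ 2 * θ ^ (k - 1) * θ ^ j := by
      intro j hj
      have hj' := Finset.mem_range.mp hj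
      have a1 := ih j hj' (by omega)
      have a2 := hrec j (by omega)
      have a3 : ‖d j‖ ^ 2 ≤ (2 * S * θ ^ j * β) ^ 2 := pow_le_pow_left₀ (norm_nonneg _) a1 2
      refine ((MD.Fp D (j + 1) (k - 1 - j)).le_opNorm _).trans ?_
      have a4 := hF (j + 1) (k - 1 - j) (by omega)
      calc ‖MD.Fp D (j + 1) (k - 1 - j)‖ * ‖d (j + 1) - D j (d j)‖ ≤
            (S * θ ^ (k - 1 - j)) * (5 * (2 * S * θ ^ j * β) ^ 2) :=
            mul_le_mul a4 (by linarith) (norm_nonneg _) (by positivity)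
        _ = 20 * S ^ 3 * β ^ 2 * (θ ^ (k - 1 - j) * θ ^ j) * θ ^ j := by ring
        _ = _ := by
            rw [← pow_add]
            have : k - 1 - j + j = k - 1 := by omega
            rw [this]
    have t3 : ‖∑ j ∈ Finset.range k, MD.Fp D (j + 1) (k - 1 - j) (d (j + 1) - D j (d j))‖ ≤
        ∑ j ∈ Finset.range k, 20 * S ^ 3 * β ^ 2 * θ ^ (k - 1) * θ ^ j :=
      norm_sum_le_of_le _ t2
    rw [← Finset.mul_sum] at t3
    have t4 : ∑ j ∈ Finset.range k, θ ^ j ≤ θ ^ k := by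
      have : ∀ n : ℕ, ∑ j ∈ Finset.range n, θ ^ j ≤ θ ^ n := by
        intro n
        induction n with
        | zero => simp
        | succ n ihn =>
          rw [Finset.sum_range_succ, pow_succ]
          have : 0 < θ ^ n := by positivity
          nlinarith
      exact this k
    rcases Nat.eq_zero_or_pos k with hk0 | hk0
    · subst hk0
      simp only [Finset.range_zero, Finset.sum_empty, norm_zero, add_zero]
      have : 0 ≤ S * θ ^ 0 * β := by positivity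
      linarith
    · have t5 : 20 * S ^ 3 * β ^ 2 * θ ^ (k - 1) * ∑ j ∈ Finset.range k, θ ^ j ≤ S * θ ^ k * β := by
        have t6 : θ ^ (k - 1) ≤ θ ^ N := pow_le_pow_right₀ (by linarith) (by omega)
        calc 20 * S ^ 3 * β ^ 2 * θ ^ (k - 1) * ∑ j ∈ Finset.range k, θ ^ j ≤
              20 * S ^ 3 * β ^ 2 * θ ^ N * θ ^ k := by gcongr
          _ = (20 * S ^ 2 * β * θ ^ N) * (S * θ ^ k * β) := by ring
          _ ≤ 1 * (S * θ ^ k * β) := by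
              apply mul_le_mul_of_nonneg_right hβ (by positivity)
          _ = _ := one_mul _
      linarith

end HE
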