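import Pool.Agent.Lib.MP_904526_P.D0

/-!
# D5. The area inequality

The strip S = {x : ∃ w ∈ T, x.1 = (a w).1, |x.2 - (a w).2| ≤ β} (or the same with the coordinates exchanged) has
area ≥ 2 β δ |T| (take T compact by inner regularity first if convenient; Fubini; the first coordinate is
anti-Lipschitz on T), gR^[N] multiplies areas by (1/|b|)^N, is injective, and maps S into the square of side 14.
-/

set_option autoImplicit false

open Set Filter Topology MeasureTheory

namespace HE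

open MD (E)

private theorem d5_inj (p : ℝ → ℝ) (T : Set ℝ) (δ : ℝ) (hδ : 0 < δ)
    (h : ∀ w ∈ T, ∀ w' ∈ T, δ * |w - w'| ≤ |p w - p w'|) : InjOn p T := by
  intro w hw w' hw' e
  have h1 := h w hw w' hw'
  rw [e, sub_self, abs_zero] at h1
  have h2 : |w - w'| ≤ 0 := by nlinarith [abs_nonneg (w - w')]
  exact sub_eq_zero.1 (abs_nonpos_iff.1 h2)

private theorem d5_line (p : ℝ → ℝ) (T : Set ℝ) (δ : ℝ) (hδ : 0 < δ)
    (h : ∀ w ∈ T, ∀ w' ∈ T, δ * |w - w'| ≤ |p w - p w'|) :
    ENNReal.ofReal δ * volume T ≤ volume (p '' T) := by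
  have hinj := d5_inj p T δ hδ h
  set g := Function.invFunOn p T with hgdef
  have hg : ∀ w ∈ T, g (p w) = w := fun w hw => hinj.leftInvOn_invFunOn hw
  have hlip : LipschitzOnWith (Real.toNNReal δ⁻¹) g (p '' T) := by
    apply LipschitzOnWith.of_dist_le_mul
    rintro _ ⟨w, hw, rfl⟩ _ ⟨w', hw', rfl⟩
    rw [hg w hw, hg w' hw', Real.dist_eq, Real.dist_eq, Real.coe_toNNReal _ (by positivity)]
    have h1 := h w hw w' hw'
    rw [inv_mul_eq_div, le_div_iff₀ hδ]
    linarith
  have himg : g '' (p '' T) = T := by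
    ext w
    constructor
    · rintro ⟨_, ⟨w', hw', rfl⟩, rfl⟩
      rw [hg w' hw']
      exact hw'
    · intro hw
      exact ⟨p w, ⟨w, hw, rfl⟩, hg w hw⟩
  have h1 := hlip.hausdorffMeasure_image_le (d := 1) zero_le_one
  rw [himg, hausdorffMeasure_real, ENNReal.rpow_one] at h1
  have h2 : ENNReal.ofReal δ * ENNReal.ofReal δ⁻¹ = 1 := by
    rw [← ENNReal.ofReal_mul hδ.le, mul_inv_cancel₀ hδ.ne', ENNReal.ofReal_one]
  calc ENNReal.ofReal δ * volume T
      ≤ ENNReal.ofReal δ * (ENNReal.ofReal δ⁻¹ * volume (p '' T)) := by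
        gcongr
        exact h1
    _ = volume (p '' T) := by rw [← mul_assoc, h2, one_mul]

private theorem d5_strip (p q : ℝ → ℝ) (hp : Continuous p) (hq : Continuous q) (T : Set ℝ)
    (hT : MeasurableSet T) (δ β : ℝ) (hδ : 0 < δ) (hβ : 0 < β)
    (h : ∀ w ∈ T, ∀ w' ∈ T, δ * |w - w'| ≤ |p w - p w'|) :
    MeasurableSet ((fun z : ℝ × ℝ => (p z.1, q z.1 + z.2)) '' (T ×ˢ Icc (-β) β)) ∧
    ENNReal.ofReal (2 * β) * (ENNReal.ofReal δ * volume T) ≤
      volume ((fun z : ℝ × ℝ => (p z.1, q z.1 + z.2)) '' (T ×ˢ Icc (-β) β)) := by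
  have hinj := d5_inj p T δ hδ h
  have hmS : MeasurableSet ((fun z : ℝ × ℝ => (p z.1, q z.1 + z.2)) '' (T ×ˢ Icc (-β) β)) := by
    apply MeasurableSet.image_of_continuousOn_injOn (hT.prod measurableSet_Icc)
    · apply Continuous.continuousOn
      fun_prop
    · rintro ⟨w, s⟩ hz ⟨w', s'⟩ hz' e
      simp only [Prod.mk.injEq] at e
      have h1 : w = w' := hinj hz.1 hz'.1 e.1
      subst h1
      have h2 : s = s' := by
        have := e.2
        linarith
      rw [h2]
  refine ⟨hmS, ?_⟩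
  have hmp : MeasurableSet (p '' T) :=
    MeasurableSet.image_of_continuousOn_injOn hT hp.continuousOn hinj
  rw [Measure.volume_eq_prod, Measure.prod_apply hmS]
  calc ENNReal.ofReal (2 * β) * (ENNReal.ofReal δ * volume T)
      ≤ ENNReal.ofReal (2 * β) * volume (p '' T) := by
        gcongr
        exact d5_line p T δ hδ h
    _ = ∫⁻ _ in p '' T, ENNReal.ofReal (2 * β) := by rw [setLIntegral_const]
    _ ≤ ∫⁻ u in p '' T, volume (Prod.mk u ⁻¹'
          ((fun z : ℝ × ℝ => (p z.1, q z.1 + z.2)) '' (T ×ˢ Icc (-β) β))) := by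
        apply setLIntegral_mono' hmp
        rintro _ ⟨w, hw, rfl⟩
        have hsub : Icc (q w - β) (q w + β) ⊆ Prod.mk (p w) ⁻¹'
            ((fun z : ℝ × ℝ => (p z.1, q z.1 + z.2)) '' (T ×ˢ Icc (-β) β)) := by
          intro v hv
          refine ⟨(w, v - q w), ⟨hw, ?_, ?_⟩, ?_⟩
          · have := hv.1
            simp only
            linarith
          · have := hv.2
            simp only
            linarith
          · simp only [Prod.mk.injEq, true_and]
            ring
        refine le_trans (le_of_eq ?_) (measure_mono hsub)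
        rw [Real.volume_Icc]
        congr 1
        ring
    _ ≤ _ := setLIntegral_le_lintegral _ _

/-- the inverse of gR -/
private noncomputable def d5inv (c b : ℝ) (p : E) : E := (p.1 ^ 2 + c - b * p.2, p.1)

private theorem d5_left (c b : ℝ) (hb : b ≠ 0) (p : E) : gR c b (d5inv c b p) = p := by
  unfold gR d5inv
  apply Prod.ext
  · rfl
  · simp only
    field_simp
    ring

private theorem d5_iter (c b : ℝ) (hb : b ≠ 0) (N : ℕ) : ∀ p : E,
    (gR c b)^[N] ((d5inv c b)^[N] p) = p := by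
  induction N with
  | zero => intro p; rfl
  | succ N ih =>
    intro p
    rw [Function.iterate_succ_apply', Function.iterate_succ_apply]
    have : (gR c b)^[N] ((d5inv c b)^[N] (d5inv c b p)) = d5inv c b p := ih _
    rw [this]
    exact d5_left c b hb p

private theorem d5_cont (c b : ℝ) : Continuous (d5inv c b) := by
  unfold d5inv
  fun_prop

private theorem d5_vol (c b : ℝ) (hb : b ≠ 0) (S : Set E) (hS : MeasurableSet S) :
    volume (d5inv c b ⁻¹' S) = ENNReal.ofReal (1 / |b|) * volume S := by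
  have hm : MeasurableSet (d5inv c b ⁻¹' S) := (d5_cont c b).measurable hS
  have e1 : volume (d5inv c b ⁻¹' S) = ∫⁻ u : ℝ, volume (Prod.mk u ⁻¹' (d5inv c b ⁻¹' S)) := by
    rw [Measure.volume_eq_prod, Measure.prod_apply hm]
  have e2 : volume S = ∫⁻ u : ℝ, volume ((fun x : ℝ => (x, u)) ⁻¹' S) := by
    rw [Measure.volume_eq_prod, Measure.prod_apply_symm hS]
  have e3 : ∀ u : ℝ, volume (Prod.mk u ⁻¹' (d5inv c b ⁻¹' S)) =
      ENNReal.ofReal (1 / |b|) * volume ((fun x : ℝ => (x, u)) ⁻¹' S) := by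
    intro u
    have e4 : Prod.mk u ⁻¹' (d5inv c b ⁻¹' S) =
        (fun z : ℝ => b * z) ⁻¹' ((fun y : ℝ => (u ^ 2 + c) - y) ⁻¹'
          ((fun x : ℝ => (x, u)) ⁻¹' S)) := rfl
    rw [e4, Real.volume_preimage_mul_left hb]
    congr 1
    · rw [abs_inv, one_div]
    · have hmx : MeasurableSet ((fun x : ℝ => (x, u)) ⁻¹' S) :=
        (measurable_id.prodMk measurable_const) hS
      exact (MeasureTheory.Measure.measurePreserving_sub_left volume (u ^ 2 + c)).measure_preimage hmx.nullMeasurableSet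
  rw [e1, e2]
  simp only [e3]
  rw [lintegral_const_mul]
  exact measurable_measure_prodMk_right hS

private theorem d5_volN (c b : ℝ) (hb : b ≠ 0) (N : ℕ) : ∀ S : Set E, MeasurableSet S →
    volume ((d5inv c b)^[N] ⁻¹' S) = ENNReal.ofReal (1 / |b|) ^ N * volume S := by
  induction N with
  | zero => intro S _; simp
  | succ N ih =>
    intro S hS
    rw [Function.iterate_succ', Set.preimage_comp, ih _ ((d5_cont c b).measurable hS),
      d5_vol c b hb S hS, pow_succ, mul_assoc]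

private theorem d5_fin (c b : ℝ) (hb : b ≠ 0) (S : Set E) (hS : MeasurableSet S) (δ ε β : ℝ)
    (hδ : 0 < δ) (hε : 0 < ε) (hβ : 0 < β) (N : ℕ)
    (hN : ∀ x ∈ S, ‖(gR c b)^[N] x‖ ≤ 7)
    (hv : ENNReal.ofReal (2 * β * δ * ε) ≤ volume S) :
    (1 / |b|) ^ N * (2 * β * δ * ε) ≤ 196 := by
  have h1 : (d5inv c b)^[N] ⁻¹' S ⊆ Metric.closedBall (0 : E) 7 := by
    intro p hp
    have h2 := hN _ hp
    rw [d5_iter c b hb N p] at h2
    rw [mem_closedBall_zero_iff]
    exact h2
  have h2 := measure_mono (μ := volume) h1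
  rw [d5_volN c b hb N S hS] at h2
  have h3 : volume (Metric.closedBall (0 : E) 7) = ENNReal.ofReal 196 := by
    have : Metric.closedBall (0 : E) 7 =
        Metric.closedBall (0 : ℝ) 7 ×ˢ Metric.closedBall (0 : ℝ) 7 := by
      rw [closedBall_prod_same]
      rfl
    rw [this, Measure.volume_eq_prod, Measure.prod_prod, Real.volume_closedBall,
      ← ENNReal.ofReal_mul (by norm_num)]
    norm_num
  rw [h3] at h2
  have hb0 : 0 < |b| := abs_pos.2 hb
  have h4 : ENNReal.ofReal ((1 / |b|) ^ N * (2 * β * δ * ε)) ≤ ENNReal.ofReal 196 := by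
    rw [ENNReal.ofReal_mul (by positivity), ENNReal.ofReal_pow (by positivity)]
    exact le_trans (by gcongr) h2
  exact (ENNReal.ofReal_le_ofReal_iff (by norm_num)).1 h4

theorem area_ineq (c b : ℝ) (hb : b ≠ 0) (a : ℝ → E) (ha : Continuous a) (T : Set ℝ)
    (hT : MeasurableSet T) (hTb : Bornology.IsBounded T) (δ ε β : ℝ) (hδ : 0 < δ) (hε : 0 < ε)
    (hβ : 0 < β) (hvol : ENNReal.ofReal ε ≤ volume T)
    (hmon : (∀ w ∈ T, ∀ w' ∈ T, δ * |w - w'| ≤ |(a w).1 - (a w').1|) ∨
      (∀ w ∈ T, ∀ w' ∈ T, δ * |w - w'| ≤ |(a w).2 - (a w').2|)) (N : ℕ)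
    (hN : ∀ w ∈ T, ∀ x : E, ‖x - a w‖ ≤ β → ‖(gR c b)^[N] x‖ ≤ 7) :
    (1 / |b|) ^ N * (2 * β * δ * ε) ≤ 196 := by
  have ha1 : Continuous fun w => (a w).1 := ha.fst
  have ha2 : Continuous fun w => (a w).2 := ha.snd
  have hv0 : ENNReal.ofReal (2 * β * δ * ε) ≤
      ENNReal.ofReal (2 * β) * (ENNReal.ofReal δ * volume T) := by
    have : ENNReal.ofReal (2 * β * δ * ε) =
        ENNReal.ofReal (2 * β) * (ENNReal.ofReal δ * ENNReal.ofReal ε) := by
      rw [← ENNReal.ofReal_mul hδ.le, ← ENNReal.ofReal_mul (by positivity)]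
      congr 1
      ring
    rw [this]
    gcongr
  rcases hmon with h | h
  · obtain ⟨hm, hv⟩ := d5_strip (fun w => (a w).1) (fun w => (a w).2) ha1 ha2 T hT δ β hδ hβ h
    refine d5_fin c b hb _ hm δ ε β hδ hε hβ N ?_ (hv0.trans hv)
    rintro _ ⟨⟨w, s⟩, hz, rfl⟩
    apply hN w hz.1
    have hs : |s| ≤ β := abs_le.2 hz.2
    have e : ((a w).1, (a w).2 + s) - a w = ((0 : ℝ), s) := by
      apply Prod.ext
      · simp
      · simp
    rw [e, Prod.norm_def]
    simp only [norm_zero, Real.norm_eq_abs]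
    exact max_le hβ.le hs
  · obtain ⟨hm, hv⟩ := d5_strip (fun w => (a w).2) (fun w => (a w).1) ha2 ha1 T hT δ β hδ hβ h
    have hm' := measurable_swap hm
    have hv' : volume (Prod.swap ⁻¹' ((fun z : ℝ × ℝ => ((a z.1).2, (a z.1).1 + z.2)) ''
        (T ×ˢ Icc (-β) β))) = volume ((fun z : ℝ × ℝ => ((a z.1).2, (a z.1).1 + z.2)) ''
        (T ×ˢ Icc (-β) β)) :=
      (Measure.measurePreserving_swap (μ := (volume : Measure ℝ)) (ν := (volume : Measure ℝ))).measure_preimage
        hm.nullMeasurableSet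
    refine d5_fin c b hb _ hm' δ ε β hδ hε hβ N ?_ (by rw [hv']; exact hv0.trans hv)
    intro x hx
    obtain ⟨⟨w, s⟩, hz, hx'⟩ := hx
    apply hN w hz.1
    have hs : |s| ≤ β := abs_le.2 hz.2
    have ex : x = ((a w).1 + s, (a w).2) := by
      have := congrArg Prod.swap hx'
      simp only [Prod.swap_swap] at this
      exact this.symm
    have e : x - a w = (s, (0 : ℝ)) := by
      rw [ex]
      apply Prod.ext
      · simp
      · simp
    rw [e, Prod.norm_def]
    simp only [norm_zero, Real.norm_eq_abs]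
    exact max_le hs hβ.le

end HE
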