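import Pool.Agent.Lib.MP_904526_P.D0
import Pool.Agent.Lib.MP_904526_P.D2
import Pool.Agent.Lib.MP_904526_P.D3
import Pool.Agent.Lib.MP_904526_P.D4
import Pool.Agent.Lib.MP_904526_P.D5

/-!
# D6. No curve with linear Green function
-/

set_option autoImplicit false

open Set Filter Topology MeasureTheory

namespace HE

open MD (E)

/-- a continuous function of a real variable which is at least δ in absolute value near a point -/
theorem d6_anti (f f' : ℝ → ℝ) (hf : ∀ w, HasDerivAt f (f' w) w) (hc : Continuous f') (x δ : ℝ)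
    (hδ : 0 < δ) (hx : 2 * δ ≤ |f' x|) :
    ∃ r : ℝ, 0 < r ∧ (∀ w ∈ Icc x (x + r), δ ≤ |f' w|) ∧
      ∀ w ∈ Icc x (x + r), ∀ w' ∈ Icc x (x + r), δ * |w - w'| ≤ |f w - f w'| := by
  have h1 : ∀ᶠ w in 𝓝 x, |f' w - f' x| < δ := by
    have := (hc.continuousAt (x := x)).sub_const (f' x)
    have h2 : Tendsto (fun w => |f' w - f' x|) (𝓝 x) (𝓝 0) := by
      have := ((hc.tendsto x).sub_const (f' x)).abs
      simpa using this
    exact h2.eventually (gt_mem_nhds hδ)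
  obtain ⟨r, hr, hball⟩ := Metric.eventually_nhds_iff.1 h1
  refine ⟨r / 2, by positivity, ?_, ?_⟩
  · intro w hw
    have := hball (y := w) (by
      rw [Real.dist_eq, abs_lt]
      constructor <;> linarith [hw.1, hw.2])
    have h3 : |f' x| ≤ |f' w| + |f' w - f' x| := by
      have := abs_sub_abs_le_abs_sub (f' x) (f' w)
      rw [abs_sub_comm] at this
      linarith
    linarith
  · have hlow : ∀ w ∈ Icc x (x + r / 2), |f' w - f' x| < δ := fun w hw => hball (by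
      rw [Real.dist_eq, abs_lt]
      constructor <;> linarith [hw.1, hw.2])
    have main : ∀ w ∈ Icc x (x + r / 2), ∀ w' ∈ Icc x (x + r / 2), w < w' →
        δ * |w - w'| ≤ |f w - f w'| := by
      intro w hw w' hw' hww
      obtain ⟨ξ, hξ, hξ'⟩ := exists_hasDerivAt_eq_slope f f' hww
        (fun z _ => (hf z).continuousAt.continuousWithinAt) (fun z _ => hf z)
      have h4 : ξ ∈ Icc x (x + r / 2) := ⟨by linarith [hw.1, hξ.1], by linarith [hw'.2, hξ.2]⟩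
      have h5 := hlow ξ h4
      have h3 : |f' x| ≤ |f' ξ| + |f' ξ - f' x| := by
        have := abs_sub_abs_le_abs_sub (f' x) (f' ξ)
        rw [abs_sub_comm] at this
        linarith
      have h6 : δ ≤ |f' ξ| := by linarith
      have h7 : f w - f w' = f' ξ * (w - w') := by
        rw [hξ']
        have : w' - w ≠ 0 := by linarith
        field_simp
        ring
      rw [h7, abs_mul]
      exact mul_le_mul_of_nonneg_right h6 (abs_nonneg _)
    intro w hw w' hw'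
    rcases lt_trichotomy w w' with hlt | heq | hgt
    · exact main w hw w' hw' hlt
    · subst heq
      simp
    · have := main w' hw' w hw hgt
      rwa [abs_sub_comm, abs_sub_comm (f w')] at this

/-- an interval on which one coordinate of the curve is anti-Lipschitz and the velocity is bounded below -/
theorem good_interval {c b t : ℝ} {A : ℂ → P} (h : Par c b) (ht : 0 < t) (hA : Lin c b t A) :
    ∃ (x : ℝ) (m : ℕ) (δ : ℝ), 0 < δ ∧ (∀ w ∈ Icc x (x + 1 / 2 ^ m), δ ≤ ‖Vn c b A 0 w‖) ∧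
      ((∀ w ∈ Icc x (x + 1 / 2 ^ m), ∀ w' ∈ Icc x (x + 1 / 2 ^ m),
        δ * |w - w'| ≤ |(an c b A 0 w).1 - (an c b A 0 w').1|) ∨
      (∀ w ∈ Icc x (x + 1 / 2 ^ m), ∀ w' ∈ Icc x (x + 1 / 2 ^ m),
        δ * |w - w'| ≤ |(an c b A 0 w).2 - (an c b A 0 w').2|)) := by
  have hb := h.ne
  have hc : Cv c b A := hA.toCv
  obtain ⟨x, hx⟩ := Lin.nonconst ht hA
  have hV : Vn c b A 0 x ≠ 0 := by
    intro h0
    have := Vn_norm hb hc 0 x
    rw [h0, norm_zero] at this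
    exact hx (norm_eq_zero.1 this.symm)
  have hdy : ∀ r : ℝ, 0 < r → ∃ m : ℕ, 1 / (2 : ℝ) ^ m ≤ r := by
    intro r hr
    obtain ⟨m, hm⟩ := exists_pow_lt_of_lt_one hr (by norm_num : (1 / 2 : ℝ) < 1)
    refine ⟨m, ?_⟩
    rw [one_div, ← inv_pow, ← one_div]
    exact hm.le
  have hd1 : ∀ w, HasDerivAt (fun w => (an c b A 0 w).1) ((Vn c b A 0 w).1) w := fun w =>
    (an_hasDeriv hb hc 0 w).fst
  have hd2 : ∀ w, HasDerivAt (fun w => (an c b A 0 w).2) ((Vn c b A 0 w).2) w := fun w =>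
    (an_hasDeriv hb hc 0 w).snd
  have hc1 : Continuous (fun w => (Vn c b A 0 w).1) := (Vn_cont hb hc 0).fst
  have hc2 : Continuous (fun w => (Vn c b A 0 w).2) := (Vn_cont hb hc 0).snd
  by_cases h1 : (Vn c b A 0 x).1 = 0
  · have h2 : (Vn c b A 0 x).2 ≠ 0 := fun h2 => hV (Prod.ext h1 h2)
    obtain ⟨r, hr, hl, hm⟩ := d6_anti _ _ hd2 hc2 x (|(Vn c b A 0 x).2| / 2) (by positivity)
      (by linarith)
    obtain ⟨m, hmr⟩ := hdy r hr
    have hsub : Icc x (x + 1 / 2 ^ m) ⊆ Icc x (x + r) := Icc_subset_Icc_right (by linarith)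
    refine ⟨x, m, |(Vn c b A 0 x).2| / 2, by positivity, ?_, Or.inr ?_⟩
    · intro w hw
      exact (hl w (hsub hw)).trans (norm_snd_le (Vn c b A 0 w))
    · intro w hw w' hw'
      exact hm w (hsub hw) w' (hsub hw')
  · obtain ⟨r, hr, hl, hm⟩ := d6_anti _ _ hd1 hc1 x (|(Vn c b A 0 x).1| / 2) (by positivity)
      (by linarith)
    obtain ⟨m, hmr⟩ := hdy r hr
    have hsub : Icc x (x + 1 / 2 ^ m) ⊆ Icc x (x + r) := Icc_subset_Icc_right (by linarith)
    refine ⟨x, m, |(Vn c b A 0 x).1| / 2, by positivity, ?_, Or.inl ?_⟩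
    · intro w hw
      exact (hl w (hsub hw)).trans (norm_fst_le (Vn c b A 0 w))
    · intro w hw w' hw'
      exact hm w (hsub hw) w' (hsub hw')

/-- one time N = 100 (n+1) -/
theorem d6_time {c b t : ℝ} {A : ℂ → P} (h : Par c b) (hA : Lin c b t A) (C0 d : ℝ)
    (hC : ∀ A : ℂ → P, Lin c b t A → ‖deriv A 0‖ ≤ C0) (hd0 : 0 < d)
    (hd : ∀ A : ℂ → P, Lin c b t A →
      volume {s : ℝ | s ∈ Icc (0 : ℝ) 1 ∧ ‖deriv A (s : ℂ)‖ < d} ≤ ENNReal.ofReal (1 / 400))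
    (x : ℝ) (m : ℕ) (δ : ℝ) (hδ : 0 < δ)
    (hlow0 : ∀ w ∈ Icc x (x + 1 / 2 ^ m), δ ≤ ‖Vn c b A 0 w‖)
    (hmon : (∀ w ∈ Icc x (x + 1 / 2 ^ m), ∀ w' ∈ Icc x (x + 1 / 2 ^ m),
        δ * |w - w'| ≤ |(an c b A 0 w).1 - (an c b A 0 w').1|) ∨
      (∀ w ∈ Icc x (x + 1 / 2 ^ m), ∀ w' ∈ Icc x (x + 1 / 2 ^ m),
        δ * |w - w'| ≤ |(an c b A 0 w).2 - (an c b A 0 w').2|)) (n : ℕ) (S q : ℝ)
    (hq : q = min d δ / 26 ^ (n + 1 + m + 1))
    (hS : S = (4 + 2 * 65 * ((100 * (n + 1) : ℕ) : ℝ)) * (C0 / q) ^ 2) :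
    (5 / 4 : ℝ) ^ (100 * (n + 1)) * (δ * (1 / 2 ^ m)) ≤ 3920 * S ^ 2 := by
  classical
  have hb := h.ne
  have hbpos : 0 < |b| := abs_pos.2 hb
  have hcv : Cv c b A := hA.toCv
  set N : ℕ := 100 * (n + 1) with hN
  have hN1 : 1 ≤ N := by omega
  set ℓ : ℝ := 1 / 2 ^ m with hℓ
  have hℓ0 : 0 < ℓ := by positivity
  set Bad : ℕ → Set ℝ := fun k => {w : ℝ | ‖Vn c b A k w‖ < d * 2 ^ k} with hBad
  have hBm : ∀ k, MeasurableSet (Bad k) := fun k =>
    (isOpen_lt (Vn_cont hb hcv k).norm continuous_const).measurableSet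
  obtain ⟨T, hTm, hTI, hTv, hTc⟩ := count (Icc x (x + ℓ)) measurableSet_Icc Bad hBm m N ℓ
    (1 / 400) (1 / 100) hℓ0 (by norm_num) (by norm_num) hN1 (by
      rw [Real.volume_Icc]
      congr 1
      ring) (by
      intro k hmk hkN
      refine le_trans (measure_mono ?_) (bad_meas h hd hA x m k hmk)
      rintro w ⟨hw1, hw2⟩
      refine ⟨hw1, ?_⟩
      rw [← Vn_norm hb hcv k w]
      exact hw2) (by norm_num)
  have hq0 : 0 < q := by
    rw [hq]
    have : 0 < min d δ := lt_min hd0 hδ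
    positivity
  -- two-sided bounds of the velocities
  have hlow : ∀ w ∈ T, ∀ k ≤ N, q * 2 ^ k ≤ ‖Vn c b A k w‖ := by
    intro w hw k hk
    have hcard : ((Finset.Icc m N).filter (fun k => ‖Vn c b A k w‖ < d * 2 ^ k)).card ≤ n + 1 := by
      have h1 := hTc w hw
      have h2 : (((Finset.Icc m N).filter (fun n => w ∈ Bad n)).card : ℝ) < (n + 1 : ℕ) := by
        refine lt_of_lt_of_le h1 (le_of_eq ?_)
        rw [hN]
        push_cast
        ring
      have h3 : ((Finset.Icc m N).filter (fun n => w ∈ Bad n)).card < n + 1 := by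
        exact_mod_cast h2
      have h4 : ((Finset.Icc m N).filter (fun k => ‖Vn c b A k w‖ < d * 2 ^ k)) =
          ((Finset.Icc m N).filter (fun n => w ∈ Bad n)) := by
        apply Finset.filter_congr
        intro k _
        rfl
      rw [h4]
      exact h3.le
    have := seq_low (fun k => ‖Vn c b A k w‖) m N (n + 1) d δ hd0 hδ (hlow0 w (hTI hw))
      (fun k => Vn_low h hcv k w) hcard k hk
    rw [hq]
    exact this
  have hup : ∀ w : ℝ, ∀ k, ‖Vn c b A k w‖ ≤ C0 * 2 ^ k := by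
    intro w k
    rw [Vn_norm hb hcv k w]
    exact up_all h hC hA k w
  have hTne : T.Nonempty := by
    by_contra hne
    rw [not_nonempty_iff_eq_empty] at hne
    rw [hne, measure_empty] at hTv
    have : ENNReal.ofReal (ℓ / 2) = 0 := le_antisymm hTv bot_le
    rw [ENNReal.ofReal_eq_zero] at this
    linarith
  have hqC : q ≤ C0 := by
    obtain ⟨w, hw⟩ := hTne
    have h1 := hlow w hw 0 (Nat.zero_le _)
    have h2 := hup w 0
    simp only [pow_zero, mul_one] at h1 h2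
    exact h1.trans h2
  have hCq : 1 ≤ C0 / q := by rwa [le_div_iff₀ hq0, one_mul]
  have hS1 : 1 ≤ S := by
    rw [hS]
    have h1 : (1 : ℝ) ≤ (C0 / q) ^ 2 := one_le_pow₀ hCq
    have h2 : (0 : ℝ) ≤ ((100 * (n + 1) : ℕ) : ℝ) := Nat.cast_nonneg _
    nlinarith
  set J : ℝ := 1 / |b| with hJ
  have hJ0 : 0 < J := by positivity
  set θ : ℝ := max 2 (J / 2) with hθ
  have hθ2 : 2 ≤ θ := le_max_left _ _
  have hθ0 : 0 < θ := by linarith
  -- J ≥ (5/4) θ
  have hJθ : 5 / 4 * θ ≤ J := by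
    have hb1 := h.b1
    have hJ52 : 5 / 2 ≤ J := by
      rw [hJ, le_div_iff₀ hbpos]
      linarith
    rcases max_choice (2 : ℝ) (J / 2) with e | e
    · rw [hθ, e]
      linarith
    · rw [hθ, e]
      linarith
  set β : ℝ := 1 / (20 * S ^ 2 * θ ^ N) with hβ
  have hβ0 : 0 < β := by positivity
  have hβe : 20 * S ^ 2 * β * θ ^ N = 1 := by
    rw [hβ]
    field_simp
  -- shadowing
  have hsh : ∀ w ∈ T, ∀ y : E, ‖y - an c b A 0 w‖ ≤ β → ‖(gR c b)^[N] y‖ ≤ 7 := by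
    intro w hw y hy
    have htri := tri (fun k => DgR b (an c b A k w)) (fun k => Vn c b A k w) N J 65 C0 q θ hJ0
      (by norm_num) hq0 hqC (by
        intro k
        rw [DgR_dt, abs_div, abs_one]) (fun k => DgR_norm h (an_bd h hcv k w))
      (fun k => Vn_succ hb hcv k w) (hlow w hw) (fun k _ => hup w k) hθ2 (le_max_right _ _)
    have hstep : ∀ k, (gR c b)^[k + 1] y - an c b A (k + 1) w -
        DgR b (an c b A k w) ((gR c b)^[k] y - an c b A k w) =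
        (0, ((gR c b)^[k] y - an c b A k w).2 ^ 2 / b) := by
      intro k
      have e1 : (gR c b)^[k] y = an c b A k w + ((gR c b)^[k] y - an c b A k w) := by abel
      rw [Function.iterate_succ_apply', an_succ hb hcv k w]
      conv_lhs => rw [e1]
      rw [gR_ex]
      simp only [add_sub_cancel_left]
      abel
    have hnl := nl (fun k => DgR b (an c b A k w)) (fun k => (gR c b)^[k] y - an c b A k w) N S θ β
      hS1 hθ2 hβ0.le (by
        intro j i hji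
        have := htri j i hji
        rw [hS]
        exact this) (by
        intro k _
        rw [hstep k, Prod.norm_mk, norm_zero, max_eq_right (norm_nonneg _), Real.norm_eq_abs,
          abs_div, abs_pow]
        set z := (gR c b)^[k] y - an c b A k w with hz
        have h1 : |z.2| ≤ ‖z‖ := norm_snd_le z
        have h2 : |z.2| ^ 2 ≤ ‖z‖ ^ 2 := pow_le_pow_left₀ (abs_nonneg _) h1 2
        have h3 := h.b0
        rw [div_le_iff₀ hbpos]
        have h4 : 0 ≤ ‖z‖ ^ 2 := by positivity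
        nlinarith) hy hβe.le N le_rfl
    have h5 : 2 * S * θ ^ N * β ≤ 1 := by
      have h6 : 2 * S * θ ^ N * β * (10 * S) = 1 := by
        rw [← hβe]
        ring
      nlinarith
    have h7 := an_bd h hcv N w
    have h8 : (gR c b)^[N] y = ((gR c b)^[N] y - an c b A N w) + an c b A N w := by abel
    rw [h8]
    refine (norm_add_le _ _).trans ?_
    linarith
  have hTb : Bornology.IsBounded T := (Metric.isBounded_Icc _ _).subset hTI
  have hac : Continuous (an c b A 0) :=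
    continuous_iff_continuousAt.2 fun w => (an_hasDeriv hb hcv 0 w).continuousAt
  have harea := area_ineq c b hb (an c b A 0) hac T hTm hTb δ (ℓ / 2) β hδ (by positivity) hβ0 hTv
    (by
      rcases hmon with hm | hm
      · exact Or.inl fun w hw w' hw' => hm w (hTI hw) w' (hTI hw')
      · exact Or.inr fun w hw w' hw' => hm w (hTI hw) w' (hTI hw')) N hsh
  -- numbers
  have h9 : (5 / 4 : ℝ) ^ N * θ ^ N ≤ J ^ N := by
    rw [← mul_pow]
    exact pow_le_pow_left₀ (by positivity) hJθ N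
  have h10 : (1 / |b|) ^ N * (2 * β * δ * (ℓ / 2)) = J ^ N * (β * (δ * ℓ)) := by
    rw [hJ]
    ring
  rw [h10] at harea
  have h11 : (5 / 4 : ℝ) ^ N * θ ^ N * (β * (δ * ℓ)) ≤ 196 :=
    (mul_le_mul_of_nonneg_right h9 (by positivity)).trans harea
  have h12 : (5 / 4 : ℝ) ^ N * θ ^ N * (β * (δ * ℓ)) * (20 * S ^ 2) =
      (5 / 4 : ℝ) ^ N * (δ * ℓ) := by
    calc (5 / 4 : ℝ) ^ N * θ ^ N * (β * (δ * ℓ)) * (20 * S ^ 2)
        = (5 / 4 : ℝ) ^ N * (δ * ℓ) * (20 * S ^ 2 * β * θ ^ N) := by ring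
      _ = _ := by rw [hβe, mul_one]
  have h13 : (5 / 4 : ℝ) ^ N * (δ * ℓ) ≤ 196 * (20 * S ^ 2) := by
    rw [← h12]
    exact mul_le_mul_of_nonneg_right h11 (by positivity)
  linarith

theorem no_lin {c b t : ℝ} {A : ℂ → P} (h : Par c b) (ht : 0 < t) (hA : Lin c b t A) : False := by
  obtain ⟨C0, hC0, hC⟩ := Lin.up h ht.le
  obtain ⟨d, hd0, hd⟩ := Lin.sub h ht (1 / 400) (by norm_num)
  obtain ⟨x, m, δ, hδ, hlow0, hmon⟩ := good_interval h ht hA
  set μ : ℝ := min d δ with hμ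
  have hμ0 : 0 < μ := lt_min hd0 hδ
  have key : ∀ n : ℕ, ((5 / 4 : ℝ) ^ 100) ^ (n + 1) * (δ * (1 / 2 ^ m)) ≤
      3920 * ((4 + 13000 * ((n : ℝ) + 1)) * (C0 / μ) ^ 2 * 26 ^ (2 * (m + 1))) ^ 2 *
        (26 ^ 4) ^ (n + 1) := by
    intro n
    have h1 := d6_time h hA C0 d hC hd0 hd x m δ hδ hlow0 hmon n _ _ rfl rfl
    rw [← pow_mul]
    refine h1.trans (le_of_eq ?_)
    rw [← hμ]
    push_cast
    have e1 : C0 / (μ / 26 ^ (n + 1 + m + 1)) = C0 / μ * (26 ^ (m + 1) * 26 ^ (n + 1)) := by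
      rw [show n + 1 + m + 1 = (m + 1) + (n + 1) by ring, pow_add]
      field_simp
    have e2 : ((26 : ℝ) ^ 4) ^ (n + 1) = (26 ^ (n + 1)) ^ 4 := by
      rw [← pow_mul, ← pow_mul, mul_comm]
    have e3 : (26 : ℝ) ^ (2 * (m + 1)) = (26 ^ (m + 1)) ^ 2 := by
      rw [← pow_mul, mul_comm]
    rw [e1, e2, e3]
    generalize (26 : ℝ) ^ (m + 1) = X
    generalize (26 : ℝ) ^ (n + 1) = Y
    ring
  -- asymptotics
  set r : ℝ := 26 ^ 4 / (5 / 4 : ℝ) ^ 100 with hr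
  have hr0 : 0 < r := by positivity
  have hr1 : r < 1 := by
    rw [hr, div_lt_one (by positivity)]
    norm_num
  have hlim : Tendsto (fun n : ℕ => ((n : ℝ) ^ 2 * r ^ n)) atTop (𝓝 0) :=
    tendsto_pow_const_mul_const_pow_of_abs_lt_one 2 (by rw [abs_of_pos hr0]; exact hr1)
  set B : ℝ := 3920 * ((C0 / μ) ^ 2 * 26 ^ (2 * (m + 1))) ^ 2 * 13004 ^ 2 with hB
  have hB0 : 0 < B := by positivity
  have hlim' : Tendsto (fun n : ℕ => B * (((n : ℝ)) ^ 2 * r ^ n)) atTop (𝓝 0) := by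
    simpa using hlim.const_mul B
  have hpos : 0 < δ * (1 / 2 ^ m) := by positivity
  have hev := (hlim'.eventually (gt_mem_nhds hpos))
  obtain ⟨n0, hn0⟩ := eventually_atTop.1 hev
  have h3 := hn0 (n0 + 1) (by omega)
  have h4 := key n0
  have h5 : (4 + 13000 * ((n0 : ℝ) + 1)) ≤ 13004 * ((n0 : ℝ) + 1) := by
    have : (0 : ℝ) ≤ n0 := Nat.cast_nonneg _
    linarith
  have h6 : 3920 * ((4 + 13000 * ((n0 : ℝ) + 1)) * (C0 / μ) ^ 2 * 26 ^ (2 * (m + 1))) ^ 2 ≤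
      B * ((n0 : ℝ) + 1) ^ 2 := by
    have h7 : (4 + 13000 * ((n0 : ℝ) + 1)) ^ 2 ≤ (13004 * ((n0 : ℝ) + 1)) ^ 2 :=
      pow_le_pow_left₀ (by positivity) h5 2
    calc 3920 * ((4 + 13000 * ((n0 : ℝ) + 1)) * (C0 / μ) ^ 2 * 26 ^ (2 * (m + 1))) ^ 2
        = 3920 * ((C0 / μ) ^ 2 * 26 ^ (2 * (m + 1))) ^ 2 * (4 + 13000 * ((n0 : ℝ) + 1)) ^ 2 := by
          ring
      _ ≤ 3920 * ((C0 / μ) ^ 2 * 26 ^ (2 * (m + 1))) ^ 2 * (13004 * ((n0 : ℝ) + 1)) ^ 2 :=
          mul_le_mul_of_nonneg_left h7 (by positivity)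
      _ = B * ((n0 : ℝ) + 1) ^ 2 := by
          rw [hB]
          ring
  have h8 : ((5 / 4 : ℝ) ^ 100) ^ (n0 + 1) * (δ * (1 / 2 ^ m)) ≤
      B * ((n0 : ℝ) + 1) ^ 2 * (26 ^ 4) ^ (n0 + 1) :=
    h4.trans (mul_le_mul_of_nonneg_right h6 (by positivity))
  have h9 : r ^ (n0 + 1) * ((5 / 4 : ℝ) ^ 100) ^ (n0 + 1) = (26 ^ 4) ^ (n0 + 1) := by
    rw [hr, ← mul_pow, div_mul_cancel₀ _ (by positivity)]
  have h10 : B * (((n0 + 1 : ℕ) : ℝ) ^ 2 * r ^ (n0 + 1)) * ((5 / 4 : ℝ) ^ 100) ^ (n0 + 1) <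
      δ * (1 / 2 ^ m) * ((5 / 4 : ℝ) ^ 100) ^ (n0 + 1) :=
    mul_lt_mul_of_pos_right h3 (by positivity)
  have h11 : B * (((n0 + 1 : ℕ) : ℝ) ^ 2 * r ^ (n0 + 1)) * ((5 / 4 : ℝ) ^ 100) ^ (n0 + 1) =
      B * ((n0 : ℝ) + 1) ^ 2 * (26 ^ 4) ^ (n0 + 1) := by
    rw [← h9]
    push_cast
    ring
  rw [h11] at h10
  linarith

end HE
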