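import Pool.Agent.Lib.MP_904526_P.C1
import Pool.Agent.Lib.MP_904526_P.C2
import Pool.Agent.Lib.MP_904526_P.D6

/-!
# Theorem AN
-/

set_option autoImplicit false

open Set Filter Topology MeasureTheory

namespace HE

theorem AN : ∃ δ : ℝ, 0 < δ ∧ ∀ c b : ℝ, Par c b → ∀ ψ : ℂ → P, Differentiable ℂ ψ →
    (∀ s, ψ ((starRingEnd ℂ) s) = cj (ψ s)) → (∀ s, ψ s ∈ Kp c b) →
    (∀ t : ℝ, 0 ≤ t → ψ (t : ℂ) ∈ Km c b) → (∃ s, ψ s ≠ ψ 0) →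
    ∀ C : ℝ, ¬ (∀ s : ℂ, Real.posLog ‖ψ s‖ ≤ C * (1 + ‖s‖) ^ (1 / 2 + δ)) := by
  by_contra H
  push Not at H
  have key : ∀ j : ℕ, ∃ (c b : ℝ) (A : ℂ → P), Par c b ∧ Cv c b A ∧
      1 ≤ TT (fun w => G c b (A w)) 1 ∧ TT (fun w => G c b (A w)) 1 < 2 ∧
      TT (fun w => G c b (A w)) (Real.exp ((j : ℝ) + 1)) ≤
        Real.exp (1 / ((j : ℝ) + 1)) * TT (fun w => G c b (A w)) (Real.exp (-((j : ℝ) + 1))) := by
    intro j
    have hj : (0 : ℝ) < (j : ℝ) + 1 := by positivity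
    obtain ⟨c, b, hp, ψ, hd, hs, hkp, hkm, hnc, C, hg⟩ := H (1 / (16 * ((j : ℝ) + 1) ^ 2))
      (by positivity)
    obtain ⟨A, hA, h1, h2, h3⟩ := rescale hp ψ hd hs hkp hkm hnc (1 / (16 * ((j : ℝ) + 1) ^ 2)) C
      (by positivity) hg ((j : ℝ) + 1) (1 / ((j : ℝ) + 1)) hj (by
        have e : 4 * ((j : ℝ) + 1) * (1 / (16 * ((j : ℝ) + 1) ^ 2)) =
            1 / 4 * (1 / ((j : ℝ) + 1)) := by
          field_simp
          ring
        rw [e]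
        have : (0 : ℝ) < 1 / ((j : ℝ) + 1) := by positivity
        linarith)
    exact ⟨c, b, A, hp, hA, h1, h2, h3⟩
  choose c b A hp hA h1 h2 h3 using key
  obtain ⟨c0, b0, t, A0, hp0, ht, hl⟩ := lim_lin c b A (fun j => (j : ℝ) + 1)
    (fun j => 1 / ((j : ℝ) + 1)) hp hA
    (tendsto_atTop_add_const_right _ _ tendsto_natCast_atTop_atTop)
    tendsto_one_div_add_atTop_nhds_zero_nat h1 h2 h3
  exact no_lin hp0 ht hl

end HE
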