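import Pool.Agent.Lib.MP_904526_P.Defs

/-!
# A1. Filtration (|c| <= 14, 1/5 <= |b| <= 2/5, radius 6)

If |x| > 6, |x| >= |y| then |x'| >= 2|x| where (x',y') = F(x,y), and again |x'| > 6, |x'| >= |y'|;
so such a point is not in Kp. This gives kp_fst. kp_fwd: along a forward orbit in Kp each |x_n| is
at most max 6 |y_n|, and y_{n+1} = x_n. For kkm_bd use that |y| > 6, |y| >= |x| implies
|y'| >= 2|y| and |y'| >= |x'| where (x',y') = g(x,y). kp_lim: by kp_fwd the n-th iterates of the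
points p j are bounded by max ‖p j‖ 6; pass to the limit.
-/

set_option autoImplicit false

open Set Filter Topology MeasureTheory

namespace HE

theorem Fg (c b : ℝ) (hb : b ≠ 0) (p : P) : F c b (g c b p) = p := by
  have hb' : (b : ℂ) ≠ 0 := by exact_mod_cast hb
  refine Prod.ext ?_ rfl
  change p.2 ^ 2 + (c : ℂ) - (b : ℂ) * ((p.2 ^ 2 + (c : ℂ) - p.1) / (b : ℂ)) = p.1
  rw [mul_div_cancel₀ _ hb']
  ring

theorem gF (c b : ℝ) (hb : b ≠ 0) (p : P) : g c b (F c b p) = p := by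
  have hb' : (b : ℂ) ≠ 0 := by exact_mod_cast hb
  refine Prod.ext rfl ?_
  change (p.1 ^ 2 + (c : ℂ) - (p.1 ^ 2 + (c : ℂ) - (b : ℂ) * p.2)) / (b : ℂ) = p.2
  rw [div_eq_iff hb']
  ring

theorem Par.ne {c b : ℝ} (h : Par c b) : b ≠ 0 := by
  intro hb
  have := h.b0
  rw [hb, abs_zero] at this
  norm_num at this

theorem A1_normc {c b : ℝ} (h : Par c b) : ‖(c : ℂ)‖ ≤ 14 := by
  rw [Complex.norm_real, Real.norm_eq_abs, abs_le]
  exact ⟨h.c0, by linarith [h.c1]⟩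

theorem A1_normb {c b : ℝ} (h : Par c b) : ‖(b : ℂ)‖ ≤ 2 / 5 ∧ 1 / 5 ≤ ‖(b : ℂ)‖ := by
  rw [Complex.norm_real, Real.norm_eq_abs]
  exact ⟨h.b1, h.b0⟩

theorem A1_escF {c b : ℝ} (h : Par c b) {p : P} (h1 : 6 < ‖p.1‖) (h2 : ‖p.2‖ ≤ ‖p.1‖) :
    2 * ‖p.1‖ ≤ ‖(F c b p).1‖ := by
  change 2 * ‖p.1‖ ≤ ‖p.1 ^ 2 + (c : ℂ) - (b : ℂ) * p.2‖
  have e1 : ‖p.1 ^ 2‖ ≤ ‖p.1 ^ 2 + (c : ℂ) - (b : ℂ) * p.2‖ + ‖(c : ℂ)‖ + ‖(b : ℂ) * p.2‖ := by
    calc ‖p.1 ^ 2‖ = ‖(p.1 ^ 2 + (c : ℂ) - (b : ℂ) * p.2) - (c : ℂ) + (b : ℂ) * p.2‖ := by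
          congr 1; ring
      _ ≤ ‖(p.1 ^ 2 + (c : ℂ) - (b : ℂ) * p.2) - (c : ℂ)‖ + ‖(b : ℂ) * p.2‖ := norm_add_le _ _
      _ ≤ _ := by
          have := norm_sub_le (p.1 ^ 2 + (c : ℂ) - (b : ℂ) * p.2) (c : ℂ)
          linarith
  have e2 := A1_normc h
  have e3 := (A1_normb h).1
  rw [norm_pow, norm_mul] at e1
  have e4 : ‖(b : ℂ)‖ * ‖p.2‖ ≤ 2 / 5 * ‖p.1‖ :=
    mul_le_mul e3 h2 (norm_nonneg _) (by norm_num)
  nlinarith

theorem A1_escF_iter {c b : ℝ} (h : Par c b) {p : P} (h1 : 6 < ‖p.1‖) (h2 : ‖p.2‖ ≤ ‖p.1‖)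
    (n : ℕ) : 2 ^ n * ‖p.1‖ ≤ ‖((F c b)^[n] p).1‖ ∧ ‖((F c b)^[n] p).2‖ ≤ ‖((F c b)^[n] p).1‖ := by
  induction n with
  | zero => exact ⟨by simp, by simpa using h2⟩
  | succ n ih =>
    obtain ⟨i1, i2⟩ := ih
    rw [Function.iterate_succ_apply']
    set q := (F c b)^[n] p
    have h3 : ‖p.1‖ ≤ 2 ^ n * ‖p.1‖ := by
      have : (1 : ℝ) ≤ 2 ^ n := one_le_pow₀ (by norm_num)
      nlinarith [norm_nonneg p.1]
    have h4 : 6 < ‖q.1‖ := by linarith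
    have h5 := A1_escF h h4 i2
    refine ⟨?_, ?_⟩
    · rw [pow_succ]
      linarith
    · change ‖q.1‖ ≤ _
      linarith [norm_nonneg q.1]

theorem A1_pow_unbdd {x B : ℝ} (hx : 0 < x) (h : ∀ n : ℕ, 2 ^ n * x ≤ B) : False := by
  obtain ⟨n, hn⟩ := pow_unbounded_of_one_lt (B / x) (by norm_num : (1 : ℝ) < 2)
  rw [div_lt_iff₀ hx] at hn
  linarith [h n]

theorem kp_fst {c b : ℝ} (h : Par c b) {p : P} (hp : p ∈ Kp c b) : ‖p.1‖ ≤ max 6 ‖p.2‖ := by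
  by_contra hcon
  push Not at hcon
  have h1 : 6 < ‖p.1‖ := lt_of_le_of_lt (le_max_left _ _) hcon
  have h2 : ‖p.2‖ ≤ ‖p.1‖ := (lt_of_le_of_lt (le_max_right _ _) hcon).le
  obtain ⟨B, hB⟩ := hp
  refine A1_pow_unbdd (x := ‖p.1‖) (B := B) (by linarith) fun n => ?_
  exact ((A1_escF_iter h h1 h2 n).1.trans (norm_fst_le _)).trans (hB n)

theorem kp_F {c b : ℝ} {p : P} (hp : p ∈ Kp c b) : F c b p ∈ Kp c b := by
  obtain ⟨B, hB⟩ := hp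
  refine ⟨B, fun n => ?_⟩
  rw [← Function.iterate_succ_apply]
  exact hB (n + 1)

theorem kp_Fiter {c b : ℝ} {p : P} (hp : p ∈ Kp c b) (n : ℕ) : (F c b)^[n] p ∈ Kp c b := by
  induction n with
  | zero => exact hp
  | succ n ih =>
    rw [Function.iterate_succ_apply']
    exact kp_F ih

theorem kp_fwd {c b : ℝ} (h : Par c b) {p : P} (hp : p ∈ Kp c b) (n : ℕ) :
    ‖(F c b)^[n] p‖ ≤ max 6 ‖p‖ := by
  induction n with
  | zero => exact le_max_right _ _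
  | succ n ih =>
    have h1 := kp_fst h (kp_Fiter hp (n + 1))
    rw [Function.iterate_succ_apply'] at h1 ⊢
    have h2 : ‖(F c b ((F c b)^[n] p)).2‖ ≤ max 6 ‖p‖ := (norm_fst_le _).trans ih
    rw [Prod.norm_def]
    exact max_le (h1.trans (max_le (le_max_left _ _) h2)) h2

theorem kp_g {c b : ℝ} (hb : b ≠ 0) {p : P} (hp : p ∈ Kp c b) : g c b p ∈ Kp c b := by
  obtain ⟨B, hB⟩ := hp
  refine ⟨max B ‖g c b p‖, fun n => ?_⟩
  cases n with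
  | zero => exact le_max_right _ _
  | succ n =>
    rw [Function.iterate_succ_apply, Fg c b hb]
    exact (hB n).trans (le_max_left _ _)

theorem km_F {c b : ℝ} (hb : b ≠ 0) {p : P} (hp : p ∈ Km c b) : F c b p ∈ Km c b := by
  obtain ⟨B, hB⟩ := hp
  refine ⟨max B ‖F c b p‖, fun n => ?_⟩
  cases n with
  | zero => exact le_max_right _ _
  | succ n =>
    rw [Function.iterate_succ_apply, gF c b hb]
    exact (hB n).trans (le_max_left _ _)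

theorem km_g {c b : ℝ} {p : P} (hp : p ∈ Km c b) : g c b p ∈ Km c b := by
  obtain ⟨B, hB⟩ := hp
  refine ⟨B, fun n => ?_⟩
  rw [← Function.iterate_succ_apply]
  exact hB (n + 1)

theorem kp_giter {c b : ℝ} (hb : b ≠ 0) {p : P} (hp : p ∈ Kp c b) (n : ℕ) :
    (g c b)^[n] p ∈ Kp c b := by
  induction n with
  | zero => exact hp
  | succ n ih =>
    rw [Function.iterate_succ_apply']
    exact kp_g hb ih

theorem km_Fiter {c b : ℝ} (hb : b ≠ 0) {p : P} (hp : p ∈ Km c b) (n : ℕ) :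
    (F c b)^[n] p ∈ Km c b := by
  induction n with
  | zero => exact hp
  | succ n ih =>
    rw [Function.iterate_succ_apply']
    exact km_F hb ih

theorem km_giter {c b : ℝ} {p : P} (hp : p ∈ Km c b) (n : ℕ) : (g c b)^[n] p ∈ Km c b := by
  induction n with
  | zero => exact hp
  | succ n ih =>
    rw [Function.iterate_succ_apply']
    exact km_g ih

theorem A1_escG {c b : ℝ} (h : Par c b) {p : P} (h1 : 6 < ‖p.2‖) (h2 : ‖p.1‖ ≤ ‖p.2‖) :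
    2 * ‖p.2‖ ≤ ‖(g c b p).2‖ := by
  change 2 * ‖p.2‖ ≤ ‖(p.2 ^ 2 + (c : ℂ) - p.1) / (b : ℂ)‖
  obtain ⟨e3, e3'⟩ := A1_normb h
  have e0 : 0 < ‖(b : ℂ)‖ := by linarith
  rw [norm_div, le_div_iff₀ e0]
  have e1 : ‖p.2 ^ 2‖ ≤ ‖p.2 ^ 2 + (c : ℂ) - p.1‖ + ‖(c : ℂ)‖ + ‖p.1‖ := by
    calc ‖p.2 ^ 2‖ = ‖(p.2 ^ 2 + (c : ℂ) - p.1) - (c : ℂ) + p.1‖ := by
          congr 1; ring
      _ ≤ ‖(p.2 ^ 2 + (c : ℂ) - p.1) - (c : ℂ)‖ + ‖p.1‖ := norm_add_le _ _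
      _ ≤ _ := by
          have := norm_sub_le (p.2 ^ 2 + (c : ℂ) - p.1) (c : ℂ)
          linarith
  have e2 := A1_normc h
  rw [norm_pow] at e1
  have e4 : 2 * ‖p.2‖ * ‖(b : ℂ)‖ ≤ 2 * ‖p.2‖ * (2 / 5) :=
    mul_le_mul_of_nonneg_left e3 (by linarith)
  nlinarith

theorem A1_escG_iter {c b : ℝ} (h : Par c b) {p : P} (h1 : 6 < ‖p.2‖) (h2 : ‖p.1‖ ≤ ‖p.2‖)
    (n : ℕ) : 2 ^ n * ‖p.2‖ ≤ ‖((g c b)^[n] p).2‖ ∧ ‖((g c b)^[n] p).1‖ ≤ ‖((g c b)^[n] p).2‖ := by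
  induction n with
  | zero => exact ⟨by simp, by simpa using h2⟩
  | succ n ih =>
    obtain ⟨i1, i2⟩ := ih
    rw [Function.iterate_succ_apply']
    set q := (g c b)^[n] p
    have h3 : ‖p.2‖ ≤ 2 ^ n * ‖p.2‖ := by
      have : (1 : ℝ) ≤ 2 ^ n := one_le_pow₀ (by norm_num)
      nlinarith [norm_nonneg p.2]
    have h4 : 6 < ‖q.2‖ := by linarith
    have h5 := A1_escG h h4 i2
    refine ⟨?_, ?_⟩
    · rw [pow_succ]
      linarith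
    · change ‖q.2‖ ≤ _
      linarith [norm_nonneg q.2]

theorem kkm_bd {c b : ℝ} (h : Par c b) {p : P} (hp : p ∈ Kp c b) (hm : p ∈ Km c b) : ‖p‖ ≤ 6 := by
  have h2 : ‖p.2‖ ≤ 6 := by
    by_contra hcon
    push Not at hcon
    have h1 : ‖p.1‖ ≤ ‖p.2‖ := (kp_fst h hp).trans (max_le hcon.le le_rfl)
    obtain ⟨B, hB⟩ := hm
    refine A1_pow_unbdd (x := ‖p.2‖) (B := B) (by linarith) fun n => ?_
    exact ((A1_escG_iter h hcon h1 n).1.trans (norm_snd_le _)).trans (hB n)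
  rw [Prod.norm_def]
  exact max_le ((kp_fst h hp).trans (max_le le_rfl h2)) h2

theorem Par.lim {c b : ℕ → ℝ} {c0 b0 : ℝ} (h : ∀ j, Par (c j) (b j))
    (hc : Tendsto c atTop (𝓝 c0)) (hb : Tendsto b atTop (𝓝 b0)) : Par c0 b0 where
  c0 := ge_of_tendsto' hc fun j => (h j).c0
  c1 := le_of_tendsto' hc fun j => (h j).c1
  b0 := ge_of_tendsto' hb.abs fun j => (h j).b0
  b1 := le_of_tendsto' hb.abs fun j => (h j).b1

theorem A1_F_tendsto {c b : ℕ → ℝ} {c0 b0 : ℝ}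
    (hc : Tendsto c atTop (𝓝 c0)) (hb : Tendsto b atTop (𝓝 b0)) {p : ℕ → P} {p0 : P}
    (hl : Tendsto p atTop (𝓝 p0)) :
    Tendsto (fun j => F (c j) (b j) (p j)) atTop (𝓝 (F c0 b0 p0)) := by
  have hc' : Tendsto (fun j => (c j : ℂ)) atTop (𝓝 (c0 : ℂ)) :=
    (Complex.continuous_ofReal.tendsto c0).comp hc
  have hb' : Tendsto (fun j => (b j : ℂ)) atTop (𝓝 (b0 : ℂ)) :=
    (Complex.continuous_ofReal.tendsto b0).comp hb
  have h1 : Tendsto (fun j => (p j).1) atTop (𝓝 p0.1) := (continuous_fst.tendsto p0).comp hl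
  have h2 : Tendsto (fun j => (p j).2) atTop (𝓝 p0.2) := (continuous_snd.tendsto p0).comp hl
  exact (((h1.pow 2).add hc').sub (hb'.mul h2)).prodMk_nhds h1

theorem A1_Fiter_tendsto {c b : ℕ → ℝ} {c0 b0 : ℝ}
    (hc : Tendsto c atTop (𝓝 c0)) (hb : Tendsto b atTop (𝓝 b0)) {p : ℕ → P} {p0 : P}
    (hl : Tendsto p atTop (𝓝 p0)) (n : ℕ) :
    Tendsto (fun j => (F (c j) (b j))^[n] (p j)) atTop (𝓝 ((F c0 b0)^[n] p0)) := by
  induction n with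
  | zero => exact hl
  | succ n ih =>
    simp only [Function.iterate_succ_apply']
    exact A1_F_tendsto hc hb ih

theorem kp_lim {c b : ℕ → ℝ} {c0 b0 : ℝ} (h : ∀ j, Par (c j) (b j))
    (hc : Tendsto c atTop (𝓝 c0)) (hb : Tendsto b atTop (𝓝 b0)) {p : ℕ → P} {p0 : P}
    (hp : ∀ j, p j ∈ Kp (c j) (b j)) (hl : Tendsto p atTop (𝓝 p0)) : p0 ∈ Kp c0 b0 := by
  refine ⟨max 6 ‖p0‖, fun n => ?_⟩
  have h1 : Tendsto (fun j => ‖(F (c j) (b j))^[n] (p j)‖) atTop (𝓝 ‖(F c0 b0)^[n] p0‖) :=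
    (A1_Fiter_tendsto hc hb hl n).norm
  have h2 : Tendsto (fun j => max 6 ‖p j‖) atTop (𝓝 (max 6 ‖p0‖)) :=
    tendsto_const_nhds.max hl.norm
  exact le_of_tendsto_of_tendsto' h1 h2 fun j => kp_fwd (h j) (hp j) n

theorem cj_norm (p : P) : ‖cj p‖ = ‖p‖ := by
  rw [Prod.norm_def, Prod.norm_def]
  change max ‖(starRingEnd ℂ) p.1‖ ‖(starRingEnd ℂ) p.2‖ = _
  rw [RCLike.norm_conj, RCLike.norm_conj]

theorem F_cj (c b : ℝ) (p : P) : F c b (cj p) = cj (F c b p) := by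
  refine Prod.ext ?_ rfl
  change (starRingEnd ℂ) p.1 ^ 2 + (c : ℂ) - (b : ℂ) * (starRingEnd ℂ) p.2 =
    (starRingEnd ℂ) (p.1 ^ 2 + (c : ℂ) - (b : ℂ) * p.2)
  simp [Complex.conj_ofReal]

theorem g_cj (c b : ℝ) (p : P) : g c b (cj p) = cj (g c b p) := by
  refine Prod.ext rfl ?_
  change ((starRingEnd ℂ) p.2 ^ 2 + (c : ℂ) - (starRingEnd ℂ) p.1) / (b : ℂ) =
    (starRingEnd ℂ) ((p.2 ^ 2 + (c : ℂ) - p.1) / (b : ℂ))
  simp [Complex.conj_ofReal]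

theorem F_diff (c b : ℝ) : Differentiable ℂ (F c b) := by
  unfold F
  fun_prop

theorem g_diff (c b : ℝ) : Differentiable ℂ (g c b) := by
  have h : g c b = fun p : P => (p.2, (p.2 ^ 2 + (c : ℂ) - p.1) * (b : ℂ)⁻¹) := by
    funext p
    unfold g
    rw [div_eq_mul_inv]
  rw [h]
  fun_prop

end HE
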