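import Pool.Agent.Lib.MP_904526_P.A1

/-!
# A2. The Green function on Kp

step: if ‖p‖ > 6 then |y| = ‖p‖ (kp_fst) and ‖g p‖ ≥ |y'| ≥ (|y|^2-14-|y|)/|b| ≥ (4/9)|y|^2; if
‖p‖ ≤ 6 then 2 posLog ‖p‖ ≤ 2 log 6 < 5; upper bound ‖g p‖ ≤ 5 (‖p‖^2+14+‖p‖) ≤ 80 max(1,‖p‖)^2, log 80 < 5.
Then un is a Cauchy sequence with |un (n+1) - un n| ≤ 5/2^(n+1).
-/

set_option autoImplicit false

open Set Filter Topology MeasureTheory

namespace HE

theorem A2_exp5 : (100 : ℝ) < Real.exp 5 := by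
  have h1 : Real.exp 5 = Real.exp 1 ^ 5 := by
    rw [← Real.exp_nat_mul]
    norm_num
  rw [h1]
  have h2 : (2.7 : ℝ) < Real.exp 1 := by
    have := Real.exp_one_gt_d9
    linarith
  have h3 : (2.7 : ℝ) ^ 5 < Real.exp 1 ^ 5 := pow_lt_pow_left₀ h2 (by norm_num) (by norm_num)
  have h4 : (100 : ℝ) < (2.7 : ℝ) ^ 5 := by norm_num
  linarith

theorem A2_log_le {x : ℝ} (hx : x ≤ 100) (h0 : 0 < x) : Real.log x ≤ 5 := by
  rw [Real.log_le_iff_le_exp h0]
  linarith [A2_exp5]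

theorem A2_g_up {c b : ℝ} (h : Par c b) (p : P) :
    ‖g c b p‖ ≤ 80 * (max 1 ‖p‖) ^ 2 := by
  set m := max 1 ‖p‖ with hm
  have m1 : 1 ≤ m := le_max_left _ _
  have m2 : ‖p‖ ≤ m := le_max_right _ _
  have m3 : m ≤ m ^ 2 := by nlinarith
  have x1 : ‖p.1‖ ≤ m := (norm_fst_le p).trans m2
  have y1 : ‖p.2‖ ≤ m := (norm_snd_le p).trans m2
  obtain ⟨e3, e3'⟩ := A1_normb h
  have e0 : 0 < ‖(b : ℂ)‖ := by linarith
  have e2 := A1_normc h
  rw [Prod.norm_def]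
  apply max_le
  · change ‖p.2‖ ≤ _
    nlinarith
  · change ‖(p.2 ^ 2 + (c : ℂ) - p.1) / (b : ℂ)‖ ≤ _
    rw [norm_div, div_le_iff₀ e0]
    have e1 : ‖p.2 ^ 2 + (c : ℂ) - p.1‖ ≤ ‖p.2 ^ 2‖ + ‖(c : ℂ)‖ + ‖p.1‖ :=
      (norm_sub_le _ _).trans (add_le_add_left (norm_add_le _ _) _)
    rw [norm_pow] at e1
    have e4 : ‖p.2‖ ^ 2 ≤ m ^ 2 := pow_le_pow_left₀ (norm_nonneg _) y1 2
    have e5 : 80 * m ^ 2 * (1 / 5) ≤ 80 * m ^ 2 * ‖(b : ℂ)‖ :=
      mul_le_mul_of_nonneg_left e3' (by positivity)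
    nlinarith

theorem A2_g_low {c b : ℝ} (h : Par c b) {p : P} (hp : p ∈ Kp c b) (hn : 6 < ‖p‖) :
    4 / 9 * ‖p‖ ^ 2 ≤ ‖g c b p‖ := by
  have h1 := kp_fst h hp
  have h2 : 6 < ‖p.2‖ := by
    by_contra hcon
    push Not at hcon
    have h3 : ‖p.1‖ ≤ 6 := h1.trans (max_le le_rfl hcon)
    have h4 : ‖p‖ ≤ 6 := by
      rw [Prod.norm_def]
      exact max_le h3 hcon
    linarith
  have h3 : ‖p.1‖ ≤ ‖p.2‖ := h1.trans (max_le h2.le le_rfl)
  have h4 : ‖p‖ = ‖p.2‖ := by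
    rw [Prod.norm_def]
    exact max_eq_right h3
  rw [h4]
  refine le_trans ?_ (norm_snd_le (g c b p))
  change _ ≤ ‖(p.2 ^ 2 + (c : ℂ) - p.1) / (b : ℂ)‖
  obtain ⟨e3, e3'⟩ := A1_normb h
  have e0 : 0 < ‖(b : ℂ)‖ := by linarith
  rw [norm_div, le_div_iff₀ e0]
  have e1 : ‖p.2 ^ 2‖ ≤ ‖p.2 ^ 2 + (c : ℂ) - p.1‖ + ‖(c : ℂ)‖ + ‖p.1‖ := by
    calc ‖p.2 ^ 2‖ = ‖(p.2 ^ 2 + (c : ℂ) - p.1) - (c : ℂ) + p.1‖ := by
          congr 1; ring
      _ ≤ ‖(p.2 ^ 2 + (c : ℂ) - p.1) - (c : ℂ)‖ + ‖p.1‖ := norm_add_le _ _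
      _ ≤ _ := by
          have := norm_sub_le (p.2 ^ 2 + (c : ℂ) - p.1) (c : ℂ)
          linarith
  have e2 := A1_normc h
  rw [norm_pow] at e1
  have e4 : 4 / 9 * ‖p.2‖ ^ 2 * ‖(b : ℂ)‖ ≤ 4 / 9 * ‖p.2‖ ^ 2 * (2 / 5) :=
    mul_le_mul_of_nonneg_left e3 (by positivity)
  nlinarith

theorem A2_posLog (x : ℝ) (hx : 0 ≤ x) : Real.posLog x = Real.log (max 1 x) :=
  Real.posLog_eq_log_max_one hx

theorem step {c b : ℝ} (h : Par c b) {p : P} (hp : p ∈ Kp c b) :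
    |Real.posLog ‖g c b p‖ - 2 * Real.posLog ‖p‖| ≤ 5 := by
  rw [A2_posLog _ (norm_nonneg _), A2_posLog _ (norm_nonneg _)]
  have hup := A2_g_up h p
  set m := max 1 ‖p‖ with hm
  set M := max 1 ‖g c b p‖ with hM
  have m1 : 1 ≤ m := le_max_left _ _
  have M1 : 1 ≤ M := le_max_left _ _
  have m0 : 0 < m := by linarith
  have M0 : 0 < M := by linarith
  have l1 : 0 ≤ Real.log M := Real.log_nonneg M1
  have l2 : 0 ≤ Real.log m := Real.log_nonneg m1
  rw [abs_le]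
  constructor
  · by_cases hn : ‖p‖ ≤ 6
    · have h1 : m ≤ 6 := max_le (by norm_num) hn
      have h2 : Real.log (m ^ 2) ≤ 5 := A2_log_le (by nlinarith) (by positivity)
      rw [Real.log_pow] at h2
      push_cast at h2
      linarith
    · push Not at hn
      have h1 := A2_g_low h hp hn
      have h2 : m = ‖p‖ := max_eq_right (by linarith)
      have h3 : m ^ 2 ≤ 9 / 4 * M := by
        have : ‖g c b p‖ ≤ M := le_max_right _ _
        rw [h2]
        linarith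
      have h4 : Real.log (m ^ 2) ≤ Real.log (9 / 4 * M) := Real.log_le_log (by positivity) h3
      rw [Real.log_pow, Real.log_mul (by norm_num) M0.ne'] at h4
      push_cast at h4
      have h5 : Real.log (9 / 4) ≤ 5 := A2_log_le (by norm_num) (by norm_num)
      linarith
  · have h1 : M ≤ 80 * m ^ 2 := max_le (by nlinarith) hup
    have h2 : Real.log M ≤ Real.log (80 * m ^ 2) := Real.log_le_log M0 h1
    rw [Real.log_mul (by norm_num) (by positivity), Real.log_pow] at h2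
    push_cast at h2
    have h5 : Real.log 80 ≤ 5 := A2_log_le (by norm_num) (by norm_num)
    linarith

theorem A2_dist {c b : ℝ} (h : Par c b) {p : P} (hp : p ∈ Kp c b) (n : ℕ) :
    dist (un c b n p) (un c b (n + 1) p) ≤ 5 / 2 / 2 ^ n := by
  have h1 := step h (kp_giter h.ne hp n)
  rw [Real.dist_eq, abs_sub_comm]
  unfold un
  rw [Function.iterate_succ_apply']
  have h2 : Real.posLog ‖g c b ((g c b)^[n] p)‖ / 2 ^ (n + 1) - Real.posLog ‖(g c b)^[n] p‖ / 2 ^ n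
      = (Real.posLog ‖g c b ((g c b)^[n] p)‖ - 2 * Real.posLog ‖(g c b)^[n] p‖) / 2 ^ (n + 1) := by
    rw [pow_succ]
    field_simp
  have h3 : (0 : ℝ) < 2 ^ (n + 1) := by positivity
  rw [h2, abs_div, abs_of_pos h3, div_le_iff₀ h3]
  have h4 : (5 : ℝ) / 2 / 2 ^ n * 2 ^ (n + 1) = 5 := by
    rw [pow_succ]
    field_simp
  rw [h4]
  exact h1

theorem G_tendsto {c b : ℝ} (h : Par c b) {p : P} (hp : p ∈ Kp c b) :
    Tendsto (fun n => un c b n p) atTop (𝓝 (G c b p)) := by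
  have h1 : CauchySeq (fun n => un c b n p) := cauchySeq_of_le_geometric_two (A2_dist h hp)
  exact h1.tendsto_limUnder

theorem G_un {c b : ℝ} (h : Par c b) {p : P} (hp : p ∈ Kp c b) (n : ℕ) :
    |G c b p - un c b n p| ≤ 5 / 2 ^ n := by
  have h1 := dist_le_of_le_geometric_two_of_tendsto (A2_dist h hp) (G_tendsto h hp) n
  rw [Real.dist_eq, abs_sub_comm] at h1
  exact h1

theorem G_lp {c b : ℝ} (h : Par c b) {p : P} (hp : p ∈ Kp c b) :
    |G c b p - Real.posLog ‖p‖| ≤ 5 := by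
  have h1 := G_un h hp 0
  have h2 : un c b 0 p = Real.posLog ‖p‖ := by
    unfold un
    simp
  rw [h2] at h1
  simpa using h1

theorem G_nn {c b : ℝ} (h : Par c b) {p : P} (hp : p ∈ Kp c b) : 0 ≤ G c b p := by
  refine ge_of_tendsto' (G_tendsto h hp) fun n => ?_
  exact div_nonneg Real.posLog_nonneg (by positivity)

theorem G_giter {c b : ℝ} (h : Par c b) {p : P} (hp : p ∈ Kp c b) (n : ℕ) :
    G c b ((g c b)^[n] p) = 2 ^ n * G c b p := by
  have h1 := G_tendsto h (kp_giter h.ne hp n)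
  have h2 : Tendsto (fun k => 2 ^ n * un c b (k + n) p) atTop (𝓝 (2 ^ n * G c b p)) :=
    ((tendsto_add_atTop_iff_nat n).mpr (G_tendsto h hp)).const_mul _
  have h3 : (fun k => un c b k ((g c b)^[n] p)) = fun k => 2 ^ n * un c b (k + n) p := by
    funext k
    unfold un
    rw [← Function.iterate_add_apply, pow_add]
    field_simp
  rw [h3] at h1
  exact tendsto_nhds_unique h1 h2

theorem G_Fiter {c b : ℝ} (h : Par c b) {p : P} (hp : p ∈ Kp c b) (n : ℕ) :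
    G c b ((F c b)^[n] p) = G c b p / 2 ^ n := by
  have h1 := G_giter h (kp_Fiter hp n) n
  have h2 : (g c b)^[n] ((F c b)^[n] p) = p :=
    (Function.LeftInverse.iterate (fun q => gF c b h.ne q) n) p
  rw [h2] at h1
  have h3 : (0 : ℝ) < 2 ^ n := by positivity
  rw [eq_div_iff h3.ne']
  linarith

/-- points of Kp with small Green function are bounded -/
theorem norm_le_of_G {c b : ℝ} (h : Par c b) {p : P} (hp : p ∈ Kp c b) :
    ‖p‖ ≤ Real.exp (G c b p + 5) := by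
  have h1 := (abs_le.mp (G_lp h hp)).1
  rcases (norm_nonneg p).eq_or_lt with h0 | h0
  · rw [← h0]
    exact (Real.exp_pos _).le
  · have h2 : Real.log ‖p‖ ≤ Real.posLog ‖p‖ := by
      rw [Real.posLog_apply]
      exact le_max_right _ _
    calc ‖p‖ = Real.exp (Real.log ‖p‖) := (Real.exp_log h0).symm
      _ ≤ _ := Real.exp_le_exp.mpr (by linarith)

theorem G_km {c b : ℝ} (h : Par c b) {p : P} (hp : p ∈ Kp c b) (hm : p ∈ Km c b) :
    G c b p = 0 := by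
  by_contra hne
  have h0 : 0 < G c b p := lt_of_le_of_ne (G_nn h hp) (Ne.symm hne)
  refine A1_pow_unbdd (x := G c b p) (B := 10) h0 fun n => ?_
  rw [← G_giter h hp n]
  have h1 := (abs_le.mp (G_lp h (kp_giter h.ne hp n))).2
  have h2 : ‖(g c b)^[n] p‖ ≤ 6 := kkm_bd h (kp_giter h.ne hp n) (km_giter hm n)
  have h3 : Real.posLog ‖(g c b)^[n] p‖ ≤ 5 := by
    rw [A2_posLog _ (norm_nonneg _)]
    exact A2_log_le (max_le (by norm_num) (h2.trans (by norm_num)))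
      (lt_of_lt_of_le one_pos (le_max_left _ _))
  linarith

theorem km_of_G {c b : ℝ} (h : Par c b) {p : P} (hp : p ∈ Kp c b) (hG : G c b p = 0) :
    p ∈ Km c b := by
  refine ⟨Real.exp (0 + 5), fun n => ?_⟩
  have h1 := norm_le_of_G h (kp_giter h.ne hp n)
  rw [G_giter h hp n, hG, mul_zero] at h1
  exact h1

theorem kp_cj {c b : ℝ} {p : P} (hp : p ∈ Kp c b) : cj p ∈ Kp c b := by
  obtain ⟨B, hB⟩ := hp
  refine ⟨B, fun n => ?_⟩
  have h1 : (F c b)^[n] (cj p) = cj ((F c b)^[n] p) := by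
    induction n with
    | zero => rfl
    | succ n ih =>
      rw [Function.iterate_succ_apply', Function.iterate_succ_apply', ih, F_cj]
  rw [h1, cj_norm]
  exact hB n

theorem G_cj (c b : ℝ) (p : P) : G c b (cj p) = G c b p := by
  have h0 : ∀ n : ℕ, (g c b)^[n] (cj p) = cj ((g c b)^[n] p) := by
    intro n
    induction n with
    | zero => rfl
    | succ n ih =>
      rw [Function.iterate_succ_apply', Function.iterate_succ_apply', ih, g_cj]
  have h1 : (fun n => un c b n (cj p)) = fun n => un c b n p := by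
    funext n
    unfold un
    rw [h0, cj_norm]
  unfold G
  rw [h1]

end HE
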