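import Pool.Agent.Lib.MP_904526_P.Defs

/-!
# A3. posLog of the norm of an entire curve is subharmonic (Jensen)

For a coordinate f with f w ≠ 0: `AnalyticOnNhd.circleAverage_log_norm` gives
log ‖f w‖ ≤ circleAverage (log ‖f ·‖) w r (divisor ≥ 0 inside, R‖c-u‖⁻¹ ≥ 1 on the closed ball). posLog ‖p‖ =
max (posLog ‖p.1‖) (posLog ‖p.2‖), and posLog is ≥ log and ≥ 0. If posLog ‖f w‖ = 0 it is trivial.
-/

set_option autoImplicit false

open Set Filter Topology MeasureTheory

namespace HE

theorem posLog_cont {f : ℂ → P} (hf : Continuous f) : Continuous (fun z => Real.posLog ‖f z‖) :=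
  Real.continuous_posLog.comp hf.norm

theorem A3_ci {v : ℂ → ℝ} (hv : Continuous v) (w : ℂ) (r : ℝ) : CircleIntegrable v w r :=
  (hv.comp (continuous_circleMap w r)).intervalIntegrable _ _

theorem A3_log {f : ℂ → ℂ} (hf : Differentiable ℂ f) (w : ℂ) {r : ℝ} (hr : 0 < r)
    (h0 : f w ≠ 0) :
    Real.log ‖f w‖ ≤ Real.circleAverage (fun z => Real.log ‖f z‖) w r := by
  have ha : AnalyticOnNhd ℂ f (Metric.closedBall w |r|) := fun z _ => hf.analyticAt z
  rw [ha.circleAverage_log_norm hr.ne' h0]
  refine le_add_of_nonneg_left (finsum_nonneg fun u => ?_)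
  by_cases hu : u ∈ Metric.closedBall w |r|
  · refine mul_nonneg (mod_cast MeromorphicOn.AnalyticOnNhd.divisor_nonneg ha u) ?_
    by_cases h3 : u = w
    · rw [h3]
      simp
    · have h4 : 0 < ‖w - u‖ := norm_pos_iff.2 (sub_ne_zero.2 (Ne.symm h3))
      refine Real.log_nonneg ?_
      rw [Metric.mem_closedBall, dist_eq_norm, norm_sub_rev, abs_of_pos hr] at hu
      rw [← div_eq_mul_inv, le_div_iff₀ h4, one_mul]
      exact hu
  · simp [hu]

theorem A3_coord {f : ℂ → ℂ} (hf : Differentiable ℂ f) (w : ℂ) {r : ℝ} (hr : 0 < r) :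
    Real.posLog ‖f w‖ ≤ Real.circleAverage (fun z => Real.posLog ‖f z‖) w r := by
  have hc : Continuous fun z => Real.posLog ‖f z‖ :=
    Real.continuous_posLog.comp hf.continuous.norm
  by_cases h : Real.posLog ‖f w‖ = 0
  · rw [h, ← Real.circleAverage_const (0 : ℝ) w r]
    exact Real.circleAverage_mono (A3_ci continuous_const w r) (A3_ci hc w r)
      fun x _ => Real.posLog_nonneg
  · have h1 : ¬ |‖f w‖| ≤ 1 := fun h2 => h ((Real.posLog_eq_zero_iff _).2 h2)
    have h0 : f w ≠ 0 := by
      intro h2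
      apply h1
      rw [h2]
      simp
    have ha : AnalyticOnNhd ℂ f (Metric.sphere w |r|) := fun z _ => hf.analyticAt z
    rw [Real.posLog_eq_log (not_le.1 h1).le]
    refine (A3_log hf w hr h0).trans ?_
    exact Real.circleAverage_mono ha.meromorphicOn.circleIntegrable_log_norm (A3_ci hc w r)
      fun x _ => le_max_right _ _

theorem posLog_sub {f : ℂ → P} (hf : Differentiable ℂ f) (w : ℂ) (r : ℝ) (hr : 0 < r) :
    Real.posLog ‖f w‖ ≤ Real.circleAverage (fun z => Real.posLog ‖f z‖) w r := by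
  have hc := posLog_cont hf.continuous
  have h1 : Differentiable ℂ fun z => (f z).1 := hf.fst
  have h2 : Differentiable ℂ fun z => (f z).2 := hf.snd
  rcases le_total ‖(f w).1‖ ‖(f w).2‖ with h | h
  · rw [Prod.norm_def, max_eq_right h]
    refine (A3_coord h2 w hr).trans ?_
    exact Real.circleAverage_mono
      (A3_ci (Real.continuous_posLog.comp h2.continuous.norm) w r) (A3_ci hc w r)
      fun x _ => Real.posLog_le_posLog (norm_nonneg _) (norm_snd_le _)
  · rw [Prod.norm_def, max_eq_left h]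
    refine (A3_coord h1 w hr).trans ?_
    exact Real.circleAverage_mono
      (A3_ci (Real.continuous_posLog.comp h1.continuous.norm) w r) (A3_ci hc w r)
      fun x _ => Real.posLog_le_posLog (norm_nonneg _) (norm_fst_le _)

end HE
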