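import Pool.Agent.Lib.MP_904526_P.A2
import Pool.Agent.Lib.MP_904526_P.A3

/-!
# A4. Operations on curves; the potential of a curve

pot: G ∘ A is the uniform limit of un n ∘ A (G_un), each of which is continuous and has the
sub-mean property by posLog_sub applied to g^[n] ∘ A.
-/

set_option autoImplicit false

open Set Filter Topology MeasureTheory

namespace HE

theorem A4_giter_diff (c b : ℝ) {A : ℂ → P} (hA : Differentiable ℂ A) (n : ℕ) :
    Differentiable ℂ (fun w => (g c b)^[n] (A w)) := by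
  induction n with
  | zero => exact hA
  | succ n ih =>
    simp only [Function.iterate_succ_apply']
    exact (g_diff c b).comp ih

theorem A4_Fiter_diff (c b : ℝ) {A : ℂ → P} (hA : Differentiable ℂ A) (n : ℕ) :
    Differentiable ℂ (fun w => (F c b)^[n] (A w)) := by
  induction n with
  | zero => exact hA
  | succ n ih =>
    simp only [Function.iterate_succ_apply']
    exact (F_diff c b).comp ih

theorem A4_giter_cj (c b : ℝ) (p : P) (n : ℕ) : (g c b)^[n] (cj p) = cj ((g c b)^[n] p) := by
  induction n with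
  | zero => rfl
  | succ n ih => rw [Function.iterate_succ_apply', ih, g_cj, ← Function.iterate_succ_apply' (g c b)]

theorem A4_Fiter_cj (c b : ℝ) (p : P) (n : ℕ) : (F c b)^[n] (cj p) = cj ((F c b)^[n] p) := by
  induction n with
  | zero => rfl
  | succ n ih => rw [Function.iterate_succ_apply', ih, F_cj, ← Function.iterate_succ_apply' (F c b)]

theorem A4_un_cont (c b : ℝ) {A : ℂ → P} (hA : Differentiable ℂ A) (n : ℕ) :
    Continuous (fun w => un c b n (A w)) :=
  (posLog_cont (A4_giter_diff c b hA n).continuous).div_const _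

theorem A4_un_sub (c b : ℝ) {A : ℂ → P} (hA : Differentiable ℂ A) (n : ℕ) (w : ℂ) (r : ℝ)
    (hr : 0 < r) :
    un c b n (A w) ≤ Real.circleAverage (fun z => un c b n (A z)) w r := by
  have h1 := posLog_sub (A4_giter_diff c b hA n) w r hr
  have h2 : (fun z => un c b n (A z)) =
      fun z => ((2 : ℝ) ^ n)⁻¹ • Real.posLog ‖(g c b)^[n] (A z)‖ := by
    funext z
    unfold un
    rw [smul_eq_mul, div_eq_inv_mul]
  rw [h2, Real.circleAverage_fun_smul, smul_eq_mul]
  unfold un
  rw [div_eq_inv_mul]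
  exact mul_le_mul_of_nonneg_left h1 (by positivity)

theorem A4_bd_tendsto (C : ℝ) : Tendsto (fun n : ℕ => C / (2 : ℝ) ^ n) atTop (𝓝 0) := by
  have h := (tendsto_pow_atTop_nhds_zero_of_lt_one (r := (1 / 2 : ℝ)) (by norm_num)
    (by norm_num)).const_mul C
  rw [mul_zero] at h
  refine h.congr fun n => ?_
  rw [one_div, inv_pow, div_eq_mul_inv]

theorem A4_G_cont {c b : ℝ} (h : Par c b) {A : ℂ → P} (hA : Cv c b A) :
    Continuous (fun w => G c b (A w)) := by
  have hu : TendstoUniformly (fun (n : ℕ) w => un c b n (A w)) (fun w => G c b (A w)) atTop := by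
    rw [Metric.tendstoUniformly_iff]
    intro ε hε
    have h1 := (A4_bd_tendsto 5).eventually (gt_mem_nhds hε)
    filter_upwards [h1] with n hn w
    rw [Real.dist_eq]
    exact lt_of_le_of_lt (G_un h (hA.kp w) n) hn
  exact hu.continuous (Eventually.of_forall fun n => A4_un_cont c b hA.diff n).frequently

theorem Cv.pot {c b : ℝ} (h : Par c b) {A : ℂ → P} (hA : Cv c b A) :
    Pot (fun w => G c b (A w)) where
  cont := A4_G_cont h hA
  nn w := G_nn h (hA.kp w)
  sub w r hr := by
    have hcont := A4_G_cont h hA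
    have key : ∀ n : ℕ, G c b (A w) ≤
        Real.circleAverage (fun z => G c b (A z)) w r + 10 / 2 ^ n := by
      intro n
      have h1 := A4_un_sub c b hA.diff n w r hr
      have h2 := abs_le.1 (G_un h (hA.kp w) n)
      have h3 : Real.circleAverage (fun z => un c b n (A z)) w r ≤
          Real.circleAverage (fun z => G c b (A z) + 5 / 2 ^ n) w r := by
        refine Real.circleAverage_mono
          ((A4_un_cont c b hA.diff n).continuousOn.circleIntegrable') ?_ ?_
        · exact (hcont.add continuous_const).continuousOn.circleIntegrable'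
        · intro z _
          have := abs_le.1 (G_un h (hA.kp z) n)
          linarith [this.1]
      have h4 : Real.circleAverage (fun z => G c b (A z) + 5 / 2 ^ n) w r =
          Real.circleAverage (fun z => G c b (A z)) w r + 5 / 2 ^ n := by
        rw [Real.circleAverage_fun_add hcont.continuousOn.circleIntegrable'
          continuous_const.continuousOn.circleIntegrable', Real.circleAverage_const]
      have h5 : (10 : ℝ) / 2 ^ n = 5 / 2 ^ n + 5 / 2 ^ n := by ring
      rw [h5]
      linarith [h2.2]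
    have hlim : Tendsto (fun n : ℕ => Real.circleAverage (fun z => G c b (A z)) w r + 10 / 2 ^ n)
        atTop (𝓝 (Real.circleAverage (fun z => G c b (A z)) w r + 0)) :=
      tendsto_const_nhds.add (A4_bd_tendsto 10)
    rw [add_zero] at hlim
    exact ge_of_tendsto' hlim key
  real t := G_km h (hA.kp _) (hA.km t)
  sym w := by
    rw [hA.sym, G_cj]

theorem Cv.Fiter {c b : ℝ} (hb : b ≠ 0) {A : ℂ → P} (hA : Cv c b A) (n : ℕ) :
    Cv c b (fun w => (F c b)^[n] (A w)) where
  diff := A4_Fiter_diff c b hA.diff n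
  sym w := by rw [hA.sym, A4_Fiter_cj]
  kp w := kp_Fiter (hA.kp w) n
  km t := km_Fiter hb (hA.km t) n

theorem Cv.giter {c b : ℝ} (hb : b ≠ 0) {A : ℂ → P} (hA : Cv c b A) (n : ℕ) :
    Cv c b (fun w => (g c b)^[n] (A w)) where
  diff := A4_giter_diff c b hA.diff n
  sym w := by rw [hA.sym, A4_giter_cj]
  kp w := kp_giter hb (hA.kp w) n
  km t := km_giter (hA.km t) n

/-- real affine changes of the parameter -/
theorem Cv.aff {c b : ℝ} {A : ℂ → P} (hA : Cv c b A) (s r : ℝ) :
    Cv c b (fun w => A ((s : ℂ) + (r : ℂ) * w)) where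
  diff := hA.diff.comp ((differentiable_const _).add ((differentiable_const _).mul
    differentiable_id))
  sym w := by
    rw [← hA.sym]
    congr 1
    simp [Complex.conj_ofReal]
  kp w := hA.kp _
  km t := by
    have h1 : (s : ℂ) + (r : ℂ) * (t : ℂ) = ((s + r * t : ℝ) : ℂ) := by push_cast; ring
    rw [h1]
    exact hA.km _

/-- the curve is real on the real line -/
theorem Cv.im {c b : ℝ} {A : ℂ → P} (hA : Cv c b A) (t : ℝ) :
    (A (t : ℂ)).1.im = 0 ∧ (A (t : ℂ)).2.im = 0 := by
  have h1 := hA.sym (t : ℂ)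
  rw [Complex.conj_ofReal] at h1
  have h2 : (A (t : ℂ)).1 = (starRingEnd ℂ) (A (t : ℂ)).1 := congrArg Prod.fst h1
  have h3 : (A (t : ℂ)).2 = (starRingEnd ℂ) (A (t : ℂ)).2 := congrArg Prod.snd h1
  exact ⟨Complex.conj_eq_iff_im.1 h2.symm, Complex.conj_eq_iff_im.1 h3.symm⟩

/-- derivatives at real points are real -/
theorem Cv.dim {c b : ℝ} {A : ℂ → P} (hA : Cv c b A) (t : ℝ) :
    (deriv A (t : ℂ)).1.im = 0 ∧ (deriv A (t : ℂ)).2.im = 0 := by
  have h0 : HasDerivAt A (deriv A (t : ℂ)) (t : ℂ) := (hA.diff _).hasDerivAt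
  have key : ∀ (f : ℂ → ℂ) (D : ℂ), HasDerivAt f D (t : ℂ) → (∀ s : ℝ, (f (s : ℂ)).im = 0) →
      D.im = 0 := by
    intro f D hf him
    have h1 : HasDerivAt (fun s : ℝ => f (s : ℂ)) D t := hf.comp_ofReal
    have h2 : HasDerivAt (fun s : ℝ => Complex.imCLM (f (s : ℂ))) (Complex.imCLM D) t :=
      Complex.imCLM.hasFDerivAt.comp_hasDerivAt t h1
    have h3 : (fun s : ℝ => Complex.imCLM (f (s : ℂ))) = fun _ => (0 : ℝ) := by
      funext s
      exact him s
    rw [h3] at h2
    exact h2.unique (hasDerivAt_const t (0 : ℝ))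
  have hf1 : HasDerivAt (fun z => (A z).1) (deriv A (t : ℂ)).1 (t : ℂ) :=
    (ContinuousLinearMap.fst ℂ ℂ ℂ).hasFDerivAt.comp_hasDerivAt _ h0
  have hf2 : HasDerivAt (fun z => (A z).2) (deriv A (t : ℂ)).2 (t : ℂ) :=
    (ContinuousLinearMap.snd ℂ ℂ ℂ).hasFDerivAt.comp_hasDerivAt _ h0
  exact ⟨key _ _ hf1 fun s => (hA.im s).1, key _ _ hf2 fun s => (hA.im s).2⟩

end HE
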