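import Pool.Agent.Lib.MP_904526_P.Defs

/-!
# B1. Maximum principle for continuous functions with the sub-mean property, and the barrier

max_princ: if φ > m somewhere, add ε ‖w‖^2 (its circle average at w is ‖w‖^2 + r^2) and take a maximum
point of the sum on the compact closure; it is interior and contradicts the sub-mean property.
bar: compare v with M (3y/r + ((x-x0)^2 - y^2)/r^2) on the half disc |w-x0| < r, y > 0 (harmonic:
real part of a polynomial, `HarmonicOnNhd.circleAverage_eq` or direct computation).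
-/

set_option autoImplicit false

open Set Filter Topology MeasureTheory

namespace HE

private theorem b1_avg (f : ℂ → ℝ) (c : ℂ) (ρ A B C D : ℝ)
    (hf : ∀ θ : ℝ, f (circleMap c ρ θ) =
      A + B * Real.cos θ + C * Real.sin θ + D * (Real.cos θ ^ 2 - Real.sin θ ^ 2)) :
    Real.circleAverage f c ρ = A := by
  rw [Real.circleAverage_def]
  simp_rw [hf]
  have c1 : Continuous fun θ : ℝ => B * Real.cos θ := by fun_prop
  have c2 : Continuous fun θ : ℝ => C * Real.sin θ := by fun_prop
  have c3 : Continuous fun θ : ℝ => D * (Real.cos θ ^ 2 - Real.sin θ ^ 2) := by fun_prop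
  have c0 : Continuous fun _ : ℝ => A := continuous_const
  have c01 : Continuous fun θ : ℝ => A + B * Real.cos θ := by fun_prop
  have c012 : Continuous fun θ : ℝ => A + B * Real.cos θ + C * Real.sin θ := by fun_prop
  rw [intervalIntegral.integral_add (c012.intervalIntegrable _ _) (c3.intervalIntegrable _ _),
    intervalIntegral.integral_add (c01.intervalIntegrable _ _) (c2.intervalIntegrable _ _),
    intervalIntegral.integral_add (c0.intervalIntegrable _ _) (c1.intervalIntegrable _ _),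
    intervalIntegral.integral_const_mul, intervalIntegral.integral_const_mul,
    intervalIntegral.integral_const_mul, integral_cos, integral_sin, integral_cos_sq_sub_sin_sq,
    intervalIntegral.integral_const]
  have hpi : (2 * Real.pi) ≠ 0 := by positivity
  simp only [Real.sin_two_pi, Real.cos_two_pi, Real.sin_zero, Real.cos_zero, smul_eq_mul]
  field_simp
  ring

private theorem b1_re (c : ℂ) (ρ θ : ℝ) : (circleMap c ρ θ).re = c.re + ρ * Real.cos θ := by
  rw [circleMap, Complex.exp_mul_I]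
  simp [Complex.add_re, Complex.mul_re, Complex.cos_ofReal_re, Complex.sin_ofReal_re,
    Complex.sin_ofReal_im, Complex.cos_ofReal_im]

private theorem b1_im (c : ℂ) (ρ θ : ℝ) : (circleMap c ρ θ).im = c.im + ρ * Real.sin θ := by
  rw [circleMap, Complex.exp_mul_I]
  simp [Complex.add_im, Complex.mul_im, Complex.cos_ofReal_re, Complex.sin_ofReal_re,
    Complex.sin_ofReal_im, Complex.cos_ofReal_im]

theorem max_princ {U : Set ℂ} (hU : IsOpen U) (hb : Bornology.IsBounded U) {φ : ℂ → ℝ}
    (hc : Continuous φ)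
    (hs : ∀ w ∈ U, ∃ r0 : ℝ, 0 < r0 ∧ ∀ r : ℝ, 0 < r → r < r0 →
      φ w ≤ Real.circleAverage φ w r) {m : ℝ}
    (hm : ∀ w ∈ frontier U, φ w ≤ m) : ∀ w ∈ closure U, φ w ≤ m := by
  intro w1 hw1
  by_contra hlt
  rw [not_le] at hlt
  obtain ⟨B, hB⟩ := (hb.closure).exists_norm_le
  have hB0 : 0 ≤ B := (norm_nonneg w1).trans (hB w1 hw1)
  set ε : ℝ := (φ w1 - m) / (2 * (B ^ 2 + 1)) with hε
  have hε0 : 0 < ε := div_pos (by linarith) (by positivity)
  have hεB : ε * B ^ 2 < φ w1 - m := by
    have h1 : ε * (2 * (B ^ 2 + 1)) = φ w1 - m := by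
      rw [hε]
      field_simp
    nlinarith [sq_nonneg B]
  set ψ : ℂ → ℝ := fun w => φ w + ε * ‖w‖ ^ 2 with hψ
  have hψc : Continuous ψ := by
    rw [hψ]
    fun_prop
  obtain ⟨w2, hw2, hmax⟩ := (hb.isCompact_closure).exists_isMaxOn ⟨w1, hw1⟩ hψc.continuousOn
  have hge : ψ w1 ≤ ψ w2 := hmax hw1
  have hw2U : w2 ∈ U := by
    by_contra hn
    have hfr : w2 ∈ frontier U := by
      rw [frontier, hU.interior_eq]
      exact ⟨hw2, hn⟩
    have h1 := hm w2 hfr
    have h2 : ‖w2‖ ^ 2 ≤ B ^ 2 := pow_le_pow_left₀ (norm_nonneg _) (hB w2 hw2) 2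
    have h3 : φ w1 ≤ ψ w1 := by
      rw [hψ]
      have : 0 ≤ ε * ‖w1‖ ^ 2 := by positivity
      simp only
      linarith
    have h4 : ψ w2 ≤ m + ε * B ^ 2 := by
      rw [hψ]
      simp only
      nlinarith
    linarith
  obtain ⟨r0, hr0, hsub⟩ := hs w2 hw2U
  obtain ⟨r1, hr1, hball⟩ := Metric.isOpen_iff.1 hU w2 hw2U
  set r : ℝ := min r0 r1 / 2 with hr
  have hmin : 0 < min r0 r1 := lt_min hr0 hr1
  have hrp : 0 < r := by rw [hr]; positivity
  have hrr0 : r < r0 := by
    have := min_le_left r0 r1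
    rw [hr]
    linarith
  have hrr1 : r < r1 := by
    have := min_le_right r0 r1
    rw [hr]
    linarith
  have hsq : ∀ θ : ℝ, ‖circleMap w2 r θ‖ ^ 2 =
      (‖w2‖ ^ 2 + r ^ 2) + (2 * r * w2.re) * Real.cos θ + (2 * r * w2.im) * Real.sin θ +
        0 * (Real.cos θ ^ 2 - Real.sin θ ^ 2) := by
    intro θ
    rw [← Complex.normSq_eq_norm_sq, ← Complex.normSq_eq_norm_sq, Complex.normSq_apply,
      Complex.normSq_apply, b1_re, b1_im]
    have := Real.sin_sq_add_cos_sq θ
    nlinarith
  have havg2 : Real.circleAverage (fun w : ℂ => ‖w‖ ^ 2) w2 r = ‖w2‖ ^ 2 + r ^ 2 :=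
    b1_avg _ _ _ _ _ _ _ hsq
  have hci1 : CircleIntegrable φ w2 r := hc.continuousOn.circleIntegrable hrp.le
  have hn2 : Continuous fun w : ℂ => ε * ‖w‖ ^ 2 := by fun_prop
  have hci2 : CircleIntegrable (fun w : ℂ => ε * ‖w‖ ^ 2) w2 r :=
    hn2.continuousOn.circleIntegrable hrp.le
  have havgψ : Real.circleAverage ψ w2 r =
      Real.circleAverage φ w2 r + ε * (‖w2‖ ^ 2 + r ^ 2) := by
    rw [hψ, Real.circleAverage_fun_add hci1 hci2]
    congr 1
    have := Real.circleAverage_fun_smul (a := ε) (f := fun w : ℂ => ‖w‖ ^ 2) (c := w2) (R := r)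
    simp only [smul_eq_mul] at this
    rw [this, havg2]
  have hle : Real.circleAverage ψ w2 r ≤ ψ w2 := by
    apply Real.circleAverage_mono_on_of_le_circle (hψc.continuousOn.circleIntegrable hrp.le)
    intro w hw
    rw [abs_of_pos hrp, mem_sphere_iff_norm] at hw
    have hwU : w ∈ U := hball (by rw [Metric.mem_ball, dist_eq_norm, hw]; exact hrr1)
    exact hmax (subset_closure hwU)
  have h5 := hsub r hrp hrr0
  rw [havgψ] at hle
  have h6 : ψ w2 = φ w2 + ε * ‖w2‖ ^ 2 := rfl
  rw [h6] at hle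
  have h7 : 0 < ε * r ^ 2 := by positivity
  nlinarith

theorem Pot.bar {v : ℂ → ℝ} (hv : Pot v) (x r y M : ℝ) (hr : 0 < r) (hy : 0 ≤ y) (hyr : y ≤ r)
    (hM : ∀ z : ℂ, ‖z - (x : ℂ)‖ ≤ r → v z ≤ M) :
    v ((x : ℂ) + (y : ℂ) * Complex.I) ≤ 3 * M * y / r := by
  have hM0 : 0 ≤ M := (hv.nn x).trans (hM x (by simp [hr.le]))
  set h : ℂ → ℝ := fun w => M * (3 * w.im / r + ((w.re - x) ^ 2 - w.im ^ 2) / r ^ 2) with hh
  have hhc : Continuous h := by
    rw [hh]
    fun_prop
  set U : Set ℂ := {w : ℂ | ‖w - (x : ℂ)‖ < r} ∩ {w : ℂ | 0 < w.im} with hU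
  have hUo : IsOpen U := by
    apply IsOpen.inter
    · exact isOpen_lt (by fun_prop) continuous_const
    · exact isOpen_lt continuous_const Complex.continuous_im
  have hUb : Bornology.IsBounded U := by
    apply (Metric.isBounded_ball (x := (x : ℂ)) (r := r)).subset
    intro w hw
    rw [Metric.mem_ball, dist_eq_norm]
    exact hw.1
  have havg : ∀ (w : ℂ) (ρ : ℝ), Real.circleAverage h w ρ = h w := by
    intro w ρ
    apply b1_avg _ _ _ _ (M * (2 * ρ * (w.re - x) / r ^ 2))
      (M * (3 * ρ / r - 2 * ρ * w.im / r ^ 2)) (M * (ρ ^ 2 / r ^ 2))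
    intro θ
    simp only [hh, b1_re, b1_im]
    field_simp
    ring
  set φ : ℂ → ℝ := fun w => v w - h w with hφ
  have hφc : Continuous φ := hv.cont.sub hhc
  have hsub : ∀ w ∈ U, ∃ r0 : ℝ, 0 < r0 ∧ ∀ ρ : ℝ, 0 < ρ → ρ < r0 →
      φ w ≤ Real.circleAverage φ w ρ := by
    intro w _
    refine ⟨1, one_pos, fun ρ hρ _ => ?_⟩
    rw [hφ, Real.circleAverage_fun_sub (hv.cont.continuousOn.circleIntegrable hρ.le)
      (hhc.continuousOn.circleIntegrable hρ.le), havg]
    have := hv.sub w ρ hρ
    simp only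
    linarith
  have hcl : ∀ w ∈ closure U, ‖w - (x : ℂ)‖ ≤ r ∧ 0 ≤ w.im := by
    intro w hw
    constructor
    · have hcl1 : IsClosed {w : ℂ | ‖w - (x : ℂ)‖ ≤ r} := isClosed_le (by fun_prop) continuous_const
      exact closure_minimal (fun z hz => (hz.1 : ‖z - (x : ℂ)‖ < r).le) hcl1 hw
    · have hcl2 : IsClosed {w : ℂ | 0 ≤ w.im} := isClosed_le continuous_const Complex.continuous_im
      exact closure_minimal (fun z hz => (hz.2 : (0 : ℝ) < z.im).le) hcl2 hw
  have hnsq : ∀ w : ℂ, ‖w - (x : ℂ)‖ ^ 2 = (w.re - x) ^ 2 + w.im ^ 2 := by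
    intro w
    rw [← Complex.normSq_eq_norm_sq, Complex.normSq_apply]
    simp
    ring
  have hfr : ∀ w ∈ frontier U, φ w ≤ 0 := by
    intro w hw
    have hwc := hcl w (frontier_subset_closure hw)
    have hwn : w ∉ U := by
      rw [frontier, hUo.interior_eq] at hw
      exact hw.2
    by_cases him : w.im = 0
    · -- on the real line
      have hwr : w = ((w.re : ℝ) : ℂ) := by
        apply Complex.ext
        · simp
        · simp [him]
      have hv0 : v w = 0 := by
        rw [hwr]
        exact hv.real _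
      have : 0 ≤ h w := by
        simp only [hh, him]
        have e : M * (3 * 0 / r + ((w.re - x) ^ 2 - 0 ^ 2) / r ^ 2) =
            M * ((w.re - x) ^ 2 / r ^ 2) := by ring
        rw [e]
        positivity
      simp only [hφ]
      linarith
    · have himp : 0 < w.im := lt_of_le_of_ne hwc.2 (Ne.symm him)
      have heq : ‖w - (x : ℂ)‖ = r := by
        by_contra hne
        exact hwn ⟨lt_of_le_of_ne hwc.1 hne, himp⟩
      have h1 := hnsq w
      rw [heq] at h1
      have h2 : w.im ≤ r := by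
        have : w.im ^ 2 ≤ r ^ 2 := by nlinarith [sq_nonneg (w.re - x)]
        exact (abs_le_of_sq_le_sq' this hr.le).2
      have h3 : v w ≤ M := hM w heq.le
      have h4 : M ≤ h w := by
        have e1 : (w.re - x) ^ 2 = r ^ 2 - w.im ^ 2 := by linarith
        simp only [hh]
        rw [e1]
        have e2 : 3 * w.im / r + (r ^ 2 - w.im ^ 2 - w.im ^ 2) / r ^ 2 =
            1 + w.im * (3 * r - 2 * w.im) / r ^ 2 := by
          field_simp
          ring
        rw [e2]
        have e3 : 0 ≤ w.im * (3 * r - 2 * w.im) / r ^ 2 := by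
          apply div_nonneg (mul_nonneg himp.le (by linarith)) (by positivity)
        nlinarith
      simp only [hφ]
      linarith
  -- the point
  by_cases hy0 : y = 0
  · rw [hy0]
    have : v ((x : ℂ) + ((0 : ℝ) : ℂ) * Complex.I) = 0 := by
      have e : ((x : ℂ) + ((0 : ℝ) : ℂ) * Complex.I) = ((x : ℝ) : ℂ) := by simp
      rw [e]
      exact hv.real x
    rw [this]
    simp
  · have hyp : 0 < y := lt_of_le_of_ne hy (Ne.symm hy0)
    have hmem : ((x : ℂ) + (y : ℂ) * Complex.I) ∈ closure U := by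
      have hcont : Continuous fun t : ℝ => ((x : ℂ) + (t : ℂ) * Complex.I) := by fun_prop
      have hsubs : ∀ t ∈ Ioo (0 : ℝ) r, ((x : ℂ) + (t : ℂ) * Complex.I) ∈ U := by
        intro t ht
        refine ⟨?_, ?_⟩
        · simp only [Set.mem_ofPred_eq, add_sub_cancel_left, norm_mul, Complex.norm_I, mul_one,
            Complex.norm_real, Real.norm_eq_abs, abs_of_pos ht.1]
          exact ht.2
        · simp [ht.1]
      have h1 : y ∈ closure (Ioo (0 : ℝ) r) := by
        rw [closure_Ioo hr.ne]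
        exact ⟨hy, hyr⟩
      have h2 := map_mem_closure hcont h1 (t := U) (fun t ht => hsubs t ht)
      exact h2
    have h1 := max_princ hUo hUb hφc hsub hfr _ hmem
    have h2 : h ((x : ℂ) + (y : ℂ) * Complex.I) = M * (3 * y / r - y ^ 2 / r ^ 2) := by
      simp only [hh]
      simp
      left
      ring
    simp only [hφ] at h1
    rw [h2] at h1
    have h3 : 0 ≤ M * (y ^ 2 / r ^ 2) := by positivity
    have h4 : 3 * M * y / r = M * (3 * y / r) := by ring
    rw [h4]
    nlinarith

end HE
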