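import Mathlib

/-!
# B4. Windows (real analysis)

Otherwise T (exp (2 L i) R2) > exp (η i) T R2 for all i, where R2 = R1, contradicting the polynomial bound
since 2 L κ < η.
-/

set_option autoImplicit false

open Set Filter Topology

namespace HE

theorem window (T : ℝ → ℝ) (hm : ∀ r s : ℝ, 0 < r → r ≤ s → T r ≤ T s) (C κ : ℝ) (hκ : 0 ≤ κ)
    (hg : ∀ R : ℝ, 1 ≤ R → T R ≤ C * R ^ κ) (R1 : ℝ) (hR1 : 1 ≤ R1) (hpos : 0 < T R1) (L η : ℝ)
    (hL : 0 < L) (h : 2 * L * κ < η) :
    ∃ R0 : ℝ, Real.exp L * R1 ≤ R0 ∧ T (Real.exp L * R0) ≤ Real.exp η * T (Real.exp (-L) * R0) := by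
  by_contra hcon
  push Not at hcon
  have hR0 : (0 : ℝ) < R1 := by linarith
  have hstep : ∀ i : ℕ, Real.exp (η * i) * T R1 ≤ T (Real.exp (2 * L * i) * R1) := by
    intro i
    induction i with
    | zero => simp
    | succ i ih =>
      have h1 := hcon (Real.exp (L * (2 * i + 1)) * R1) (by
        apply mul_le_mul_of_nonneg_right _ hR0.le
        apply Real.exp_le_exp.2
        have : (0 : ℝ) ≤ i := Nat.cast_nonneg i
        nlinarith)
      rw [← mul_assoc, ← mul_assoc, ← Real.exp_add, ← Real.exp_add] at h1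
      have e1 : L + L * (2 * i + 1) = 2 * L * ((i + 1 : ℕ) : ℝ) := by push_cast; ring
      have e2 : -L + L * (2 * i + 1) = 2 * L * i := by ring
      rw [e1, e2] at h1
      have e3 : Real.exp (η * ((i + 1 : ℕ) : ℝ)) = Real.exp η * Real.exp (η * i) := by
        rw [← Real.exp_add]
        congr 1
        push_cast
        ring
      rw [e3, mul_assoc]
      exact le_trans (mul_le_mul_of_nonneg_left ih (Real.exp_pos η).le) h1.le
  have hbd : ∀ i : ℕ, Real.exp ((η - 2 * L * κ) * i) * T R1 ≤ C * R1 ^ κ := by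
    intro i
    have hi : (0 : ℝ) ≤ i := Nat.cast_nonneg i
    have h1 : 1 ≤ Real.exp (2 * L * i) * R1 := by
      have : 1 ≤ Real.exp (2 * L * i) := Real.one_le_exp (by positivity)
      nlinarith
    have h2 := (hstep i).trans (hg _ h1)
    have e1 : (Real.exp (2 * L * i) * R1) ^ κ = Real.exp (2 * L * κ * i) * R1 ^ κ := by
      rw [Real.mul_rpow (Real.exp_pos _).le hR0.le, ← Real.exp_mul]
      congr 2
      ring
    rw [e1] at h2
    have e2 : Real.exp (η * i) = Real.exp ((η - 2 * L * κ) * i) * Real.exp (2 * L * κ * i) := by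
      rw [← Real.exp_add]
      congr 1
      ring
    rw [e2] at h2
    have h3 : 0 < Real.exp (2 * L * κ * i) := Real.exp_pos _
    have h4 : (Real.exp ((η - 2 * L * κ) * i) * T R1) * Real.exp (2 * L * κ * i) ≤
        (C * R1 ^ κ) * Real.exp (2 * L * κ * i) := by
      calc _ = Real.exp ((η - 2 * L * κ) * i) * Real.exp (2 * L * κ * i) * T R1 := by ring
        _ ≤ C * (Real.exp (2 * L * κ * i) * R1 ^ κ) := h2
        _ = _ := by ring
    exact le_of_mul_le_mul_right h4 h3
  have hε : 0 < η - 2 * L * κ := by linarith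
  obtain ⟨n, hn⟩ := exists_nat_gt (C * R1 ^ κ / T R1 / (η - 2 * L * κ))
  have h5 := hbd n
  have h6 : (η - 2 * L * κ) * n + 1 ≤ Real.exp ((η - 2 * L * κ) * n) := Real.add_one_le_exp _
  rw [div_lt_iff₀ hε, div_lt_iff₀ hpos] at hn
  nlinarith

end HE
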