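import Pool.Agent.Lib.MP_904526_P.A4
import Pool.Agent.Lib.MP_904526_P.B3
import Pool.Agent.Lib.MP_904526_P.B4

/-!
# C1. The rescaled curve

Y w = ψ (w^2) is a `Cv`; v = G ∘ Y. If v = 0 then ‖Y‖ ≤ 6 (km_of_G, kkm_bd), so ψ is constant (Liouville).
For R ≥ 1, ‖w‖ ≤ 2R: v w ≤ posLog + 5 ≤ C (1+4R^2)^(1/2+δ) + 5 ≤ C' R^(1+2δ), so TT v R ≤ 3 C' R^(2δ).
Take R1 with TT v R1 > 0 and R1 ≥ 1, R1 ≥ 1/TT v R1; window with κ = 2δ gives R0; k with
2^k ≤ R0 TT v R0 < 2^(k+1); A w = F^[k] (Y (R0 w)); TT_scale.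
-/

set_option autoImplicit false

open Set Filter Topology MeasureTheory

namespace HE

private theorem C1_Y {c b : ℝ} (ψ : ℂ → P) (hd : Differentiable ℂ ψ)
    (hs : ∀ s, ψ ((starRingEnd ℂ) s) = cj (ψ s)) (hkp : ∀ s, ψ s ∈ Kp c b)
    (hkm : ∀ t : ℝ, 0 ≤ t → ψ (t : ℂ) ∈ Km c b) : Cv c b (fun w => ψ (w ^ 2)) where
  diff := hd.comp (differentiable_id.pow 2)
  sym w := by rw [← hs, map_pow]
  kp w := hkp _
  km t := by
    have := hkm (t ^ 2) (sq_nonneg t)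
    rw [Complex.ofReal_pow] at this
    exact this

private theorem C1_pos {c b : ℝ} (h : Par c b) (ψ : ℂ → P) (hd : Differentiable ℂ ψ)
    (hkp : ∀ s, ψ s ∈ Kp c b) (hnc : ∃ s, ψ s ≠ ψ 0)
    (hnn : ∀ w : ℂ, 0 ≤ G c b (ψ (w ^ 2))) : ∃ w : ℂ, 0 < G c b (ψ (w ^ 2)) := by
  by_contra hcon
  push Not at hcon
  have h0 : ∀ w : ℂ, G c b (ψ (w ^ 2)) = 0 := fun w => le_antisymm (hcon w) (hnn w)
  have hb : Bornology.IsBounded (range (fun w : ℂ => ψ (w ^ 2))) := by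
    rw [isBounded_iff_forall_norm_le]
    refine ⟨Real.exp 5, ?_⟩
    rintro _ ⟨w, rfl⟩
    have := norm_le_of_G h (hkp (w ^ 2))
    rwa [h0, zero_add] at this
  have hdY : Differentiable ℂ (fun w : ℂ => ψ (w ^ 2)) := hd.comp (differentiable_id.pow 2)
  obtain ⟨s, hs⟩ := hnc
  obtain ⟨w, hw⟩ := IsAlgClosed.exists_pow_nat_eq s (n := 2) (by norm_num)
  have key := hdY.apply_eq_apply_of_bounded hb w 0
  simp only [hw, ne_eq, OfNat.ofNat_ne_zero, not_false_eq_true, zero_pow] at key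
  exact hs key

theorem rescale {c b : ℝ} (h : Par c b) (ψ : ℂ → P) (hd : Differentiable ℂ ψ)
    (hs : ∀ s, ψ ((starRingEnd ℂ) s) = cj (ψ s)) (hkp : ∀ s, ψ s ∈ Kp c b)
    (hkm : ∀ t : ℝ, 0 ≤ t → ψ (t : ℂ) ∈ Km c b) (hnc : ∃ s, ψ s ≠ ψ 0) (δ C : ℝ) (hδ : 0 ≤ δ)
    (hg : ∀ s : ℂ, Real.posLog ‖ψ s‖ ≤ C * (1 + ‖s‖) ^ (1 / 2 + δ)) (L η : ℝ) (hL : 0 < L)
    (hη : 4 * L * δ < η) :
    ∃ A : ℂ → P, Cv c b A ∧ 1 ≤ TT (fun w => G c b (A w)) 1 ∧ TT (fun w => G c b (A w)) 1 < 2 ∧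
      TT (fun w => G c b (A w)) (Real.exp L) ≤
        Real.exp η * TT (fun w => G c b (A w)) (Real.exp (-L)) := by
  have hY := C1_Y ψ hd hs hkp hkm
  have hb : b ≠ 0 := by
    intro hb
    have := h.b0
    rw [hb, abs_zero] at this
    linarith
  have hv := Cv.pot h hY
  obtain ⟨w0, hw0⟩ := C1_pos h ψ hd hkp hnc hv.nn
  set v : ℂ → ℝ := fun w => G c b (ψ (w ^ 2)) with hvd
  -- polynomial growth
  have hC : 0 ≤ C := by
    have := hg 0
    rw [norm_zero, add_zero, Real.one_rpow, mul_one] at this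
    exact Real.posLog_nonneg.trans this
  set C' : ℝ := C * 5 ^ (1 / 2 + δ) + 5 with hC'
  have hC'0 : 0 ≤ C' := by positivity
  have hgr : ∀ R : ℝ, 1 ≤ R → TT v R ≤ (3 * C') * R ^ (2 * δ) := by
    intro R hR
    have hR0 : 0 < R := by linarith
    have hM : ∀ w : ℂ, ‖w‖ ≤ 2 * R → v w ≤ C' * R ^ (1 + 2 * δ) := by
      intro w hw
      have e1 := (abs_le.1 (G_lp h (hkp (w ^ 2)))).2
      have e2 := hg (w ^ 2)
      have e3 : 1 + ‖w ^ 2‖ ≤ 5 * R ^ 2 := by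
        rw [norm_pow]
        have := pow_le_pow_left₀ (norm_nonneg w) hw 2
        nlinarith
      have e4 : (1 + ‖w ^ 2‖) ^ (1 / 2 + δ) ≤ (5 * R ^ 2) ^ (1 / 2 + δ) :=
        Real.rpow_le_rpow (by positivity) e3 (by linarith)
      have e5 : (5 * R ^ 2) ^ (1 / 2 + δ) = 5 ^ (1 / 2 + δ) * R ^ (1 + 2 * δ) := by
        rw [Real.mul_rpow (by norm_num) (by positivity), ← Real.rpow_natCast, ← Real.rpow_mul hR0.le]
        congr 2
        push_cast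
        ring
      have e6 : 1 ≤ R ^ (1 + 2 * δ) := Real.one_le_rpow hR (by linarith)
      have e7 : C * (1 + ‖w ^ 2‖) ^ (1 / 2 + δ) ≤ C * (5 ^ (1 / 2 + δ) * R ^ (1 + 2 * δ)) := by
        rw [← e5]; exact mul_le_mul_of_nonneg_left e4 hC
      have e8 : C' * R ^ (1 + 2 * δ) = C * (5 ^ (1 / 2 + δ) * R ^ (1 + 2 * δ)) + 5 * R ^ (1 + 2 * δ) := by
        rw [hC']; ring
      rw [e8]
      simp only [hvd]
      linarith
    have key := TT_bd hv hR0 hM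
    refine key.trans (le_of_eq ?_)
    rw [Real.rpow_add hR0, Real.rpow_one]
    field_simp
  -- choice of the scale
  set R1 : ℝ := max 1 (‖w0‖ + 1) with hR1
  have hR11 : 1 ≤ R1 := le_max_left _ _
  have hR1w : ‖w0‖ < R1 := by
    have := le_max_right 1 (‖w0‖ + 1)
    linarith
  have hτ : 0 < TT v R1 := TT_pos hv hw0 hR1w
  set R2 : ℝ := max R1 (1 / TT v R1) with hR2
  have hR21 : R1 ≤ R2 := le_max_left _ _
  have hR22 : 1 / TT v R1 ≤ R2 := le_max_right _ _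
  have hτ2 : TT v R1 ≤ TT v R2 := TT_mono hv (by linarith) hR21
  obtain ⟨R0, hR0, hwin⟩ := window (TT v) (fun r s hr hrs => TT_mono hv hr hrs) (3 * C') (2 * δ)
    (by linarith) hgr R2 (by linarith) (by linarith) L η hL (by linarith)
  have hR20 : R2 ≤ R0 := by
    have h1 : 1 ≤ Real.exp L := Real.one_le_exp hL.le
    nlinarith
  have hR0p : 0 < R0 := by linarith
  have hx : 1 ≤ R0 * TT v R0 := by
    have h1 : TT v R2 ≤ TT v R0 := TT_mono hv (by linarith) hR20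
    have h2 : 1 ≤ R2 * TT v R1 := by
      rw [div_le_iff₀ hτ] at hR22
      linarith
    calc 1 ≤ R2 * TT v R1 := h2
      _ ≤ R0 * TT v R0 := mul_le_mul hR20 (by linarith) hτ.le hR0p.le
  obtain ⟨k, hk1, hk2⟩ := exists_nat_pow_near hx (one_lt_two)
  have hYa : Cv c b (fun w => (fun w => ψ (w ^ 2)) ((R0 : ℂ) * w)) := by
    have := Cv.aff hY 0 R0
    simpa only [Complex.ofReal_zero, zero_add] using this
  have hA : Cv c b (fun w => (F c b)^[k] ((fun w => ψ (w ^ 2)) ((R0 : ℂ) * w))) :=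
    Cv.Fiter hb hYa k
  have hGA : (fun w => G c b ((F c b)^[k] ((fun w => ψ (w ^ 2)) ((R0 : ℂ) * w)))) =
      fun w => (1 / 2 ^ k : ℝ) * v ((R0 : ℂ) * w) := by
    funext w
    rw [G_Fiter h (hYa.kp w)]
    simp only [hvd]
    ring
  have hsc : ∀ R : ℝ, TT (fun w => G c b ((F c b)^[k] ((fun w => ψ (w ^ 2)) ((R0 : ℂ) * w)))) R =
      (1 / 2 ^ k : ℝ) * R0 * TT v (R0 * R) := by
    intro R
    rw [hGA]
    exact TT_scale hv (by positivity) hR0p R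
  refine ⟨_, hA, ?_, ?_, ?_⟩
  · rw [hsc, mul_one, mul_assoc, one_div, ← div_eq_inv_mul, le_div_iff₀ (by positivity), one_mul]
    exact hk1
  · rw [hsc, mul_one, mul_assoc, one_div, ← div_eq_inv_mul, div_lt_iff₀ (by positivity)]
    rw [pow_succ] at hk2
    linarith
  · rw [hsc, hsc, mul_comm R0 (Real.exp L), mul_comm R0 (Real.exp (-L))]
    have : 0 ≤ (1 / 2 ^ k : ℝ) * R0 := by positivity
    calc (1 / 2 ^ k : ℝ) * R0 * TT v (Real.exp L * R0) ≤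
          (1 / 2 ^ k : ℝ) * R0 * (Real.exp η * TT v (Real.exp (-L) * R0)) :=
          mul_le_mul_of_nonneg_left hwin this
      _ = _ := by ring

end HE
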