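import Pool.Agent.Lib.MP_904526_P.A4
import Pool.Agent.Lib.MP_904526_an.Defs

/-!
# D0. Real points of a curve

gR is the real inverse Henon map, DgR its derivative, re2 the real part of a point. For a curve A and
real w put a n w = re2 (g^[n] (A w)), V n w = re2 (deriv (g^[n] ∘ A) w). By Cv.im, Cv.dim (applied to
Cv.giter) nothing is lost.
-/

set_option autoImplicit false

open Set Filter Topology MeasureTheory

namespace HE

open MD (E)

noncomputable def gR (c b : ℝ) (p : E) : E := (p.2, (p.2 ^ 2 + c - p.1) / b)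

noncomputable def DgR (b : ℝ) (p : E) : E →L[ℝ] E :=
  (ContinuousLinearMap.snd ℝ ℝ ℝ).prod
    (b⁻¹ • ((2 * p.2) • ContinuousLinearMap.snd ℝ ℝ ℝ - ContinuousLinearMap.fst ℝ ℝ ℝ))

def re2 (p : P) : E := (p.1.re, p.2.re)

/-- the n-th image of the curve, real points -/
noncomputable def an (c b : ℝ) (A : ℂ → P) (n : ℕ) (w : ℝ) : E := re2 ((g c b)^[n] (A (w : ℂ)))

/-- its velocity -/
noncomputable def Vn (c b : ℝ) (A : ℂ → P) (n : ℕ) (w : ℝ) : E :=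
  re2 (deriv (fun z : ℂ => (g c b)^[n] (A z)) (w : ℂ))

theorem gR_ex (c b : ℝ) (p d : E) : gR c b (p + d) = gR c b p + DgR b p d + (0, d.2 ^ 2 / b) := by
  refine Prod.ext ?_ ?_
  · simp [gR, DgR]
  · simp only [gR, DgR, Prod.snd_add, Prod.fst_add, ContinuousLinearMap.prod_apply,
      ContinuousLinearMap.coe_snd', smul_apply, sub_apply,
      ContinuousLinearMap.coe_fst', smul_eq_mul]
    ring

theorem D0_DgR_apply (b : ℝ) (p v : E) :
    DgR b p v = (v.2, b⁻¹ * (2 * p.2 * v.2 - v.1)) := by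
  simp [DgR]

theorem DgR_norm {c b : ℝ} (h : Par c b) {p : E} (hp : ‖p‖ ≤ 6) : ‖DgR b p‖ ≤ 65 := by
  refine ContinuousLinearMap.opNorm_le_bound _ (by norm_num) fun v => ?_
  rw [D0_DgR_apply, Prod.norm_def]
  have hv1 : |v.1| ≤ ‖v‖ := norm_fst_le v
  have hv2 : |v.2| ≤ ‖v‖ := norm_snd_le v
  have hp2 : |p.2| ≤ 6 := (norm_snd_le p).trans hp
  have hb : |b⁻¹| ≤ 5 := by
    rw [abs_inv]
    calc |b|⁻¹ ≤ (1 / 5 : ℝ)⁻¹ := inv_anti₀ (by norm_num) h.b0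
      _ = 5 := by norm_num
  have hn : 0 ≤ ‖v‖ := norm_nonneg v
  refine max_le ?_ ?_
  · rw [Real.norm_eq_abs]
    linarith
  · rw [Real.norm_eq_abs, abs_mul]
    have h1 : |2 * p.2 * v.2 - v.1| ≤ 13 * ‖v‖ := by
      calc |2 * p.2 * v.2 - v.1| ≤ |2 * p.2 * v.2| + |v.1| := abs_sub _ _
        _ = 2 * (|p.2| * |v.2|) + |v.1| := by rw [abs_mul, abs_mul, abs_two]; ring
        _ ≤ 2 * (6 * ‖v‖) + ‖v‖ := by
            have := mul_le_mul hp2 hv2 (abs_nonneg _) (by norm_num)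
            linarith
        _ = 13 * ‖v‖ := by ring
    calc |b⁻¹| * |2 * p.2 * v.2 - v.1| ≤ 5 * (13 * ‖v‖) :=
          mul_le_mul hb h1 (abs_nonneg _) (by norm_num)
      _ = 65 * ‖v‖ := by ring

theorem DgR_dt (b : ℝ) (p : E) : MD.dt (DgR b p) = 1 / b := by
  unfold MD.dt MD.wg
  rw [D0_DgR_apply, D0_DgR_apply]
  simp

theorem D0_ofReal {z : ℂ} (hz : z.im = 0) : z = ((z.re : ℝ) : ℂ) :=
  Complex.ext (by simp) (by simpa using hz)

theorem D0_re2_g (c b : ℝ) {q : P} (h1 : q.1.im = 0) (h2 : q.2.im = 0) :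
    re2 (g c b q) = gR c b (re2 q) := by
  obtain ⟨x, y⟩ := q
  have hx : x = ((x.re : ℝ) : ℂ) := D0_ofReal h1
  have hy : y = ((y.re : ℝ) : ℂ) := D0_ofReal h2
  unfold re2 g gR
  refine Prod.ext rfl ?_
  change ((y ^ 2 + (c : ℂ) - x) / (b : ℂ)).re = (y.re ^ 2 + c - x.re) / b
  conv_lhs => rw [hx, hy]
  rw [show (((y.re : ℝ) : ℂ) ^ 2 + (c : ℂ) - ((x.re : ℝ) : ℂ)) / (b : ℂ) =
    (((y.re ^ 2 + c - x.re) / b : ℝ) : ℂ) by push_cast; rfl, Complex.ofReal_re]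

theorem an_succ {c b : ℝ} {A : ℂ → P} (hb : b ≠ 0) (hA : Cv c b A) (n : ℕ) (w : ℝ) :
    an c b A (n + 1) w = gR c b (an c b A n w) := by
  unfold an
  rw [Function.iterate_succ_apply']
  have h := (hA.giter hb n).im w
  exact D0_re2_g c b h.1 h.2

theorem D0_re2_le (q : P) : ‖re2 q‖ ≤ ‖q‖ := by
  rw [Prod.norm_def, Prod.norm_def]
  exact max_le_max (Complex.abs_re_le_norm q.1) (Complex.abs_re_le_norm q.2)

theorem D0_re2_norm {q : P} (h1 : q.1.im = 0) (h2 : q.2.im = 0) : ‖re2 q‖ = ‖q‖ := by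
  rw [Prod.norm_def, Prod.norm_def]
  have e1 : ‖q.1‖ = ‖q.1.re‖ := by
    conv_lhs => rw [D0_ofReal h1]
    exact Complex.norm_real _
  have e2 : ‖q.2‖ = ‖q.2.re‖ := by
    conv_lhs => rw [D0_ofReal h2]
    exact Complex.norm_real _
  rw [e1, e2]
  rfl

theorem an_bd {c b : ℝ} {A : ℂ → P} (h : Par c b) (hA : Cv c b A) (n : ℕ) (w : ℝ) :
    ‖an c b A n w‖ ≤ 6 :=
  (D0_re2_le _).trans (kkm_bd h (kp_giter h.ne (hA.kp _) n) (km_giter (hA.km w) n))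

theorem D0_re2_deriv {B : ℂ → P} {D : P} {w : ℝ} (hB : HasDerivAt B D (w : ℂ)) :
    HasDerivAt (fun s : ℝ => re2 (B (s : ℂ))) (re2 D) w := by
  have hf1 : HasDerivAt (fun z => (B z).1) D.1 (w : ℂ) :=
    (ContinuousLinearMap.fst ℂ ℂ ℂ).hasFDerivAt.comp_hasDerivAt _ hB
  have hf2 : HasDerivAt (fun z => (B z).2) D.2 (w : ℂ) :=
    (ContinuousLinearMap.snd ℂ ℂ ℂ).hasFDerivAt.comp_hasDerivAt _ hB
  have h1 : HasDerivAt (fun s : ℝ => (B (s : ℂ)).1.re) D.1.re w :=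
    Complex.reCLM.hasFDerivAt.comp_hasDerivAt w hf1.comp_ofReal
  have h2 : HasDerivAt (fun s : ℝ => (B (s : ℂ)).2.re) D.2.re w :=
    Complex.reCLM.hasFDerivAt.comp_hasDerivAt w hf2.comp_ofReal
  exact h1.prodMk h2

theorem an_hasDeriv {c b : ℝ} {A : ℂ → P} (hb : b ≠ 0) (hA : Cv c b A) (n : ℕ) (w : ℝ) :
    HasDerivAt (an c b A n) (Vn c b A n w) w :=
  D0_re2_deriv ((hA.giter hb n).diff _).hasDerivAt

theorem D0_re2_cont : Continuous re2 :=
  (Complex.continuous_re.comp continuous_fst).prodMk (Complex.continuous_re.comp continuous_snd)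

theorem Vn_cont {c b : ℝ} {A : ℂ → P} (hb : b ≠ 0) (hA : Cv c b A) (n : ℕ) :
    Continuous (Vn c b A n) := by
  have h1 : ContDiff ℂ 1 (fun z : ℂ => (g c b)^[n] (A z)) := (hA.giter hb n).diff.contDiff
  have h2 : Continuous (deriv (fun z : ℂ => (g c b)^[n] (A z))) := h1.continuous_deriv le_rfl
  exact D0_re2_cont.comp (h2.comp Complex.continuous_ofReal)

theorem Vn_norm {c b : ℝ} {A : ℂ → P} (hb : b ≠ 0) (hA : Cv c b A) (n : ℕ) (w : ℝ) :
    ‖Vn c b A n w‖ = ‖deriv (fun z : ℂ => (g c b)^[n] (A z)) (w : ℂ)‖ := by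
  have h := (hA.giter hb n).dim w
  exact D0_re2_norm h.1 h.2

theorem D0_gR_fderiv (c b : ℝ) (p : E) : HasFDerivAt (gR c b) (DgR b p) p := by
  have h1 : HasFDerivAt (fun q : E => q.2 ^ 2) ((2 * p.2) • ContinuousLinearMap.snd ℝ ℝ ℝ) p := by
    have h := (hasFDerivAt_snd (𝕜 := ℝ) (p := p)).pow 2
    simpa using h
  have h2 : HasFDerivAt (fun q : E => b⁻¹ * (q.2 ^ 2 + c - q.1))
      (b⁻¹ • ((2 * p.2) • ContinuousLinearMap.snd ℝ ℝ ℝ - ContinuousLinearMap.fst ℝ ℝ ℝ)) p :=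
    ((h1.add_const c).sub hasFDerivAt_fst).const_mul b⁻¹
  have h3 : gR c b = fun q : E => (q.2, b⁻¹ * (q.2 ^ 2 + c - q.1)) := by
    funext q
    unfold gR
    rw [div_eq_inv_mul]
  rw [h3]
  exact hasFDerivAt_snd.prodMk h2

theorem Vn_succ {c b : ℝ} {A : ℂ → P} (hb : b ≠ 0) (hA : Cv c b A) (n : ℕ) (w : ℝ) :
    Vn c b A (n + 1) w = DgR b (an c b A n w) (Vn c b A n w) := by
  have h1 := an_hasDeriv hb hA (n + 1) w
  have h2 : HasDerivAt (fun s => gR c b (an c b A n s)) (DgR b (an c b A n w) (Vn c b A n w)) w :=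
    (D0_gR_fderiv c b (an c b A n w)).comp_hasDerivAt w (an_hasDeriv hb hA n w)
  have h3 : an c b A (n + 1) = fun s => gR c b (an c b A n s) := funext fun s => an_succ hb hA n s
  rw [h3] at h1
  exact h1.unique h2

theorem Vn_low {c b : ℝ} {A : ℂ → P} (h : Par c b) (hA : Cv c b A) (n : ℕ) (w : ℝ) :
    ‖Vn c b A n w‖ ≤ 13 * ‖Vn c b A (n + 1) w‖ := by
  have hb := h.ne
  have h1 := Vn_succ hb hA n w
  rw [D0_DgR_apply] at h1
  set v := Vn c b A n w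
  set u := Vn c b A (n + 1) w
  set p := an c b A n w with hpdef
  have hp : |p.2| ≤ 6 := (norm_snd_le p).trans (an_bd h hA n w)
  have e1 : v.2 = u.1 := by rw [h1]
  have e2 : v.1 = 2 * p.2 * u.1 - b * u.2 := by
    rw [h1]
    change v.1 = 2 * p.2 * v.2 - b * (b⁻¹ * (2 * p.2 * v.2 - v.1))
    rw [mul_inv_cancel_left₀ hb]
    ring
  have hu1 : |u.1| ≤ ‖u‖ := norm_fst_le u
  have hu2 : |u.2| ≤ ‖u‖ := norm_snd_le u
  have hn : 0 ≤ ‖u‖ := norm_nonneg u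
  rw [Prod.norm_def]
  refine max_le ?_ ?_
  · rw [Real.norm_eq_abs, e2]
    calc |2 * p.2 * u.1 - b * u.2| ≤ |2 * p.2 * u.1| + |b * u.2| := abs_sub _ _
      _ = 2 * (|p.2| * |u.1|) + |b| * |u.2| := by rw [abs_mul, abs_mul, abs_mul, abs_two]; ring
      _ ≤ 2 * (6 * ‖u‖) + 2 / 5 * ‖u‖ := by
          have i1 := mul_le_mul hp hu1 (abs_nonneg _) (by norm_num)
          have i2 := mul_le_mul h.b1 hu2 (abs_nonneg _) (by norm_num)
          linarith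
      _ ≤ 13 * ‖u‖ := by linarith
  · rw [Real.norm_eq_abs, e1]
    linarith

end HE
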