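import Pool.Agent.Lib.MP_904526_P.A5
import Pool.Agent.Lib.MP_904526_P.A6

/-!
# D1. The compact family of curves with linear Green function

resc: G_giter and the imaginary part of s/2^n. bd: norm_le_of_G. up: Cauchy estimate on the disc of radius 1.
nonconst: Green function t |Im w| is not constant.
sub: otherwise there are η > 0 and curves A j with |{s ∈ [0,1] : ‖deriv (A j) s‖ < 1/(j+1)}| > η; montel gives a
limit A0 (lim_curve with constant parameters: G (A0 w) = t |Im w|); derivatives converge locally uniformly; the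
limsup of the sets has measure ≥ η and deriv A0 = 0 on it; a set of positive measure is infinite and bounded, so the zeros
accumulate and deriv A0 = 0 identically: A0 is constant, contradiction.
-/

set_option autoImplicit false

open Set Filter Topology MeasureTheory

namespace HE

theorem Lin.resc {c b t : ℝ} {A : ℂ → P} (h : Par c b) (hA : Lin c b t A) (n : ℕ) (w0 : ℝ) :
    Lin c b t (fun s => (g c b)^[n] (A ((w0 : ℂ) + (((1 / 2 ^ n : ℝ)) : ℂ) * s))) where
  toCv := (hA.toCv.giter h.ne n).aff w0 (1 / 2 ^ n)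
  lin w := by
    have hp : (0 : ℝ) < 2 ^ n := by positivity
    rw [G_giter h (hA.kp _), hA.lin]
    have h1 : ((w0 : ℂ) + (((1 / 2 ^ n : ℝ)) : ℂ) * w).im = 1 / 2 ^ n * w.im := by
      rw [Complex.add_im, Complex.ofReal_im, Complex.im_ofReal_mul, zero_add]
    rw [h1, abs_mul, abs_of_pos (by positivity)]
    field_simp

theorem Lin.bd {c b t : ℝ} {A : ℂ → P} (h : Par c b) (ht : 0 ≤ t) (hA : Lin c b t A) (w : ℂ) :
    ‖A w‖ ≤ Real.exp (t * ‖w‖ + 5) := by
  refine (norm_le_of_G h (hA.kp w)).trans (Real.exp_le_exp.2 ?_)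
  rw [hA.lin]
  have := mul_le_mul_of_nonneg_left (Complex.abs_im_le_norm w) ht
  linarith

theorem Lin.up {c b t : ℝ} (h : Par c b) (ht : 0 ≤ t) :
    ∃ C : ℝ, 0 < C ∧ ∀ A : ℂ → P, Lin c b t A → ‖deriv A 0‖ ≤ C := by
  refine ⟨Real.exp (t + 5), Real.exp_pos _, fun A hA => ?_⟩
  have h1 := Complex.norm_deriv_le_of_forall_mem_sphere_norm_le (c := 0) (R := 1)
    (C := Real.exp (t + 5)) (f := A) one_pos hA.diff.diffContOnCl ?_
  · rwa [div_one] at h1
  · intro z hz
    rw [mem_sphere_zero_iff_norm] at hz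
    have := hA.bd h ht z
    rwa [hz, mul_one] at this

theorem D1_an {A : ℂ → P} (hA : Differentiable ℂ A) :
    AnalyticOnNhd ℝ (fun s : ℝ => deriv A (s : ℂ)) univ := by
  have h1 : AnalyticOnNhd ℂ A univ := fun z _ => hA.analyticAt z
  have h2 : AnalyticOnNhd ℂ (deriv A) univ := h1.deriv
  have h3 : AnalyticOnNhd ℝ (deriv A) univ := h2.restrictScalars
  have h4 : AnalyticOnNhd ℝ (fun s : ℝ => (s : ℂ)) univ :=
    fun s _ => Complex.ofRealCLM.analyticAt s
  exact h3.comp h4 fun _ _ => mem_univ _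

theorem Lin.nonconst {c b t : ℝ} {A : ℂ → P} (ht : 0 < t) (hA : Lin c b t A) :
    ∃ w : ℝ, deriv A (w : ℂ) ≠ 0 := by
  by_contra hcon
  push Not at hcon
  have h1 : AnalyticOnNhd ℂ (deriv A) univ :=
    AnalyticOnNhd.deriv fun z _ => hA.diff.analyticAt z
  have h2 : ∃ᶠ z in 𝓝[≠] (0 : ℂ), deriv A z = 0 := by
    have h3 : Tendsto (fun n : ℕ => (((1 : ℝ) / ((n : ℝ) + 1) : ℝ) : ℂ)) atTop (𝓝[≠] 0) := by
      rw [tendsto_nhdsWithin_iff]
      refine ⟨?_, Eventually.of_forall fun n => ?_⟩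
      · rw [← Complex.ofReal_zero]
        exact (Complex.continuous_ofReal.tendsto 0).comp tendsto_one_div_add_atTop_nhds_zero_nat
      · rw [mem_compl_iff, mem_singleton_iff, Complex.ofReal_eq_zero]
        positivity
    exact h3.frequently (Frequently.of_forall fun n => hcon _)
  have h4 := h1.eq_of_frequently_eq (g := fun _ => (0 : P)) (fun z _ => analyticAt_const) h2
  have h5 : ∀ z w, A z = A w := by
    intro z w
    exact is_const_of_deriv_eq_zero hA.diff (fun x => congrFun h4 x) z w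
  have h6 := hA.lin Complex.I
  have h7 := hA.lin 0
  rw [h5 Complex.I 0, h7] at h6
  simp at h6
  linarith

theorem D1_tend {A : ℂ → P} (hA : Differentiable ℂ A) {w : ℝ} (hw : deriv A (w : ℂ) ≠ 0) :
    Tendsto (fun m : ℕ => volume {s : ℝ | s ∈ Icc (0 : ℝ) 1 ∧
      ‖deriv A (s : ℂ)‖ ≤ 1 / ((m : ℝ) + 1)}) atTop (𝓝 0) := by
  have hc : Continuous fun s : ℝ => ‖deriv A (s : ℂ)‖ := by
    have h1 : Continuous (deriv A) := by
      have : AnalyticOnNhd ℂ (deriv A) univ :=
        AnalyticOnNhd.deriv fun z _ => hA.analyticAt z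
      exact continuousOn_univ.1 this.continuousOn
    exact (h1.comp Complex.continuous_ofReal).norm
  have h0 : volume {s : ℝ | deriv A (s : ℂ) = 0} = 0 := by
    have h1 := (D1_an hA).preimage_zero_mem_codiscrete (x := w) hw
    have h2 := ae_restrict_le_codiscreteWithin (μ := (volume : Measure ℝ)) MeasurableSet.univ h1
    rw [Measure.restrict_univ, mem_ae_iff] at h2
    refine measure_mono_null ?_ h2
    intro s hs
    simpa using hs
  have h1 := tendsto_measure_iInter_atTop (μ := (volume : Measure ℝ))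
    (s := fun m : ℕ => {s : ℝ | s ∈ Icc (0 : ℝ) 1 ∧ ‖deriv A (s : ℂ)‖ ≤ 1 / ((m : ℝ) + 1)}) ?_ ?_ ?_
  · have h2 : volume (⋂ m : ℕ, {s : ℝ | s ∈ Icc (0 : ℝ) 1 ∧
        ‖deriv A (s : ℂ)‖ ≤ 1 / ((m : ℝ) + 1)}) = 0 := by
      refine measure_mono_null ?_ h0
      intro s hs
      rw [mem_iInter] at hs
      have h3 : ‖deriv A (s : ℂ)‖ ≤ 0 :=
        ge_of_tendsto' tendsto_one_div_add_atTop_nhds_zero_nat fun m => (hs m).2
      exact norm_le_zero_iff.1 h3
    rw [h2] at h1
    exact h1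
  · intro m
    refine (IsClosed.measurableSet ?_).nullMeasurableSet
    exact isClosed_Icc.inter (isClosed_le hc continuous_const)
  · intro m n hmn s hs
    refine ⟨hs.1, hs.2.trans ?_⟩
    exact one_div_le_one_div_of_le (by positivity) (by
      have : (m : ℝ) ≤ n := by exact_mod_cast hmn
      linarith)
  · refine ⟨0, ne_of_lt (lt_of_le_of_lt (measure_mono (t := Icc (0 : ℝ) 1) fun s hs => hs.1) ?_)⟩
    rw [Real.volume_Icc]
    exact ENNReal.ofReal_lt_top

theorem Lin.sub {c b t : ℝ} (h : Par c b) (ht : 0 < t) (η : ℝ) (hη : 0 < η) :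
    ∃ d : ℝ, 0 < d ∧ ∀ A : ℂ → P, Lin c b t A →
      volume {s : ℝ | s ∈ Icc (0 : ℝ) 1 ∧ ‖deriv A (s : ℂ)‖ < d} ≤ ENNReal.ofReal η := by
  by_contra hcon
  push Not at hcon
  have hc2 : ∀ j : ℕ, ∃ A : ℂ → P, Lin c b t A ∧ ENNReal.ofReal η <
      volume {s : ℝ | s ∈ Icc (0 : ℝ) 1 ∧ ‖deriv A (s : ℂ)‖ < 1 / ((j : ℝ) + 1)} :=
    fun j => hcon _ (by positivity)
  choose A hA hAv using hc2
  obtain ⟨φ, hφ, A0, hd0, hl⟩ := montel (A := A) (fun j => (hA j).diff) (by
    intro R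
    refine ⟨Real.exp (t * R + 5), Eventually.of_forall fun j w hw => ?_⟩
    refine ((hA j).bd h ht.le w).trans (Real.exp_le_exp.2 ?_)
    nlinarith)
  obtain ⟨hCv, hG⟩ := lim_curve (c := fun _ => c) (b := fun _ => b) (fun _ => h) tendsto_const_nhds
    tendsto_const_nhds (fun j => (hA (φ j)).toCv) hl
  have hLin : Lin c b t A0 := by
    refine ⟨hCv, fun w => ?_⟩
    have h1 := (tendstoLocallyUniformlyOn_univ.2 hG).tendsto_at (mem_univ w)
    have h2 : (fun j => G c b (A (φ j) w)) = fun _ => t * |w.im| := by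
      funext j
      exact (hA (φ j)).lin w
    simp only [h2] at h1
    exact tendsto_nhds_unique h1 tendsto_const_nhds
  obtain ⟨w, hw⟩ := hLin.nonconst ht
  have h2 := D1_tend hd0 hw
  obtain ⟨m, hm⟩ := (h2.eventually (gt_mem_nhds (ENNReal.ofReal_pos.2 hη))).exists
  have hl' : TendstoLocallyUniformlyOn (fun j => A (φ j)) A0 atTop univ :=
    tendstoLocallyUniformlyOn_univ.2 hl
  have h3 := hl'.deriv (Eventually.of_forall fun j => (hA (φ j)).diff.differentiableOn) isOpen_univ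
  have h4 := (tendstoLocallyUniformlyOn_iff_forall_isCompact isOpen_univ).1 h3
    ((fun s : ℝ => (s : ℂ)) '' Icc 0 1) (subset_univ _)
    (isCompact_Icc.image Complex.continuous_ofReal)
  rw [Metric.tendstoUniformlyOn_iff] at h4
  have hpos : (0 : ℝ) < 1 / (2 * ((m : ℝ) + 1)) := by positivity
  have h5 := h4 _ hpos
  have h6 : ∀ᶠ j : ℕ in atTop, 1 / ((φ j : ℝ) + 1) < 1 / (2 * ((m : ℝ) + 1)) :=
    (tendsto_one_div_add_atTop_nhds_zero_nat.comp hφ.tendsto_atTop).eventually (gt_mem_nhds hpos)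
  obtain ⟨j, hj5, hj6⟩ := (h5.and h6).exists
  refine absurd (hAv (φ j)) (not_lt.2 ?_)
  refine le_trans (measure_mono ?_) hm.le
  rintro s ⟨hs, hs2⟩
  refine ⟨hs, ?_⟩
  have h7 := hj5 (s : ℂ) (mem_image_of_mem _ hs)
  rw [dist_eq_norm] at h7
  have h8 : ‖deriv A0 (s : ℂ)‖ ≤ ‖deriv A0 (s : ℂ) - deriv (A (φ j)) (s : ℂ)‖ +
      ‖deriv (A (φ j)) (s : ℂ)‖ := by
    simpa using norm_add_le (deriv A0 (s : ℂ) - deriv (A (φ j)) (s : ℂ)) (deriv (A (φ j)) (s : ℂ))
  have h9 : 1 / ((m : ℝ) + 1) = 1 / (2 * ((m : ℝ) + 1)) + 1 / (2 * ((m : ℝ) + 1)) := by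
    field_simp
    norm_num
  rw [h9]
  simp only [Function.comp] at h7
  linarith

end HE
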