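import Mathlib

/-!
# Entire curves for the real Henon map beyond |b| = 1/4: definitions
-/

set_option autoImplicit false

open Set Filter Topology MeasureTheory

namespace HE

/-- the complex plane of dimension two with the sup norm -/
abbrev P := ℂ × ℂ

/-- the (complexified real) Henon map -/
def F (c b : ℝ) (p : P) : P := (p.1 ^ 2 + (c : ℂ) - (b : ℂ) * p.2, p.1)

/-- its inverse -/
noncomputable def g (c b : ℝ) (p : P) : P := (p.2, (p.2 ^ 2 + (c : ℂ) - p.1) / (b : ℂ))

/-- complex conjugation -/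
noncomputable def cj (p : P) : P := ((starRingEnd ℂ) p.1, (starRingEnd ℂ) p.2)

/-- bounded forward orbits -/
def Kp (c b : ℝ) : Set P := {p | ∃ B : ℝ, ∀ n : ℕ, ‖(F c b)^[n] p‖ ≤ B}

/-- bounded backward orbits -/
def Km (c b : ℝ) : Set P := {p | ∃ B : ℝ, ∀ n : ℕ, ‖(g c b)^[n] p‖ ≤ B}

/-- the range of parameters of Theorem AN -/
structure Par (c b : ℝ) : Prop where
  c0 : -14 ≤ c
  c1 : c ≤ 1
  b0 : 1 / 5 ≤ |b|
  b1 : |b| ≤ 2 / 5

/-- approximations of the Green function -/
noncomputable def un (c b : ℝ) (n : ℕ) (p : P) : ℝ := Real.posLog ‖(g c b)^[n] p‖ / 2 ^ n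

/-- the Green function of the inverse map (used only on `Kp`) -/
noncomputable def G (c b : ℝ) (p : P) : ℝ := limUnder atTop (fun n => un c b n p)

/-- real entire curves in `Kp` whose real points are in `Km` -/
structure Cv (c b : ℝ) (A : ℂ → P) : Prop where
  diff : Differentiable ℂ A
  sym : ∀ w, A ((starRingEnd ℂ) w) = cj (A w)
  kp : ∀ w, A w ∈ Kp c b
  km : ∀ t : ℝ, A (t : ℂ) ∈ Km c b

/-- continuous nonnegative subharmonic functions, symmetric and zero on the real line -/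
structure Pot (v : ℂ → ℝ) : Prop where
  cont : Continuous v
  nn : ∀ w, 0 ≤ v w
  sub : ∀ (w : ℂ) (r : ℝ), 0 < r → v w ≤ Real.circleAverage v w r
  real : ∀ t : ℝ, v (t : ℂ) = 0
  sym : ∀ w, v ((starRingEnd ℂ) w) = v w

/-- T(R) = sup of v(w)/|Im w| over |w| < R -/
noncomputable def TT (v : ℂ → ℝ) (R : ℝ) : ℝ :=
  sSup {x : ℝ | ∃ w : ℂ, ‖w‖ < R ∧ w.im ≠ 0 ∧ x = v w / |w.im|}

/-- curves on which the Green function is linear -/
structure Lin (c b t : ℝ) (A : ℂ → P) : Prop extends Cv c b A where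
  lin : ∀ w : ℂ, G c b (A w) = t * |w.im|

end HE
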